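import Pool.Agent.Helper75.TW.A2

/-!
# TW-A3 (as `Helper92.LA.A3`): the sum `LS` is bounded by the twentieth moment `J20`
-/

open MeasureTheory Real Set Filter Topology

set_option autoImplicit false

namespace Pool.Agent.Helper75.TW

open Pool.Agent.Helper22.AE
open Pool.Agent.Helper92.GC
open Pool.Agent.Helper92.LA (lf Fb HL WL)
open Pool.Agent.Helper22.LP (Fr fv fk fdet nr tr hom LS nr_eq)

theorem cf_cont {X : Type} [TopologicalSpace X] (S : Finset (ℤ × ℤ)) (a : X → ℤ × ℤ → ℂ)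
    (h : ∀ k ∈ S, Continuous (fun x => a x k)) (n : ℕ) : ∀ l, Continuous (fun x => cf S (a x) n l) := by
  induction n with
  | zero => exact fun l => continuous_const
  | succ n ih =>
    intro l
    show Continuous (fun x => ∑ k ∈ _, _)
    refine continuous_finsetSum _ fun k hk => ?_
    have hk' := (Finset.mem_product.1 (Finset.mem_filter.1 hk).1).2
    exact (ih k.1).mul (h _ hk')

/-- `m20` is a continuous function of the coefficients -/
theorem m20_cont_coef {X : Type} [TopologicalSpace X] (S : Finset (ℤ × ℤ)) (a : X → ℤ × ℤ → ℂ)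
    (h : ∀ k ∈ S, Continuous (fun x => a x k)) : Continuous (fun x => m20 S (a x)) := by
  simp only [m20_eq]
  refine continuous_finsetSum _ fun l _ => ?_
  exact Continuous.pow (Continuous.norm (cf_cont S a h 10 l)) 2

/-- the twentieth moment over the centres and over `r` -/
noncomputable def J20 (f : Fr) (h : ℝ × ℝ → ℝ) (X : ℝ) (N : ℕ) : ℝ :=
  ∫ r in Icc (X / 4) (8 * X), m20 (sqa N) (fun k => ee (r * h (fk f k)))

private theorem m20_r_cont92 (f : Fr) (h : ℝ × ℝ → ℝ) (N : ℕ) :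
    Continuous (fun r : ℝ => m20 (sqa N) (fun k => ee (r * h (fk f k)))) := by
  refine m20_cont_coef (sqa N) (fun (r : ℝ) k => ee (r * h (fk f k))) fun k _ => ?_
  exact ee_cont.comp (continuous_id.mul continuous_const)

theorem J20_nonneg (f : Fr) (h : ℝ × ℝ → ℝ) (X : ℝ) (N : ℕ) : 0 ≤ J20 f h X N :=
  integral_nonneg fun _ => m20_nonneg _ _

/-- the pointwise bound -/
theorem ls_le {M B : ℝ} (hM : 1 ≤ M) : ∃ C : ℝ, 0 < C ∧ ∀ f : Fr, Fb M f → ∀ h : ℝ × ℝ → ℝ, HL B h → ∀ w : ℝ × ℝ → ℂ, WL B w →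
    ∀ i : ℕ, i ≤ 2 → ∀ N : ℕ, 1 ≤ N → ∀ X : ℝ, 1 ≤ X → ∀ r ∈ Icc (X / 2) (4 * X), ∀ c : ℝ × ℝ,
      ‖LS f h w i N r c‖ ^ 20 ≤ C * (N : ℝ) ^ 3 * J20 f h X N := by
  obtain ⟨C, hC, hmul⟩ := ls_mul (M := M) (B := B) hM
  refine ⟨441 * 4 * C ^ 20, by positivity, ?_⟩
  intro f hf h hh w hw i hi N hN X hX r hr c
  have hNr : (1 : ℝ) ≤ N := by exact_mod_cast hN
  have hN0 : (0 : ℝ) < N := by linarith
  obtain ⟨G, hG⟩ : ∃ G : ℝ → ℝ, G = fun r => m20 (sqa N) (fun k => ee (r * h (fk f k))) := ⟨_, rfl⟩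
  have hGc : Continuous G := by
    rw [hG]
    exact m20_r_cont92 f h N
  have hG0 : ∀ r, 0 ≤ G r := by
    intro r
    rw [hG]
    exact m20_nonneg _ _
  have hcard : ((SP (sqa N) 10).card : ℝ) ≤ 441 * (4 * (N : ℝ) ^ 2) := by
    have h1 := sp10_card (S := sqa N) (X := 2 * N) (Y := 2 * N) (by linarith) (by linarith) (by
      classical
      intro p hp
      unfold sqa at hp
      obtain ⟨-, -, h2, h3⟩ := Finset.mem_filter.1 hp
      constructor
      · exact_mod_cast h2.le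
      · exact_mod_cast h3.le)
    refine h1.trans (le_of_eq ?_)
    ring
  -- the bound for each `r'`
  have h1 : ∀ r' ∈ Icc r (r + 1 / N), ‖LS f h w i N r c‖ ^ 20 ≤ 441 * (4 * (N : ℝ) ^ 2) * C ^ 20 * G r' := by
    intro r' hr'
    have hs : |r - r'| ≤ 1 / N := by
      rw [abs_le]
      constructor
      · linarith [hr'.2]
      · have := hr'.1
        have h2 : 0 ≤ 1 / (N : ℝ) := by positivity
        linarith
    have h2 := (hmul f hf h hh w hw i hi N hN (r - r') hs).2 (fun k => ee (r' * h (fk f k)))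
    have h3 : LS f h w i N r c = tp (sqa N) (fun k => (((N : ℝ) / nr (fk f k) : ℝ) : ℂ) ^ i * w (fk f k) *
        ee ((r - r') * h (fk f k)) * ee (r' * h (fk f k))) c := by
      unfold LS tp
      refine Finset.sum_congr rfl fun k _ => ?_
      have h4 : ee (r * h (fk f k) + dt k c) = ee ((r - r') * h (fk f k)) * ee (r' * h (fk f k)) * ee (dt k c) := by
        rw [← ee_add, ← ee_add]
        congr 1
        ring
      rw [h4]
      ring
    rw [h3]
    refine (nik20 _ _ _).trans ?_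
    have h5 : m20 (sqa N) (fun k => (((N : ℝ) / nr (fk f k) : ℝ) : ℂ) ^ i * w (fk f k) *
        ee ((r - r') * h (fk f k)) * ee (r' * h (fk f k))) ≤ C ^ 20 * G r' := by
      rw [hG]
      exact h2
    calc ((SP (sqa N) 10).card : ℝ) * m20 (sqa N) (fun k => (((N : ℝ) / nr (fk f k) : ℝ) : ℂ) ^ i * w (fk f k) *
        ee ((r - r') * h (fk f k)) * ee (r' * h (fk f k))) ≤ 441 * (4 * (N : ℝ) ^ 2) * (C ^ 20 * G r') :=
          mul_le_mul hcard h5 (m20_nonneg _ _) (by positivity)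
      _ = _ := by ring
  have hsub : Icc r (r + 1 / N) ⊆ Icc (X / 4) (8 * X) := by
    intro x hx
    have h2 : 1 / (N : ℝ) ≤ 1 := by
      rw [div_le_one hN0]
      exact hNr
    constructor
    · linarith [hx.1, hr.1]
    · linarith [hx.2, hr.2]
  have hvol : (volume (Icc r (r + 1 / (N : ℝ)))).toReal = 1 / N := by
    rw [Real.volume_Icc, ENNReal.toReal_ofReal (by
      have : 0 ≤ 1 / (N : ℝ) := by positivity
      linarith)]
    ring
  have hJ : ∫ r' in Icc r (r + 1 / N), G r' ≤ J20 f h X N := by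
    unfold J20
    rw [hG]
    rw [hG] at hGc hG0
    refine setIntegral_mono_set ?_ (Eventually.of_forall hG0) (Eventually.of_forall hsub)
    exact hGc.continuousOn.integrableOn_compact isCompact_Icc
  have h6 : ‖LS f h w i N r c‖ ^ 20 * (1 / N) ≤ 441 * (4 * (N : ℝ) ^ 2) * C ^ 20 * ∫ r' in Icc r (r + 1 / N), G r' := by
    have h7 : ∫ _r' in Icc r (r + 1 / (N : ℝ)), ‖LS f h w i N r c‖ ^ 20 ≤
        ∫ r' in Icc r (r + 1 / (N : ℝ)), 441 * (4 * (N : ℝ) ^ 2) * C ^ 20 * G r' := by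
      refine setIntegral_mono_on ?_ ?_ measurableSet_Icc h1
      · exact continuousOn_const.integrableOn_compact isCompact_Icc
      · exact (continuous_const.mul hGc).continuousOn.integrableOn_compact isCompact_Icc
    rw [integral_const_mul, setIntegral_const, Measure.real, hvol, smul_eq_mul] at h7
    linarith
  have h8 : ‖LS f h w i N r c‖ ^ 20 * (1 / N) ≤ 441 * (4 * (N : ℝ) ^ 2) * C ^ 20 * J20 f h X N :=
    h6.trans (mul_le_mul_of_nonneg_left hJ (by positivity))
  calc ‖LS f h w i N r c‖ ^ 20 = ‖LS f h w i N r c‖ ^ 20 * (1 / N) * N := by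
        field_simp
    _ ≤ 441 * (4 * (N : ℝ) ^ 2) * C ^ 20 * J20 f h X N * N := mul_le_mul_of_nonneg_right h8 hN0.le
    _ = 441 * 4 * C ^ 20 * (N : ℝ) ^ 3 * J20 f h X N := by ring

end Pool.Agent.Helper75.TW
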