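import Pool.Agent.Helper75.TW.B1
import Pool.Agent.Helper92.LA.D1

/-!
# TW-D1 (as `Helper92.LA.D1`): the exponent `θ` for almost every frame, from the moments of order 20 and 12
-/

open MeasureTheory Real Set Filter Topology

set_option autoImplicit false

namespace Pool.Agent.Helper75.TW

open Pool.Agent.Helper22.AE
open Pool.Agent.Helper22.AC (cntc ga)
open Pool.Agent.Helper22.OV (o3_k0_cont o3_k0_nonneg cntc_bdd)
open Pool.Agent.Helper92.GC (dt sqa)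
open Pool.Agent.Helper92.LA (lf Fb HL WL JJ fr_bd fam)
open Pool.Agent.Helper22.LP (Fr fv fk fdet cp nr tr hom LS wr Hf Hf_isSupp lp_main nr_eq nr_pos)

/-- the trivial bound of the sums -/
private theorem ls_triv92 {M B : ℝ} (hM : 1 ≤ M) {f : Fr} (hf : Fb M f) {h : ℝ × ℝ → ℝ} {w : ℝ × ℝ → ℂ} (hw : WL B w) {i N : ℕ}
    (hi : i ≤ 2) (hN : 1 ≤ N) (r : ℝ) (c : ℝ × ℝ) : ‖LS f h w i N r c‖ ≤ 25 * (2 * M ^ 2) ^ 2 * B * (N : ℝ) ^ 2 := by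
  classical
  have hB : 0 ≤ B := (norm_nonneg _).trans (hw.bdd (0, 0))
  have hNr : (1 : ℝ) ≤ N := by exact_mod_cast hN
  have hM2 : 1 ≤ 2 * M ^ 2 := by nlinarith
  have hterm : ∀ k ∈ sqa N, ‖(((N : ℝ) / nr (fk f k) : ℝ) : ℂ) ^ i * w (fk f k) * ee (r * h (fk f k) + dt k c)‖ ≤ (2 * M ^ 2) ^ 2 * B := by
    intro k hk
    rw [norm_mul, norm_mul, norm_pow, ee_norm, mul_one, Complex.norm_real, Real.norm_eq_abs]
    obtain ⟨⟨a, b⟩, c', d⟩ := f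
    obtain ⟨h1, -, -⟩ := fr_bd hM hf hk
    have h2 : max |lf a c' k| |lf b d k| ≤ nr (fk ((a, b), c', d) k) := by
      rw [nr_eq]
      have e1 : (fk ((a, b), c', d) k).1 = lf a c' k := by
        unfold fk fv lf
        simp only
        ring
      have e2 : (fk ((a, b), c', d) k).2 = lf b d k := by
        unfold fk fv lf
        simp only
        ring
      rw [e1, e2]
      refine max_le ?_ ?_
      · apply Real.le_sqrt_of_sq_le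
        rw [sq_abs]
        linarith [sq_nonneg (lf b d k)]
      · apply Real.le_sqrt_of_sq_le
        rw [sq_abs]
        linarith [sq_nonneg (lf a c' k)]
    have h3 : (N : ℝ) ≤ 2 * M ^ 2 * nr (fk ((a, b), c', d) k) :=
      h1.trans (mul_le_mul_of_nonneg_left h2 (by positivity))
    have h4 : 0 < nr (fk ((a, b), c', d) k) := by
      by_contra hn
      push Not at hn
      have := mul_nonpos_of_nonneg_of_nonpos (show 0 ≤ 2 * M ^ 2 by positivity) hn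
      linarith
    have h5 : |(N : ℝ) / nr (fk ((a, b), c', d) k)| ≤ 2 * M ^ 2 := by
      rw [abs_of_nonneg (by positivity), div_le_iff₀ h4]
      exact h3
    have h6 : |(N : ℝ) / nr (fk ((a, b), c', d) k)| ^ i ≤ (2 * M ^ 2) ^ 2 :=
      (pow_le_pow_left₀ (abs_nonneg _) h5 i).trans (pow_le_pow_right₀ hM2 hi)
    exact mul_le_mul h6 (hw.bdd _) (norm_nonneg _) (by positivity)
  have hcard : ((sqa N).card : ℝ) ≤ 25 * (N : ℝ) ^ 2 := by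
    have h1 : (sqa N).card ≤ (box (2 * N)).card := Finset.card_le_card (Finset.filter_subset _ _)
    have h2 : (box (2 * N)).card = (4 * N + 1) ^ 2 := by
      unfold box
      rw [Finset.card_product, Int.card_Icc]
      have : (((2 * N : ℕ) : ℤ) + 1 - -((2 * N : ℕ) : ℤ)).toNat = 4 * N + 1 := by omega
      rw [this]
      ring
    rw [h2] at h1
    have h3 : ((sqa N).card : ℝ) ≤ (4 * (N : ℝ) + 1) ^ 2 := by exact_mod_cast h1
    refine h3.trans ?_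
    nlinarith
  unfold LS
  refine (norm_sum_le _ _).trans ((Finset.sum_le_sum hterm).trans ?_)
  rw [Finset.sum_const, nsmul_eq_mul]
  have := mul_le_mul_of_nonneg_right hcard (show 0 ≤ (2 * M ^ 2) ^ 2 * B by positivity)
  linarith

private theorem fb92 {f : Fr} (hf : fdet f ≠ 0) : ∃ M : ℝ, 1 ≤ M ∧ Fb M f := by
  have h0 : 0 < |fdet f| := abs_pos.2 hf
  refine ⟨1 + |f.1.1| + |f.1.2| + |f.2.1| + |f.2.2| + 1 / |fdet f|, ?_, ?_⟩
  · have := abs_nonneg f.1.1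
    have := abs_nonneg f.1.2
    have := abs_nonneg f.2.1
    have := abs_nonneg f.2.2
    have : 0 ≤ 1 / |fdet f| := by positivity
    linarith
  · have h1 := abs_nonneg f.1.1
    have h2 := abs_nonneg f.1.2
    have h3 := abs_nonneg f.2.1
    have h4 := abs_nonneg f.2.2
    have h5 : 0 ≤ 1 / |fdet f| := by positivity
    refine ⟨by linarith, by linarith, by linarith, by linarith, ?_⟩
    have h6 : 1 = 1 / |fdet f| * |fdet f| := by field_simp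
    calc (1 : ℝ) = 1 / |fdet f| * |fdet f| := h6
      _ ≤ _ := mul_le_mul_of_nonneg_right (by linarith) h0.le

private theorem k0_mass92 {α₀ β : ℝ} (h0 : 0 < α₀) (h1 : α₀ < π / 2) (hβ : 0 < β) : ∫ α in Icc (-α₀) α₀, k0 β α ≤ 20 := by
  have hpi := Real.pi_pos
  have h2 := k0_int hβ
  rw [intervalIntegral.integral_of_le (by linarith)] at h2
  refine le_trans (setIntegral_mono_set ?_ (Eventually.of_forall (o3_k0_nonneg hβ)) (Eventually.of_forall ?_)) h2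
  · rw [← integrableOn_Icc_iff_integrableOn_Ioc]
    exact (o3_k0_cont hβ).continuousOn.integrableOn_compact isCompact_Icc
  · intro x hx
    exact ⟨by linarith [hx.1], by linarith [hx.2]⟩

/-- Hoelder, in the form which is needed -/
private theorem hold92 {q : ℕ} {α₀ : ℝ} {κ J : ℝ → ℝ} (hκ : Continuous κ) (hκ0 : ∀ α, 0 ≤ κ α) (hJ : Continuous J) (hJ0 : ∀ α, 0 ≤ J α)
    (hκ1 : ∫ α in Icc (-α₀) α₀, κ α ≤ 20) {l : ℝ} (hl : 0 < l) (hJ1 : ∫ α in Icc (-α₀) α₀, κ α * J α ≤ l ^ (q + 1)) :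
    ∫ α in Icc (-α₀) α₀, κ α * J α ^ (1 / ((q : ℝ) + 1)) ≤ 21 * l := by
  have hq : (0 : ℝ) < (q : ℝ) + 1 := by positivity
  have hpt : ∀ α, κ α * J α ^ (1 / ((q : ℝ) + 1)) ≤ l * κ α + 1 / l ^ q * (κ α * J α) := by
    intro α
    have h1 : J α ^ (1 / ((q : ℝ) + 1)) ≤ l + 1 / l ^ q * J α := by
      obtain ⟨y, hy⟩ : ∃ y : ℝ, y = J α ^ (1 / ((q : ℝ) + 1)) := ⟨_, rfl⟩
      have hy0 : 0 ≤ y := by
        rw [hy]
        exact rpow_nonneg (hJ0 α) _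
      have hy12 : y ^ (q + 1) = J α := by
        rw [hy, ← rpow_natCast, ← rpow_mul (hJ0 α)]
        push_cast
        rw [one_div, inv_mul_cancel₀ hq.ne', rpow_one]
      rw [← hy, ← hy12]
      rcases le_total y l with h | h
      · have : 0 ≤ 1 / l ^ q * y ^ (q + 1) := by positivity
        linarith
      · have h2 : l ^ q ≤ y ^ q := pow_le_pow_left₀ hl.le h q
        have h3 : y ≤ 1 / l ^ q * y ^ (q + 1) := by
          rw [one_div, inv_mul_eq_div, le_div_iff₀ (by positivity)]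
          calc y * l ^ q ≤ y * y ^ q := mul_le_mul_of_nonneg_left h2 hy0
            _ = y ^ (q + 1) := by ring
        linarith
    calc κ α * J α ^ (1 / ((q : ℝ) + 1)) ≤ κ α * (l + 1 / l ^ q * J α) := mul_le_mul_of_nonneg_left h1 (hκ0 α)
      _ = _ := by ring
  have hJc : Continuous fun α => J α ^ (1 / ((q : ℝ) + 1)) := hJ.rpow_const fun _ => Or.inr (by positivity)
  calc ∫ α in Icc (-α₀) α₀, κ α * J α ^ (1 / ((q : ℝ) + 1)) ≤ ∫ α in Icc (-α₀) α₀, (l * κ α + 1 / l ^ q * (κ α * J α)) := by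
        refine setIntegral_mono_on ?_ ?_ measurableSet_Icc fun α _ => hpt α
        · exact (hκ.mul hJc).continuousOn.integrableOn_compact isCompact_Icc
        · exact ((continuous_const.mul hκ).add (continuous_const.mul (hκ.mul hJ))).continuousOn.integrableOn_compact isCompact_Icc
    _ = l * (∫ α in Icc (-α₀) α₀, κ α) + 1 / l ^ q * ∫ α in Icc (-α₀) α₀, κ α * J α := by
        rw [integral_add, integral_const_mul, integral_const_mul]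
        · exact (continuous_const.mul hκ).continuousOn.integrableOn_compact isCompact_Icc
        · exact (continuous_const.mul (hκ.mul hJ)).continuousOn.integrableOn_compact isCompact_Icc
    _ ≤ l * 20 + 1 / l ^ q * l ^ (q + 1) := by
        have h2 : 0 ≤ 1 / l ^ q := by positivity
        have := mul_le_mul_of_nonneg_left hκ1 hl.le
        have := mul_le_mul_of_nonneg_left hJ1 h2
        linarith
    _ = 21 * l := by
        rw [pow_succ]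
        field_simp
        ring

/-- the block in terms of the bound of the integral -/
private lemma blk92 {θ e X N T D I : ℝ} (hθ : 1 / 2 < θ) (he : 0 < e) (hX : 1 ≤ X) (hN : 1 ≤ N) (hT : 0 ≤ T) (hD : 0 ≤ D)
    (hI : (N ≤ X ^ (2 * θ - 1) ∧ I ≤ 20 * (T * N ^ 2)) ∨ I ≤ 21 * (D * (X ^ (θ - 1 / 2 + e) * N ^ (3 / 2 : ℝ)))) :
    X ^ (1 / 2 : ℝ) * N ^ (-(3 / 2) : ℝ) * I ≤ (20 * T + 21 * D) * X ^ (θ + e) := by
  have hX0 : 0 < X := by linarith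
  have hN0 : 0 < N := by linarith
  have h1 : 0 ≤ X ^ (θ + e) := by positivity
  have h2 : 0 ≤ X ^ (1 / 2 : ℝ) * N ^ (-(3 / 2) : ℝ) := by positivity
  rcases hI with ⟨ha, hb⟩ | hb
  · have h3 : X ^ (1 / 2 : ℝ) * N ^ (-(3 / 2) : ℝ) * I ≤ X ^ (1 / 2 : ℝ) * N ^ (-(3 / 2) : ℝ) * (20 * (T * N ^ 2)) :=
      mul_le_mul_of_nonneg_left hb h2
    have h4 : X ^ (1 / 2 : ℝ) * N ^ (-(3 / 2) : ℝ) * N ^ 2 ≤ X ^ (θ + e) := by
      obtain ⟨x, rfl⟩ : ∃ x, X = exp x := ⟨log X, (exp_log hX0).symm⟩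
      obtain ⟨n, rfl⟩ : ∃ n, N = exp n := ⟨log N, (exp_log hN0).symm⟩
      have hx : 0 ≤ x := one_le_exp_iff.1 hX
      have hn : 0 ≤ n := one_le_exp_iff.1 hN
      rw [← exp_mul, exp_le_exp] at ha
      have h5 : exp n ^ 2 = exp (2 * n) := by
        rw [← exp_nat_mul]
        norm_num
      rw [h5, ← exp_mul, ← exp_mul, ← exp_mul, ← exp_add, ← exp_add, exp_le_exp]
      nlinarith
    have h5 : X ^ (1 / 2 : ℝ) * N ^ (-(3 / 2) : ℝ) * (20 * (T * N ^ 2)) = 20 * T * (X ^ (1 / 2 : ℝ) * N ^ (-(3 / 2) : ℝ) * N ^ 2) := by ring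
    have h6 := mul_le_mul_of_nonneg_left h4 (show 0 ≤ 20 * T by positivity)
    have h7 : 0 ≤ 21 * D * X ^ (θ + e) := by positivity
    linarith
  · have h3 : X ^ (1 / 2 : ℝ) * N ^ (-(3 / 2) : ℝ) * I ≤
        X ^ (1 / 2 : ℝ) * N ^ (-(3 / 2) : ℝ) * (21 * (D * (X ^ (θ - 1 / 2 + e) * N ^ (3 / 2 : ℝ)))) := mul_le_mul_of_nonneg_left hb h2
    have h4 : X ^ (1 / 2 : ℝ) * N ^ (-(3 / 2) : ℝ) * (X ^ (θ - 1 / 2 + e) * N ^ (3 / 2 : ℝ)) = X ^ (θ + e) := by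
      have h5 : N ^ (-(3 / 2) : ℝ) * N ^ (3 / 2 : ℝ) = 1 := by
        rw [← rpow_add hN0]
        norm_num
      have h6 : X ^ (1 / 2 : ℝ) * X ^ (θ - 1 / 2 + e) = X ^ (θ + e) := by
        rw [← rpow_add hX0]
        congr 1
        ring
      calc X ^ (1 / 2 : ℝ) * N ^ (-(3 / 2) : ℝ) * (X ^ (θ - 1 / 2 + e) * N ^ (3 / 2 : ℝ)) =
            (X ^ (1 / 2 : ℝ) * X ^ (θ - 1 / 2 + e)) * (N ^ (-(3 / 2) : ℝ) * N ^ (3 / 2 : ℝ)) := by ring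
        _ = X ^ (θ + e) := by rw [h5, h6, mul_one]
    have h5 : X ^ (1 / 2 : ℝ) * N ^ (-(3 / 2) : ℝ) * (21 * (D * (X ^ (θ - 1 / 2 + e) * N ^ (3 / 2 : ℝ)))) =
        21 * D * (X ^ (1 / 2 : ℝ) * N ^ (-(3 / 2) : ℝ) * (X ^ (θ - 1 / 2 + e) * N ^ (3 / 2 : ℝ))) := by ring
    rw [h5, h4] at h3
    have h7 : 0 ≤ 20 * T * X ^ (θ + e) := by positivity
    linarith

/-- the moment bound against the target -/
private lemma tb92 {q : ℕ} {θ e X N C₁ C₂ D : ℝ} (hX : 1 ≤ X) (hN : 0 < N) (he : 0 ≤ e) (hC₁ : 0 ≤ C₁) (hC₂ : 0 ≤ C₂) (hD : 1 ≤ D)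
    (hCD : C₁ * C₂ ≤ D) : C₂ * N ^ 3 * (C₁ * (X ^ e * TB (q + 1) θ X N)) ≤ (D * (X ^ (θ - 1 / 2 + e) * N ^ (3 / 2 : ℝ))) ^ (q + 1) := by
  have hX0 : 0 < X := by linarith
  unfold TB
  have h1 : C₂ * N ^ 3 * (C₁ * (X ^ e * ((X ^ (θ - 1 / 2) * N ^ (3 / 2 : ℝ)) ^ (q + 1) / N ^ 3))) =
      (C₁ * C₂) * (X ^ e * (X ^ (θ - 1 / 2) * N ^ (3 / 2 : ℝ)) ^ (q + 1)) := by
    field_simp
  have h2 : D * (X ^ (θ - 1 / 2 + e) * N ^ (3 / 2 : ℝ)) = D * (X ^ e * (X ^ (θ - 1 / 2) * N ^ (3 / 2 : ℝ))) := by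
    rw [rpow_add hX0]
    ring
  rw [h1, h2, mul_pow D, mul_pow (X ^ e)]
  have h3 : C₁ * C₂ ≤ D ^ (q + 1) := hCD.trans (by
    calc D = D ^ 1 := (pow_one D).symm
      _ ≤ D ^ (q + 1) := pow_le_pow_right₀ hD (by omega))
  have h4 : X ^ e ≤ (X ^ e) ^ (q + 1) := by
    have h5 : 1 ≤ X ^ e := one_le_rpow hX he
    calc X ^ e = (X ^ e) ^ 1 := (pow_one _).symm
      _ ≤ (X ^ e) ^ (q + 1) := pow_le_pow_right₀ h5 (by omega)
  have h5 : 0 ≤ (X ^ (θ - 1 / 2) * N ^ (3 / 2 : ℝ)) ^ (q + 1) := by positivity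
  exact mul_le_mul h3 (mul_le_mul_of_nonneg_right h4 h5) (by positivity) (by positivity)

/-- one frame -/
theorem frame_core {H : ℝ → ℝ} (hH : IsSupp H) {α₀ B : ℝ} (ha0 : 0 < α₀) (ha1 : α₀ < π / 2)
    (hjc : Continuous fun q : ℝ × (ℝ × ℝ) => hom (ga H q.1) q.2)
    (hfam : ∀ α ∈ Icc (-α₀) α₀, HL B (hom (ga H α)) ∧ WL B (wr H α) ∧ WL B (fun _ => 1)) {f : Fr} (hf : fdet f ≠ 0)
    {θ ν₂ ν₃ : ℝ} (hθ : 1 / 2 < θ) (hθ1 : θ < 1) {e : ℝ} (he : 0 < e) (he1 : 1 - θ + e ≤ ν₃) (he2 : 1 - θ + e ≤ 1) {C₁ : ℝ} (hC₁ : 0 ≤ C₁)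
    (hJ20 : ∀ p n : ℕ, n ≤ p → ((2 : ℝ) ^ p) ^ (2 * θ - 1) ≤ (2 : ℝ) ^ n → (2 : ℝ) ^ n ≤ ((2 : ℝ) ^ p) ^ ν₂ →
      ∫ α in Icc (-α₀) α₀, k0 (1 / sqrt ((2 : ℝ) ^ p * ((2 ^ n : ℕ) : ℝ))) α * J20 f (hom (ga H α)) ((2 : ℝ) ^ p) (2 ^ n) ≤
      C₁ * (((2 : ℝ) ^ p) ^ e * TB 20 θ ((2 : ℝ) ^ p) (2 ^ n)))
    (hJ12 : ∀ p n : ℕ, n ≤ p → ((2 : ℝ) ^ p) ^ ν₂ ≤ (2 : ℝ) ^ n → (2 : ℝ) ^ n ≤ ((2 : ℝ) ^ p) ^ ν₃ →
      ∫ α in Icc (-α₀) α₀, k0 (1 / sqrt ((2 : ℝ) ^ p * ((2 ^ n : ℕ) : ℝ))) α * JJ f (hom (ga H α)) ((2 : ℝ) ^ p) (2 ^ n) ≤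
      C₁ * (((2 : ℝ) ^ p) ^ e * TB 12 θ ((2 : ℝ) ^ p) (2 ^ n))) :
    ∃ C : ℝ, ∀ R : ℝ, 1 ≤ R → ∀ c : ℝ × ℝ, |cntc (Hf H f) c R - area (Hf H f) * R ^ 2| ≤ C * R ^ (θ + 2 * e) := by
  obtain ⟨M, hM, hfb⟩ := fb92 hf
  obtain ⟨C₂, hC₂, hls⟩ := Pool.Agent.Helper92.LA.ls_le (M := M) (B := B) hM
  obtain ⟨C₂', hC₂', hls'⟩ := ls_le (M := M) (B := B) hM
  obtain ⟨C₃, R₁, hC₃, hR₁, hlp⟩ := lp_main hH hf (τ := 1 - θ) (e2 := e) (by linarith) (by linarith) he ha0 ha1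
  obtain ⟨C₄, hC₄⟩ := cntc_bdd (Hf_isSupp hH hf) (2 * R₁)
  obtain ⟨T, hT⟩ : ∃ T : ℝ, T = 25 * (2 * M ^ 2) ^ 2 * |B| := ⟨_, rfl⟩
  have hT0 : 0 ≤ T := by
    rw [hT]
    positivity
  obtain ⟨D, hD⟩ : ∃ D : ℝ, D = C₁ * C₂ + C₁ * C₂' + 1 := ⟨_, rfl⟩
  have hCC : 0 ≤ C₁ * C₂ := by positivity
  have hCC' : 0 ≤ C₁ * C₂' := by positivity
  have hD1 : 1 ≤ D := by
    rw [hD]
    linarith
  have hD0 : 0 < D := by linarith
  refine ⟨C₃ * (1 + (2 / e + 1) * (20 * T + 21 * D + 1)) + |C₄|, ?_⟩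
  intro R hR c
  have hR0 : 0 < R := by linarith
  have hbig : 1 ≤ R ^ (θ + 2 * e) := one_le_rpow hR (by linarith)
  have hK0 : 0 ≤ C₃ * (1 + (2 / e + 1) * (20 * T + 21 * D + 1)) := by positivity
  rcases le_total R (2 * R₁) with hs | hs
  · have h1 := (hC₄ R hR hs c).trans (le_abs_self C₄)
    have h2 : |C₄| ≤ |C₄| * R ^ (θ + 2 * e) := by
      have := mul_le_mul_of_nonneg_left hbig (abs_nonneg C₄)
      linarith
    have h3 : 0 ≤ C₃ * (1 + (2 / e + 1) * (20 * T + 21 * D + 1)) * R ^ (θ + 2 * e) := mul_nonneg hK0 (by positivity)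
    linarith
  -- the dyadic number
  obtain ⟨p, hp1, hp2⟩ := exists_nat_pow_near hR (show (1 : ℝ) < 2 by norm_num)
  obtain ⟨X, hX⟩ : ∃ X : ℝ, X = (2 : ℝ) ^ p := ⟨_, rfl⟩
  have hX1 : 1 ≤ X := by
    rw [hX]
    exact one_le_pow₀ (by norm_num)
  have hX0 : 0 < X := by linarith
  have hXR : X ≤ R := by rwa [hX]
  have hRX : R ≤ 2 * X := by
    rw [hX]
    rw [pow_succ] at hp2
    linarith
  have hXR1 : R₁ ≤ X := by linarith
  obtain ⟨n1, hn1⟩ : ∃ n1 : ℕ, n1 = ⌈(1 - θ + e) * p⌉₊ := ⟨_, rfl⟩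
  have hXp : ∀ y : ℝ, X ^ y = (2 : ℝ) ^ (p * y) := by
    intro y
    rw [hX, ← rpow_natCast 2 p, ← rpow_mul (by norm_num)]
  have hn1a : X ^ (1 - θ + e) ≤ 2 ^ n1 := by
    rw [hXp, ← rpow_natCast]
    refine rpow_le_rpow_of_exponent_le (by norm_num) ?_
    rw [hn1, mul_comm]
    exact Nat.le_ceil _
  have hn1b : ∀ n < n1, (n : ℝ) < (1 - θ + e) * p := by
    intro n hn
    rw [hn1] at hn
    exact Nat.lt_ceil.1 hn
  have hnp : ∀ n < n1, n ≤ p := by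
    intro n hn
    have h1 := hn1b n hn
    have h2 : (1 - θ + e) * (p : ℝ) ≤ 1 * p := mul_le_mul_of_nonneg_right he2 (Nat.cast_nonneg p)
    have h3 : (n : ℝ) < p := by linarith
    exact_mod_cast h3.le
  have hnX : ∀ n < n1, (2 : ℝ) ^ n ≤ X ^ ν₃ := by
    intro n hn
    rw [hXp, ← rpow_natCast]
    refine rpow_le_rpow_of_exponent_le (by norm_num) ?_
    have h1 := hn1b n hn
    have h2 : (1 - θ + e) * (p : ℝ) ≤ ν₃ * p := mul_le_mul_of_nonneg_right he1 (Nat.cast_nonneg p)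
    linarith
  have hn1c : (n1 : ℝ) ≤ (2 / e + 1) * X ^ e := by
    have h1 : (n1 : ℝ) < (1 - θ + e) * p + 1 := by
      rw [hn1]
      exact Nat.ceil_lt_add_one (mul_nonneg (by linarith) (Nat.cast_nonneg p))
    have h2 : log X ≤ X ^ e / e := log_le_rpow_div hX0.le he
    have h3 : (1 : ℝ) / 2 < log 2 := by
      have := log_two_gt_d9
      linarith
    have h4 : log X = p * log 2 := by
      rw [hX, log_pow]
    have h5 : (p : ℝ) * (1 / 2) ≤ X ^ e / e := by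
      have : (p : ℝ) * (1 / 2) ≤ p * log 2 := mul_le_mul_of_nonneg_left h3.le (Nat.cast_nonneg p)
      linarith
    have h6 : 1 ≤ X ^ e := one_le_rpow hX1 he.le
    have h7 : (1 - θ + e) * (p : ℝ) ≤ 1 * p := mul_le_mul_of_nonneg_right he2 (Nat.cast_nonneg p)
    have h8 : 2 / e * X ^ e = 2 * (X ^ e / e) := by ring
    linarith
  -- the functions
  obtain ⟨J, hJd⟩ : ∃ J : ℕ → ℝ → ℝ, ∀ n α, J n α = JJ f (hom (ga H α)) X (2 ^ n) := ⟨_, fun _ _ => rfl⟩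
  obtain ⟨J', hJd'⟩ : ∃ J' : ℕ → ℝ → ℝ, ∀ n α, J' n α = J20 f (hom (ga H α)) X (2 ^ n) := ⟨_, fun _ _ => rfl⟩
  have hpr : Continuous fun α : ℝ => ((f, α) : Fr × ℝ) := continuous_const.prodMk continuous_id
  have hJc : ∀ n, Continuous (J n) := by
    intro n
    have h3 := (mm_JJ.cont (fun α => hom (ga H α)) hjc X (2 ^ n)).comp hpr
    have h4 : J n = (fun q : Fr × ℝ => JJ q.1 (hom (ga H q.2)) X (2 ^ n)) ∘ fun α : ℝ => ((f, α) : Fr × ℝ) := by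
      funext α
      rw [hJd]
      rfl
    rw [h4]
    exact h3
  have hJc' : ∀ n, Continuous (J' n) := by
    intro n
    have h3 := (mm_J20.cont (fun α => hom (ga H α)) hjc X (2 ^ n)).comp hpr
    have h4 : J' n = (fun q : Fr × ℝ => J20 q.1 (hom (ga H q.2)) X (2 ^ n)) ∘ fun α : ℝ => ((f, α) : Fr × ℝ) := by
      funext α
      rw [hJd']
      rfl
    rw [h4]
    exact h3
  have hJ0 : ∀ n α, 0 ≤ J n α := by
    intro n α
    rw [hJd]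
    exact mm_JJ.nonneg _ _ _ _
  have hJ0' : ∀ n α, 0 ≤ J' n α := by
    intro n α
    rw [hJd']
    exact mm_J20.nonneg _ _ _ _
  obtain ⟨G, hG⟩ : ∃ G : ℕ → ℝ → ℝ, ∀ n α, G n α = C₂ * ((2 ^ n : ℕ) : ℝ) ^ 3 * J n α := ⟨_, fun _ _ => rfl⟩
  obtain ⟨G', hG'⟩ : ∃ G' : ℕ → ℝ → ℝ, ∀ n α, G' n α = C₂' * ((2 ^ n : ℕ) : ℝ) ^ 3 * J' n α := ⟨_, fun _ _ => rfl⟩
  have hGc : ∀ n, Continuous (G n) := by
    intro n
    have h1 : G n = fun α => C₂ * ((2 ^ n : ℕ) : ℝ) ^ 3 * J n α := funext (hG n)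
    rw [h1]
    exact continuous_const.mul (hJc n)
  have hGc' : ∀ n, Continuous (G' n) := by
    intro n
    have h1 : G' n = fun α => C₂' * ((2 ^ n : ℕ) : ℝ) ^ 3 * J' n α := funext (hG' n)
    rw [h1]
    exact continuous_const.mul (hJc' n)
  have hG0 : ∀ n α, 0 ≤ G n α := by
    intro n α
    rw [hG]
    exact mul_nonneg (by positivity) (hJ0 _ _)
  have hG0' : ∀ n α, 0 ≤ G' n α := by
    intro n α
    rw [hG']
    exact mul_nonneg (by positivity) (hJ0' _ _)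
  classical
  obtain ⟨g, hg⟩ : ∃ g : ℕ → ℝ → ℝ, g = fun n => if (2 : ℝ) ^ n ≤ X ^ (2 * θ - 1) then (fun _ => T * ((2 ^ n : ℕ) : ℝ) ^ 2) else
      if (2 : ℝ) ^ n ≤ X ^ ν₂ then (fun α => G' n α ^ (1 / ((19 : ℕ) + 1 : ℝ))) else (fun α => G n α ^ (1 / ((11 : ℕ) + 1 : ℝ))) := ⟨_, rfl⟩
  have hg1 : ∀ n, (2 : ℝ) ^ n ≤ X ^ (2 * θ - 1) → g n = fun _ => T * ((2 ^ n : ℕ) : ℝ) ^ 2 := by
    intro n hn
    rw [hg]
    exact if_pos hn
  have hg2 : ∀ n, ¬(2 : ℝ) ^ n ≤ X ^ (2 * θ - 1) → (2 : ℝ) ^ n ≤ X ^ ν₂ → g n = fun α => G' n α ^ (1 / ((19 : ℕ) + 1 : ℝ)) := by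
    intro n hn hn2
    rw [hg]
    simp only [if_neg hn, if_pos hn2]
  have hg3 : ∀ n, ¬(2 : ℝ) ^ n ≤ X ^ (2 * θ - 1) → ¬(2 : ℝ) ^ n ≤ X ^ ν₂ → g n = fun α => G n α ^ (1 / ((11 : ℕ) + 1 : ℝ)) := by
    intro n hn hn2
    rw [hg]
    simp only [if_neg hn, if_neg hn2]
  have hgc : ∀ n, Continuous (g n) := by
    intro n
    by_cases hn : (2 : ℝ) ^ n ≤ X ^ (2 * θ - 1)
    · rw [hg1 n hn]
      exact continuous_const
    · by_cases hn2 : (2 : ℝ) ^ n ≤ X ^ ν₂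
      · rw [hg2 n hn hn2]
        exact (hGc' n).rpow_const fun _ => Or.inr (by positivity)
      · rw [hg3 n hn hn2]
        exact (hGc n).rpow_const fun _ => Or.inr (by positivity)
  have hN1 : ∀ n : ℕ, 1 ≤ 2 ^ n := fun n => Nat.one_le_two_pow
  have hNr : ∀ n : ℕ, ((2 ^ n : ℕ) : ℝ) = (2 : ℝ) ^ n := fun n => by push_cast; rfl
  -- the pointwise bound
  have hpt : ∀ n < n1, ∀ α ∈ Icc (-α₀) α₀, ∀ r ∈ Icc (X / 2) (4 * X), ∀ c : ℝ × ℝ,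
      ‖LS f (hom (ga H α)) (wr H α) 1 (2 ^ n) r c‖ ≤ g n α ∧ ‖LS f (hom (ga H α)) (fun _ => 1) 2 (2 ^ n) r c‖ ≤ g n α := by
    intro n hn α hα r hr c
    obtain ⟨hHL, hW1, hW2⟩ := hfam α hα
    have hB0 : 0 ≤ B := (norm_nonneg _).trans (hW2.bdd (0, 0))
    have key : ∀ (q : ℕ) (z Y : ℝ), 0 ≤ z → z ^ (q + 1) ≤ Y → z ≤ Y ^ (1 / ((q : ℕ) + 1 : ℝ)) := by
      intro q z Y hz h
      have hq : (0 : ℝ) < (q : ℝ) + 1 := by positivity
      calc z = (z ^ (q + 1)) ^ (1 / ((q : ℕ) + 1 : ℝ)) := by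
            rw [← rpow_natCast, ← rpow_mul hz]
            push_cast
            rw [mul_one_div, div_self hq.ne', rpow_one]
        _ ≤ Y ^ (1 / ((q : ℕ) + 1 : ℝ)) := rpow_le_rpow (by positivity) h (by positivity)
    by_cases hs : (2 : ℝ) ^ n ≤ X ^ (2 * θ - 1)
    · rw [hg1 n hs, hT, abs_of_nonneg hB0]
      exact ⟨ls_triv92 hM hfb hW1 (by norm_num) (hN1 n) r c, ls_triv92 hM hfb hW2 (by norm_num) (hN1 n) r c⟩
    · by_cases hs2 : (2 : ℝ) ^ n ≤ X ^ ν₂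
      · rw [hg2 n hs hs2]
        refine ⟨key 19 _ _ (norm_nonneg _) ?_, key 19 _ _ (norm_nonneg _) ?_⟩
        · rw [hG', hJd']
          exact hls' f hfb _ hHL _ hW1 1 (by norm_num) (2 ^ n) (hN1 n) X hX1 r hr c
        · rw [hG', hJd']
          exact hls' f hfb _ hHL _ hW2 2 (by norm_num) (2 ^ n) (hN1 n) X hX1 r hr c
      · rw [hg3 n hs hs2]
        refine ⟨key 11 _ _ (norm_nonneg _) ?_, key 11 _ _ (norm_nonneg _) ?_⟩
        · rw [hG, hJd]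
          exact hls f hfb _ hHL _ hW1 1 (by norm_num) (2 ^ n) (hN1 n) X hX1 r hr c
        · rw [hG, hJd]
          exact hls f hfb _ hHL _ hW2 2 (by norm_num) (2 ^ n) (hN1 n) X hX1 r hr c
  have hmain := hlp X hXR1 n1 hn1a g (fun n _ => (hgc n).continuousOn.integrableOn_compact isCompact_Icc) hpt R ⟨hXR, hRX⟩ c
  -- the blocks
  have hblk : ∀ n ∈ Finset.range n1, X ^ (1 / 2 : ℝ) * ((2 ^ n : ℕ) : ℝ) ^ (-(3 / 2) : ℝ) *
      (∫ α in Icc (-α₀) α₀, k0 (1 / sqrt (X * (2 ^ n : ℕ))) α * g n α) + 1 ≤ (20 * T + 21 * D + 1) * X ^ (θ + e) := by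
    intro n hn
    have hn' := Finset.mem_range.1 hn
    have hNpos : (0 : ℝ) < ((2 ^ n : ℕ) : ℝ) := by exact_mod_cast hN1 n
    have hNr1 : (1 : ℝ) ≤ ((2 ^ n : ℕ) : ℝ) := by exact_mod_cast hN1 n
    have hβ : 0 < 1 / sqrt (X * ((2 ^ n : ℕ) : ℝ)) := by positivity
    have hk1 := k0_mass92 ha0 ha1 hβ
    have h1 : X ^ (1 / 2 : ℝ) * ((2 ^ n : ℕ) : ℝ) ^ (-(3 / 2) : ℝ) *
        (∫ α in Icc (-α₀) α₀, k0 (1 / sqrt (X * (2 ^ n : ℕ))) α * g n α) ≤ (20 * T + 21 * D) * X ^ (θ + e) := by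
      refine blk92 hθ he hX1 hNr1 hT0 hD0.le ?_
      by_cases hs : (2 : ℝ) ^ n ≤ X ^ (2 * θ - 1)
      · left
        refine ⟨by rw [hNr]; exact hs, ?_⟩
        rw [hg1 n hs, integral_mul_const]
        exact mul_le_mul_of_nonneg_right hk1 (by positivity)
      · right
        have hs' := hs
        push Not at hs'
        by_cases hs2 : (2 : ℝ) ^ n ≤ X ^ ν₂
        · rw [hg2 n hs hs2]
          refine hold92 (q := 19) (o3_k0_cont hβ) (o3_k0_nonneg hβ) (hGc' n) (hG0' n) hk1 (by positivity) ?_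
          have h2 : ∫ α in Icc (-α₀) α₀, k0 (1 / sqrt (X * ((2 ^ n : ℕ) : ℝ))) α * G' n α =
              C₂' * ((2 ^ n : ℕ) : ℝ) ^ 3 * ∫ α in Icc (-α₀) α₀, k0 (1 / sqrt (X * ((2 ^ n : ℕ) : ℝ))) α * J' n α := by
            rw [← integral_const_mul]
            refine integral_congr_ae (Eventually.of_forall fun α => ?_)
            simp only
            rw [hG']
            ring
          rw [h2]
          have h3 := hJ20 p n (hnp n hn') (by rw [← hX]; exact hs'.le) (by rw [← hX]; exact hs2)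
          rw [← hX] at h3
          simp only [← hJd'] at h3
          rw [hNr] at h3 ⊢
          have h5 : C₂' * ((2 : ℝ) ^ n) ^ 3 * ∫ α in Icc (-α₀) α₀, k0 (1 / sqrt (X * (2 : ℝ) ^ n)) α * J' n α ≤
              C₂' * ((2 : ℝ) ^ n) ^ 3 * (C₁ * (X ^ e * TB 20 θ X (2 ^ n))) := mul_le_mul_of_nonneg_left h3 (by positivity)
          exact h5.trans (tb92 (q := 19) hX1 (by positivity) he.le hC₁ hC₂'.le hD1 (by rw [hD]; linarith))
        · rw [hg3 n hs hs2]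
          have hs2' := hs2
          push Not at hs2'
          refine hold92 (q := 11) (o3_k0_cont hβ) (o3_k0_nonneg hβ) (hGc n) (hG0 n) hk1 (by positivity) ?_
          have h2 : ∫ α in Icc (-α₀) α₀, k0 (1 / sqrt (X * ((2 ^ n : ℕ) : ℝ))) α * G n α =
              C₂ * ((2 ^ n : ℕ) : ℝ) ^ 3 * ∫ α in Icc (-α₀) α₀, k0 (1 / sqrt (X * ((2 ^ n : ℕ) : ℝ))) α * J n α := by
            rw [← integral_const_mul]
            refine integral_congr_ae (Eventually.of_forall fun α => ?_)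
            simp only
            rw [hG]
            ring
          rw [h2]
          have h3 := hJ12 p n (hnp n hn') (by rw [← hX]; exact hs2'.le) (by rw [← hX]; exact hnX n hn')
          rw [← hX] at h3
          simp only [← hJd] at h3
          rw [hNr] at h3 ⊢
          have h5 : C₂ * ((2 : ℝ) ^ n) ^ 3 * ∫ α in Icc (-α₀) α₀, k0 (1 / sqrt (X * (2 : ℝ) ^ n)) α * J n α ≤
              C₂ * ((2 : ℝ) ^ n) ^ 3 * (C₁ * (X ^ e * TB 12 θ X (2 ^ n))) := mul_le_mul_of_nonneg_left h3 (by positivity)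
          exact h5.trans (tb92 (q := 11) hX1 (by positivity) he.le hC₁ hC₂.le hD1 (by rw [hD]; linarith))
    have h2 : 1 ≤ X ^ (θ + e) := one_le_rpow hX1 (by linarith)
    linarith
  have hsum : ∑ n ∈ Finset.range n1, (X ^ (1 / 2 : ℝ) * ((2 ^ n : ℕ) : ℝ) ^ (-(3 / 2) : ℝ) *
      (∫ α in Icc (-α₀) α₀, k0 (1 / sqrt (X * (2 ^ n : ℕ))) α * g n α) + 1) ≤ (2 / e + 1) * (20 * T + 21 * D + 1) * X ^ (θ + 2 * e) := by
    refine (Finset.sum_le_sum hblk).trans ?_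
    rw [Finset.sum_const, Finset.card_range, nsmul_eq_mul]
    have h1 : X ^ e * X ^ (θ + e) = X ^ (θ + 2 * e) := by
      rw [← rpow_add hX0]
      congr 1
      ring
    calc (n1 : ℝ) * ((20 * T + 21 * D + 1) * X ^ (θ + e)) ≤ (2 / e + 1) * X ^ e * ((20 * T + 21 * D + 1) * X ^ (θ + e)) :=
          mul_le_mul_of_nonneg_right hn1c (by positivity)
      _ = (2 / e + 1) * (20 * T + 21 * D + 1) * (X ^ e * X ^ (θ + e)) := by ring
      _ = _ := by rw [h1]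
  have h1 : X ^ (1 - (1 - θ)) ≤ X ^ (θ + 2 * e) := rpow_le_rpow_of_exponent_le hX1 (by linarith)
  have h2 : X ^ (θ + 2 * e) ≤ R ^ (θ + 2 * e) := rpow_le_rpow hX0.le hXR (by linarith)
  refine hmain.trans ?_
  have h3 : C₃ * (X ^ (1 - (1 - θ)) + ∑ n ∈ Finset.range n1, (X ^ (1 / 2 : ℝ) * ((2 ^ n : ℕ) : ℝ) ^ (-(3 / 2) : ℝ) *
      (∫ α in Icc (-α₀) α₀, k0 (1 / sqrt (X * (2 ^ n : ℕ))) α * g n α) + 1)) ≤
      C₃ * (1 + (2 / e + 1) * (20 * T + 21 * D + 1)) * X ^ (θ + 2 * e) := by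
    have h4 := mul_le_mul_of_nonneg_left (add_le_add h1 hsum) hC₃.le
    refine h4.trans (le_of_eq ?_)
    ring
  refine h3.trans ?_
  have h4 : C₃ * (1 + (2 / e + 1) * (20 * T + 21 * D + 1)) * X ^ (θ + 2 * e) ≤
      C₃ * (1 + (2 / e + 1) * (20 * T + 21 * D + 1)) * R ^ (θ + 2 * e) := mul_le_mul_of_nonneg_left h2 hK0
  have h5 : 0 ≤ |C₄| * R ^ (θ + 2 * e) := by positivity
  linarith

/-- almost every frame with positive determinant, from moment theorems for classes `P`, `P'` of phases -/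
theorem frame_gen {H : ℝ → ℝ} (hH : IsSupp H) {θ ν₂ ν₃ : ℝ} (hθ : 1 / 2 < θ) (hθ1 : θ < 1) (hν : 1 - θ < ν₃) {α₀ B : ℝ}
    (ha0 : 0 < α₀) (ha1 : α₀ < π / 2) (hjc : Continuous fun q : ℝ × (ℝ × ℝ) => hom (ga H q.1) q.2)
    (hfam : ∀ α ∈ Icc (-α₀) α₀, HL B (hom (ga H α)) ∧ WL B (wr H α) ∧ WL B (fun _ => 1)) {P P' : (ℝ × ℝ → ℝ) → Prop}
    (hP : ∀ α ∈ Icc (-α₀) α₀, P (hom (ga H α))) (hP' : ∀ α ∈ Icc (-α₀) α₀, P' (hom (ga H α)))
    (hm20 : Mom J20 20 θ (2 * θ - 1) ν₂ P) (hm12 : Mom JJ 12 θ ν₂ ν₃ P') :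
    ∀ᵐ f : Fr, 0 < fdet f → ∀ ε : ℝ, 0 < ε → ∃ C : ℝ, ∀ R : ℝ, 1 ≤ R → ∀ c : ℝ × ℝ,
      |cntc (Hf H f) c R - area (Hf H f) * R ^ 2| ≤ C * R ^ (θ + ε) := by
  have hβ : ∀ p n : ℕ, 0 < 1 / sqrt ((2 : ℝ) ^ p * ((2 ^ n : ℕ) : ℝ)) := by
    intro p n
    have : (0 : ℝ) < ((2 ^ n : ℕ) : ℝ) := by exact_mod_cast Nat.one_le_two_pow
    positivity
  have h1 := ae_J mm_J20 hm20 (h := fun α => hom (ga H α)) hjc (α₀ := α₀) hP
    (κ := fun p n => k0 (1 / sqrt ((2 : ℝ) ^ p * ((2 ^ n : ℕ) : ℝ)))) (fun p n => o3_k0_cont (hβ p n)) (fun p n => o3_k0_nonneg (hβ p n))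
    (K := 20) (fun p n => k0_mass92 ha0 ha1 (hβ p n))
  have h2 := ae_J mm_JJ hm12 (h := fun α => hom (ga H α)) hjc (α₀ := α₀) hP'
    (κ := fun p n => k0 (1 / sqrt ((2 : ℝ) ^ p * ((2 ^ n : ℕ) : ℝ)))) (fun p n => o3_k0_cont (hβ p n)) (fun p n => o3_k0_nonneg (hβ p n))
    (K := 20) (fun p n => k0_mass92 ha0 ha1 (hβ p n))
  filter_upwards [h1, h2] with f hf hf' hdet ε hε
  obtain ⟨e, he⟩ : ∃ e : ℝ, e = min (ε / 2) (min (ν₃ - (1 - θ)) (θ / 2)) := ⟨_, rfl⟩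
  have he0 : 0 < e := by
    rw [he]
    exact lt_min (by linarith) (lt_min (by linarith) (by linarith))
  have he1 : e ≤ ν₃ - (1 - θ) := by
    rw [he]
    exact (min_le_right _ _).trans (min_le_left _ _)
  have he3 : e ≤ θ / 2 := by
    rw [he]
    exact (min_le_right _ _).trans (min_le_right _ _)
  have he2 : 2 * e ≤ ε := by
    have : e ≤ ε / 2 := by
      rw [he]
      exact min_le_left _ _
    linarith
  obtain ⟨C₁, hC₁, hJ⟩ := hf hdet e he0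
  obtain ⟨C₁', hC₁', hJ'⟩ := hf' hdet e he0
  have hpos : ∀ (q p n : ℕ), 0 ≤ ((2 : ℝ) ^ p) ^ e * TB q θ ((2 : ℝ) ^ p) (2 ^ n) := by
    intro q p n
    have h3 : 0 < TB q θ ((2 : ℝ) ^ p) (2 ^ n) := TB_pos (by positivity) (by positivity)
    positivity
  obtain ⟨C, hC⟩ := frame_core hH ha0 ha1 hjc hfam hdet.ne' hθ hθ1 he0 (ν₂ := ν₂) (ν₃ := ν₃) (by linarith) (by linarith)
    (C₁ := max C₁ C₁') (le_max_of_le_left hC₁)
    (fun p n hn a b => (hJ p n hn a b).trans (mul_le_mul_of_nonneg_right (le_max_left _ _) (hpos _ _ _)))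
    (fun p n hn a b => (hJ' p n hn a b).trans (mul_le_mul_of_nonneg_right (le_max_right _ _) (hpos _ _ _)))
  refine ⟨|C|, fun R hR c => (hC R hR c).trans ?_⟩
  calc C * R ^ (θ + 2 * e) ≤ |C| * R ^ (θ + 2 * e) := mul_le_mul_of_nonneg_right (le_abs_self C) (by positivity)
    _ ≤ |C| * R ^ (θ + ε) := mul_le_mul_of_nonneg_left (rpow_le_rpow_of_exponent_le hR (by linarith)) (abs_nonneg C)

/-- almost every frame with positive determinant -/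
theorem frame_ae {H : ℝ → ℝ} (hH : IsSupp H) (h5 : ContDiff ℝ 5 H) {θ ν₂ ν₃ : ℝ} (hθ : 1 / 2 < θ) (hθ1 : θ < 1) (hν : 1 - θ < ν₃)
    (hm20 : ∀ c₁ B : ℝ, 0 < c₁ → c₁ ≤ 1 → 1 ≤ B → Mom J20 20 θ (2 * θ - 1) ν₂ (Pool.Agent.Helper60.LT.Hom c₁ B))
    (hm12 : ∀ c₁ B : ℝ, 0 < c₁ → c₁ ≤ 1 → 1 ≤ B → Mom JJ 12 θ ν₂ ν₃ (Pool.Agent.Helper60.LT.Hom c₁ B)) :
    ∀ᵐ f : Fr, 0 < fdet f → ∀ ε : ℝ, 0 < ε → ∃ C : ℝ, ∀ R : ℝ, 1 ≤ R → ∀ c : ℝ × ℝ,
      |cntc (Hf H f) c R - area (Hf H f) * R ^ 2| ≤ C * R ^ (θ + ε) := by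
  obtain ⟨α₀, c₁, B, ha0, ha1, hc₁, hc₁1, hB, hjc, hfam⟩ := fam hH h5
  exact frame_gen hH hθ hθ1 hν ha0 ha1 hjc (fun α hα => (hfam α hα).2) (fun α hα => (hfam α hα).1) (fun α hα => (hfam α hα).1)
    (hm20 c₁ B hc₁ hc₁1 hB) (hm12 c₁ B hc₁ hc₁1 hB)

end Pool.Agent.Helper75.TW
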