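import Pool.Agent.Helper92.LA.D3
import Pool.Agent.Helper75.TW.D1

/-!
# TW-D3 (as `Helper92.LA.D3`): almost every lattice
-/

open MeasureTheory Real Set Filter Topology

set_option autoImplicit false

namespace Pool.Agent.Helper75.TW

open Pool.Agent.Helper22.AE
open Pool.Agent.Helper22.AC (cntc ga)
open Pool.Agent.Helper92.LA (JJ dl fdet_dl lcnt lcnt_eq lcnt_swap ae_dual ae_swap ae_det)
open Pool.Agent.Helper22.LP (Fr fdet Hf Hf_isSupp dom_lin area_lin)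

/-- every oval containing the origin, almost every lattice -/
theorem lattice_supp {H : ℝ → ℝ} (hH : IsSupp H) (h5 : ContDiff ℝ 5 H) {θ ν₂ ν₃ : ℝ} (hθ : 1 / 2 < θ) (hθ1 : θ < 1) (hν : 1 - θ < ν₃)
    (hm20 : ∀ c₁ B : ℝ, 0 < c₁ → c₁ ≤ 1 → 1 ≤ B → Mom J20 20 θ (2 * θ - 1) ν₂ (Pool.Agent.Helper60.LT.Hom c₁ B))
    (hm12 : ∀ c₁ B : ℝ, 0 < c₁ → c₁ ≤ 1 → 1 ≤ B → Mom JJ 12 θ ν₂ ν₃ (Pool.Agent.Helper60.LT.Hom c₁ B)) :
    ∀ᵐ ab : Fr, fdet ab ≠ 0 ∧ ∀ ε : ℝ, 0 < ε → ∃ C : ℝ, ∀ R : ℝ, 1 ≤ R → ∀ c : ℝ × ℝ,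
      |lcnt ab H c R - area H * R ^ 2 / abs (fdet ab)| ≤ C * R ^ (θ + ε) := by
  have h1 := ae_dual (frame_ae hH h5 hθ hθ1 hν hm20 hm12)
  have h2 : ∀ᵐ ab : Fr, 0 < fdet ab → ∀ ε : ℝ, 0 < ε → ∃ C : ℝ, ∀ R : ℝ, 1 ≤ R → ∀ c : ℝ × ℝ,
      |lcnt ab H c R - area H * R ^ 2 / abs (fdet ab)| ≤ C * R ^ (θ + ε) := by
    filter_upwards [h1] with ab h hd ε hε
    obtain ⟨C, hC⟩ := h hd ε hε
    refine ⟨C, fun R hR c => ?_⟩
    have h3 := hC R hR ((dl ab).1.1 * c.1 + (dl ab).1.2 * c.2, (dl ab).2.1 * c.1 + (dl ab).2.2 * c.2)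
    have hdl : fdet (dl ab) ≠ 0 := by
      rw [fdet_dl hd.ne']
      positivity
    rw [← lcnt_eq hH.per hd.ne', area_lin hH.per hdl, fdet_dl hd.ne', abs_div, abs_one] at h3
    have e : 1 / |fdet ab| * area H * R ^ 2 = area H * R ^ 2 / |fdet ab| := by ring
    rwa [e] at h3
  have h3 := ae_swap h2
  filter_upwards [h2, h3, ae_det] with ab h4 h5 h6
  refine ⟨h6, fun ε hε => ?_⟩
  rcases lt_or_gt_of_ne h6 with h7 | h7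
  · have e : fdet (ab.2, ab.1) = -fdet ab := by
      unfold fdet
      simp only
      ring
    obtain ⟨C, hC⟩ := h5 (by rw [e]; linarith) ε hε
    refine ⟨C, fun R hR c => ?_⟩
    have h8 := hC R hR c
    rwa [lcnt_swap, e, abs_neg] at h8
  · exact h4 h7 ε hε

/-- every oval, almost every lattice -/
theorem lattice_ae {H : ℝ → ℝ} (h5 : ContDiff ℝ 5 H) (hp : Function.Periodic H (2 * π)) (hr : ∀ t, 0 < H t + deriv (deriv H) t)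
    {θ ν₂ ν₃ : ℝ} (hθ : 1 / 2 < θ) (hθ1 : θ < 1) (hν : 1 - θ < ν₃)
    (hm20 : ∀ c₁ B : ℝ, 0 < c₁ → c₁ ≤ 1 → 1 ≤ B → Mom J20 20 θ (2 * θ - 1) ν₂ (Pool.Agent.Helper60.LT.Hom c₁ B))
    (hm12 : ∀ c₁ B : ℝ, 0 < c₁ → c₁ ≤ 1 → 1 ≤ B → Mom JJ 12 θ ν₂ ν₃ (Pool.Agent.Helper60.LT.Hom c₁ B)) :
    ∀ᵐ ab : Fr, fdet ab ≠ 0 ∧ ∀ ε : ℝ, 0 < ε → ∃ C : ℝ, ∀ R : ℝ, 1 ≤ R → ∀ c : ℝ × ℝ,
      |lcnt ab H c R - area H * R ^ 2 / abs (fdet ab)| ≤ C * R ^ (θ + ε) := by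
  obtain ⟨v, hv⟩ := Pool.Agent.Helper22.OV.exists_shift (h5.of_le (by norm_num)) hp hr
  filter_upwards [lattice_supp hv (Pool.Agent.Helper22.OV.shf_smooth v h5) hθ hθ1 hν hm20 hm12] with ab h
  refine ⟨h.1, fun ε hε => ?_⟩
  obtain ⟨C, hC⟩ := h.2 ε hε
  refine ⟨C, fun R hR c => ?_⟩
  have h1 := hC R hR (c.1 - R * v.1, c.2 - R * v.2)
  rw [Pool.Agent.Helper22.OV.area_shf] at h1
  have h2 : lcnt ab (Pool.Agent.Helper22.OV.shf H v) (c.1 - R * v.1, c.2 - R * v.2) R = lcnt ab H c R := by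
    unfold lcnt
    congr 1
    refine Nat.card_congr (Equiv.subtypeEquivRight fun k => ?_)
    refine forall_congr' fun t => ?_
    unfold Pool.Agent.Helper22.OV.shf
    simp only
    constructor
    · intro h
      linarith
    · intro h
      linarith
  rwa [h2] at h1

end Pool.Agent.Helper75.TW
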