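import Pool.Agent.Helper92.LA.Fin
import Pool.Agent.Helper75.TW.D3

/-!
# TW-Num: from bounds of moments to the form `Mom`
-/

open MeasureTheory Real Set Filter Topology

set_option autoImplicit false

namespace Pool.Agent.Helper75.TW

open Pool.Agent.Helper92.LA (JJ MB MomP momP)
open Pool.Agent.Helper22.LP (Fr fdet)

/-- a power is at most the bound `TB` between two frequencies if it is so at both -/
theorem tb_num {q : ℕ} {θ a b ν₁ ν₂ X N : ℝ} (hX : 1 ≤ X) (hN : 0 < N) (h1 : X ^ ν₁ ≤ N) (h2 : N ≤ X ^ ν₂)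
    (c1 : a + b * ν₁ ≤ q * (θ - 1 / 2) + (3 / 2 * q - 3) * ν₁) (c2 : a + b * ν₂ ≤ q * (θ - 1 / 2) + (3 / 2 * q - 3) * ν₂) :
    X ^ a * N ^ b ≤ TB q θ X N := by
  have hX0 : 0 < X := by linarith
  have e : TB q θ X N = X ^ (q * (θ - 1 / 2)) * N ^ (3 / 2 * q - 3 : ℝ) := by
    unfold TB
    rw [mul_pow, ← rpow_natCast, ← rpow_mul hX0.le, ← rpow_natCast (N ^ (3 / 2 : ℝ)), ← rpow_mul hN.le, rpow_sub hN, mul_comm (θ - 1 / 2) (q : ℝ)]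
    have : N ^ (3 : ℝ) = N ^ (3 : ℕ) := by
      rw [← rpow_natCast]
      norm_num
    rw [this]
    ring
  rw [e]
  -- divide
  have h3 : X ^ (a - q * (θ - 1 / 2)) * N ^ (b - (3 / 2 * q - 3 : ℝ)) ≤ 1 := by
    rcases le_total 0 (b - (3 / 2 * q - 3 : ℝ)) with h | h
    · calc X ^ (a - q * (θ - 1 / 2)) * N ^ (b - (3 / 2 * q - 3 : ℝ)) ≤ X ^ (a - q * (θ - 1 / 2)) * (X ^ ν₂) ^ (b - (3 / 2 * q - 3 : ℝ)) :=
            mul_le_mul_of_nonneg_left (rpow_le_rpow hN.le h2 h) (by positivity)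
        _ = X ^ ((a - q * (θ - 1 / 2)) + ν₂ * (b - (3 / 2 * q - 3 : ℝ))) := by
            rw [← rpow_mul hX0.le, ← rpow_add hX0]
        _ ≤ X ^ (0 : ℝ) := rpow_le_rpow_of_exponent_le hX (by linarith)
        _ = 1 := rpow_zero _
    · calc X ^ (a - q * (θ - 1 / 2)) * N ^ (b - (3 / 2 * q - 3 : ℝ)) ≤ X ^ (a - q * (θ - 1 / 2)) * (X ^ ν₁) ^ (b - (3 / 2 * q - 3 : ℝ)) :=
            mul_le_mul_of_nonneg_left (rpow_le_rpow_of_nonpos (by positivity) h1 h) (by positivity)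
        _ = X ^ ((a - q * (θ - 1 / 2)) + ν₁ * (b - (3 / 2 * q - 3 : ℝ))) := by
            rw [← rpow_mul hX0.le, ← rpow_add hX0]
        _ ≤ X ^ (0 : ℝ) := rpow_le_rpow_of_exponent_le hX (by linarith)
        _ = 1 := rpow_zero _
  calc X ^ a * N ^ b = (X ^ (q * (θ - 1 / 2)) * N ^ (3 / 2 * q - 3 : ℝ)) * (X ^ (a - q * (θ - 1 / 2)) * N ^ (b - (3 / 2 * q - 3 : ℝ))) := by
        rw [mul_mul_mul_comm, ← rpow_add hX0, ← rpow_add hN]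
        congr 2
        · ring
        · ring
    _ ≤ (X ^ (q * (θ - 1 / 2)) * N ^ (3 / 2 * q - 3 : ℝ)) * 1 := mul_le_mul_of_nonneg_left h3 (by positivity)
    _ = _ := mul_one _

/-- the form in which moment theorems are proved -/
def MomF (J : Fr → (ℝ × ℝ → ℝ) → ℝ → ℕ → ℝ) (F : ℝ → ℝ → ℝ) (P : (ℝ × ℝ → ℝ) → Prop) (μ₁ μ₂ : ℝ) : Prop :=
  ∀ ε : ℝ, 0 < ε → ∀ U : Set Fr, IsCompact U → (∀ f ∈ U, 0 < fdet f) →
    ∃ C : ℝ, ∀ h, P h → ∀ X : ℝ, 1 ≤ X → ∀ n : ℕ, X ^ μ₁ ≤ (2 : ℝ) ^ n → (2 : ℝ) ^ n ≤ X ^ μ₂ →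
      ∫ f in U, J f h X (2 ^ n) ≤ C * (X ^ ε * F X (2 ^ n))

theorem mom_of_momF {J : Fr → (ℝ × ℝ → ℝ) → ℝ → ℕ → ℝ} {F : ℝ → ℝ → ℝ} {P : (ℝ × ℝ → ℝ) → Prop} {μ₁ μ₂ : ℝ} (h : MomF J F P μ₁ μ₂)
    {q : ℕ} {θ ν₁ ν₂ : ℝ} (h1 : μ₁ ≤ ν₁) (h2 : ν₂ ≤ μ₂) {K : ℝ}
    (hF0 : ∀ X N : ℝ, 1 ≤ X → 1 ≤ N → 0 ≤ F X N)
    (hF : ∀ X N : ℝ, 1 ≤ X → 1 ≤ N → X ^ ν₁ ≤ N → N ≤ X ^ ν₂ → F X N ≤ K * TB q θ X N) : Mom J q θ ν₁ ν₂ P := by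
  intro ε hε U hU hU0
  obtain ⟨C, hC⟩ := h ε hε U hU hU0
  refine ⟨|C| * |K|, fun φ hφ X hX n hn1 hn2 => ?_⟩
  have hX0 : 0 < X := by linarith
  have hN : (1 : ℝ) ≤ (2 : ℝ) ^ n := one_le_pow₀ (by norm_num)
  have hT := (TB_pos (q := q) (θ := θ) hX0 (show (0 : ℝ) < 2 ^ n by positivity)).le
  have h3 := hC φ hφ X hX n ((rpow_le_rpow_of_exponent_le hX h1).trans hn1) (hn2.trans (rpow_le_rpow_of_exponent_le hX h2))
  have h4 := hF X (2 ^ n) hX hN hn1 hn2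
  calc ∫ f in U, J f φ X (2 ^ n) ≤ C * (X ^ ε * F X (2 ^ n)) := h3
    _ ≤ |C| * (X ^ ε * F X (2 ^ n)) := by
        refine mul_le_mul_of_nonneg_right (le_abs_self C) ?_
        have := hF0 X (2 ^ n) hX hN
        positivity
    _ ≤ |C| * (X ^ ε * (|K| * TB q θ X (2 ^ n))) := by
        refine mul_le_mul_of_nonneg_left (mul_le_mul_of_nonneg_left (h4.trans ?_) (by positivity)) (abs_nonneg C)
        exact mul_le_mul_of_nonneg_right (le_abs_self K) hT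
    _ = |C| * |K| * (X ^ ε * TB q θ X (2 ^ n)) := by ring

theorem Mom.mono {J : Fr → (ℝ × ℝ → ℝ) → ℝ → ℕ → ℝ} {P : (ℝ × ℝ → ℝ) → Prop} {q : ℕ} {θ ν₁ ν₂ μ₁ μ₂ : ℝ} (h : Mom J q θ ν₁ ν₂ P)
    (h1 : ν₁ ≤ μ₁) (h2 : μ₂ ≤ ν₂) : Mom J q θ μ₁ μ₂ P := by
  intro ε hε U hU hU0
  obtain ⟨C, hC⟩ := h ε hε U hU hU0
  refine ⟨C, fun φ hφ X hX n hn1 hn2 => ?_⟩
  exact hC φ hφ X hX n ((rpow_le_rpow_of_exponent_le hX h1).trans hn1) (hn2.trans (rpow_le_rpow_of_exponent_le hX h2))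

theorem Mom.union {J : Fr → (ℝ × ℝ → ℝ) → ℝ → ℕ → ℝ} {P : (ℝ × ℝ → ℝ) → Prop} {q : ℕ} {θ ν₁ ν₂ ν₃ : ℝ} (h : Mom J q θ ν₁ ν₂ P)
    (h' : Mom J q θ ν₂ ν₃ P) : Mom J q θ ν₁ ν₃ P := by
  intro ε hε U hU hU0
  obtain ⟨C, hC⟩ := h ε hε U hU hU0
  obtain ⟨C', hC'⟩ := h' ε hε U hU hU0
  refine ⟨max C C', fun φ hφ X hX n hn1 hn2 => ?_⟩
  have hX0 : 0 < X := by linarith
  have hT := (TB_pos (q := q) (θ := θ) hX0 (show (0 : ℝ) < 2 ^ n by positivity)).le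
  rcases le_total ((2 : ℝ) ^ n) (X ^ ν₂) with h | h
  · exact (hC φ hφ X hX n hn1 h).trans (mul_le_mul_of_nonneg_right (le_max_left _ _) (by positivity))
  · exact (hC' φ hφ X hX n h hn2).trans (mul_le_mul_of_nonneg_right (le_max_right _ _) (by positivity))

/-- the twelfth moment theorem of 2026-12 (`Helper92.LA.momP`) in the form `MomF` -/
theorem momF_MB {c₁ B : ℝ} (hc : 0 < c₁) (hc1 : c₁ ≤ 1) (hB : 1 ≤ B) :
    MomF JJ (fun X N => X * MB X N) (Pool.Agent.Helper60.LT.Hom c₁ B) 0 1 := by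
  intro ε hε U hU hU0
  obtain ⟨C, hC⟩ := momP hc hc1 hB ε hε U hU hU0
  refine ⟨C, fun h hh X hX n _ hn => ?_⟩
  have hX0 : 0 < X := by linarith
  rw [rpow_one] at hn
  have := hC h hh X hX n hn
  rw [rpow_add hX0, rpow_one] at this
  refine this.trans (le_of_eq ?_)
  ring

/-- the twelfth moment with the third term: exponents `θ`, frequencies `X ^ ν₁ ≤ N ≤ X ^ ν₂` -/
theorem mom12_MB {c₁ B : ℝ} (hc : 0 < c₁) (hc1 : c₁ ≤ 1) (hB : 1 ≤ B) {θ ν₁ ν₂ : ℝ} (h0 : 0 ≤ ν₁) (h01 : ν₁ ≤ ν₂) (h1 : ν₂ ≤ 1)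
    (c1 : 7 ≤ 12 * θ + 3 * ν₁) (c2 : 3 / 2 * ν₂ + 11 / 2 ≤ 12 * θ) (c3 : 9 / 2 * ν₂ + 9 / 2 ≤ 12 * θ) :
    Mom JJ 12 θ ν₁ ν₂ (Pool.Agent.Helper60.LT.Hom c₁ B) := by
  refine mom_of_momF (momF_MB hc hc1 hB) (K := 3) h0 h1 (fun X N hX hN => ?_) (fun X N hX hN hν1 hν2 => ?_)
  · exact mul_nonneg (by linarith) (Pool.Agent.Helper92.LA.MB_pos (by linarith) (by linarith)).le
  · have hX0 : 0 < X := by linarith
    have hN0 : 0 < N := by linarith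
    have t1 : X ^ (1 : ℝ) * N ^ (12 : ℝ) ≤ TB 12 θ X N := tb_num hX hN0 hν1 hν2 (by push_cast; linarith) (by push_cast; linarith)
    have t2 : X ^ (-(1 / 2) : ℝ) * N ^ (33 / 2 : ℝ) ≤ TB 12 θ X N := tb_num hX hN0 hν1 hν2 (by push_cast; linarith) (by push_cast; linarith)
    have t3 : X ^ (-(3 / 2) : ℝ) * N ^ (39 / 2 : ℝ) ≤ TB 12 θ X N := tb_num hX hN0 hν1 hν2 (by push_cast; linarith) (by push_cast; linarith)
    have e : X * MB X N = X ^ (1 : ℝ) * N ^ (12 : ℝ) + X ^ (-(1 / 2) : ℝ) * N ^ (33 / 2 : ℝ) + X ^ (-(3 / 2) : ℝ) * N ^ (39 / 2 : ℝ) := by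
      unfold MB
      have a1 : X ^ (-(1 / 2) : ℝ) = X * X ^ (-(3 / 2) : ℝ) := by
        rw [show (-(1 / 2) : ℝ) = 1 + -(3 / 2) by norm_num, rpow_add hX0, rpow_one]
      have a2 : X ^ (-(3 / 2) : ℝ) = X * X ^ (-(5 / 2) : ℝ) := by
        rw [show (-(3 / 2) : ℝ) = 1 + -(5 / 2) by norm_num, rpow_add hX0, rpow_one]
      have b1 : N ^ (33 / 2 : ℝ) = N ^ (18 : ℕ) * N ^ (-(3 / 2) : ℝ) := by
        rw [← rpow_natCast N 18, ← rpow_add hN0]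
        norm_num
      have b2 : N ^ (39 / 2 : ℝ) = N ^ (22 : ℕ) * N ^ (-(5 / 2) : ℝ) := by
        rw [← rpow_natCast N 22, ← rpow_add hN0]
        norm_num
      have b3 : N ^ (12 : ℝ) = N ^ (12 : ℕ) := by
        rw [← rpow_natCast]
        norm_num
      rw [a1, b1, b2, b3, rpow_one, mul_rpow hX0.le hN0.le, mul_rpow hX0.le hN0.le]
      linear_combination -(N ^ 22 * N ^ (-(5 / 2) : ℝ)) * a2
    show X * MB X N ≤ 3 * TB 12 θ X N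
    rw [e]
    linarith

end Pool.Agent.Helper75.TW
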