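import Pool.Agent.Helper75.TW.Ell
import Pool.Agent.Helper86.LK.IND
import Pool.Agent.Helper86.LK.IND1
import Pool.Agent.Helper65.QL.Cpt

/-!
# TW-Last: discs and ellipses, almost every lattice, every centre: exponent 9/17
-/

open MeasureTheory Real Set Filter Topology

set_option autoImplicit false

namespace Pool.Agent.Helper75.TW

open Pool.Agent.Helper22.AE
open Pool.Agent.Helper92.LA (JJ lcnt)
open Pool.Agent.Helper22.LP (Fr fdet)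

/-- the high end of the twelfth moment (project LK) -/
theorem momS_all {c₁ B : ℝ} (hc : 0 < c₁) (hc1 : c₁ ≤ 1) (hB : 1 ≤ B) : Pool.Agent.Helper86.LK.MomS c₁ B :=
  Pool.Agent.Helper86.LK.momS_of_step fun he he1 hδ hδ1 hη ha hb h =>
    Pool.Agent.Helper86.LK.bndF_step hc hc1 hB he he1 hδ hδ1 hη ha hb h

/-- the twentieth moment for the disc (project QL) -/
theorem momQ : MomF J20 (fun X N => X * (N ^ 20 + N ^ 34 * (X * N) ^ (-(7 / 4) : ℝ))) (fun h => h = fun v => √(v.1 ^ 2 + v.2 ^ 2)) 0 (1 / 3) :=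
  Pool.Agent.Helper60.QL.mom_disc

/-- discs: exponent 9/17 -/
theorem disc_last : ∀ᵐ ab : Fr, fdet ab ≠ 0 ∧ ∀ ε : ℝ, 0 < ε → ∃ C : ℝ, ∀ R : ℝ, 1 ≤ R → ∀ c : ℝ × ℝ,
    |ldisc ab c R - π * R ^ 2 / abs (fdet ab)| ≤ C * R ^ (9 / 17 + ε) :=
  ldisc_main (fun _ _ hc hc1 hB => momS_all hc hc1 hB) momQ

/-- ellipses: exponent 9/17 -/
theorem ell_last {H : ℝ → ℝ} {u v p : ℝ × ℝ} (huv : u.1 * v.2 - u.2 * v.1 ≠ 0)
    (hH : ∀ t, H t = √((u.1 * cos t + u.2 * sin t) ^ 2 + (v.1 * cos t + v.2 * sin t) ^ 2) + (p.1 * cos t + p.2 * sin t)) :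
    ∀ᵐ ab : Fr, fdet ab ≠ 0 ∧ ∀ ε : ℝ, 0 < ε → ∃ C : ℝ, ∀ R : ℝ, 1 ≤ R → ∀ c : ℝ × ℝ,
      |lcnt ab H c R - area H * R ^ 2 / abs (fdet ab)| ≤ C * R ^ (9 / 17 + ε) :=
  oval_ell (fun _ _ hc hc1 hB => momS_all hc hc1 hB) momQ huv hH

end Pool.Agent.Helper75.TW
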