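import Pool.Agent.Helper75.TW.Num

/-!
# TW-Fin: the exponent 9/17 from the two moment theorems
-/

open MeasureTheory Real Set Filter Topology

set_option autoImplicit false

namespace Pool.Agent.Helper75.TW

open Pool.Agent.Helper22.AE
open Pool.Agent.Helper92.LA (JJ lcnt)
open Pool.Agent.Helper22.LP (Fr fdet)

/-- the bound of the moments of order 20 -/
noncomputable def F20 (X N : ℝ) : ℝ := X * (N ^ 20 + N ^ 27 * X ^ (-(7 / 17) : ℝ))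

/-- the bound of the moments of order 12 -/
noncomputable def F12 (X N : ℝ) : ℝ := X * (N ^ 12 + N ^ 17 * X ^ (-(5 / 3) : ℝ))

theorem mom20_917 {P : (ℝ × ℝ → ℝ) → Prop} {ν₂ : ℝ} (h1 : 1 / 17 ≤ ν₂) (h : MomF J20 F20 P (1 / 17) ν₂) :
    Mom J20 20 (9 / 17) (2 * (9 / 17) - 1) ν₂ P := by
  refine mom_of_momF h (K := 2) (by norm_num) le_rfl (fun X N hX hN => ?_) (fun X N hX hN hν1 hν2 => ?_)
  · have hX0 : 0 < X := by linarith
    have hN0 : 0 < N := by linarith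
    unfold F20
    positivity
  · have hX0 : 0 < X := by linarith
    have hN0 : 0 < N := by linarith
    have t1 : X ^ (1 : ℝ) * N ^ (20 : ℝ) ≤ TB 20 (9 / 17) X N :=
      tb_num hX hN0 hν1 hν2 (by push_cast; linarith) (by push_cast; linarith)
    have t2 : X ^ (10 / 17 : ℝ) * N ^ (27 : ℝ) ≤ TB 20 (9 / 17) X N :=
      tb_num hX hN0 hν1 hν2 (by push_cast; linarith) (by push_cast; linarith)
    have a1 : X ^ (10 / 17 : ℝ) = X * X ^ (-(7 / 17) : ℝ) := by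
      rw [show (10 / 17 : ℝ) = 1 + -(7 / 17) by norm_num, rpow_add hX0, rpow_one]
    have b1 : N ^ (20 : ℝ) = N ^ (20 : ℕ) := by
      rw [← rpow_natCast]
      norm_num
    have b2 : N ^ (27 : ℝ) = N ^ (27 : ℕ) := by
      rw [← rpow_natCast]
      norm_num
    rw [a1, b2] at t2
    rw [b1, rpow_one] at t1
    unfold F20
    linarith

theorem mom12_917 {P : (ℝ × ℝ → ℝ) → Prop} {ν₂ ν₃ : ℝ} (h1 : 11 / 51 ≤ ν₂) (h2 : ν₂ ≤ ν₃) (h3 : ν₃ ≤ 26 / 51) (h : MomF JJ F12 P ν₂ ν₃) :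
    Mom JJ 12 (9 / 17) ν₂ ν₃ P := by
  refine mom_of_momF h (K := 2) le_rfl le_rfl (fun X N hX hN => ?_) (fun X N hX hN hν1 hν2 => ?_)
  · have hX0 : 0 < X := by linarith
    have hN0 : 0 < N := by linarith
    unfold F12
    positivity
  · have hX0 : 0 < X := by linarith
    have hN0 : 0 < N := by linarith
    have t1 : X ^ (1 : ℝ) * N ^ (12 : ℝ) ≤ TB 12 (9 / 17) X N :=
      tb_num hX hN0 hν1 hν2 (by push_cast; linarith) (by push_cast; linarith)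
    have t2 : X ^ (-(2 / 3) : ℝ) * N ^ (17 : ℝ) ≤ TB 12 (9 / 17) X N :=
      tb_num hX hN0 hν1 hν2 (by push_cast; linarith) (by push_cast; linarith)
    have a1 : X ^ (-(2 / 3) : ℝ) = X * X ^ (-(5 / 3) : ℝ) := by
      rw [show (-(2 / 3) : ℝ) = 1 + -(5 / 3) by norm_num, rpow_add hX0, rpow_one]
    have b1 : N ^ (12 : ℝ) = N ^ (12 : ℕ) := by
      rw [← rpow_natCast]
      norm_num
    have b2 : N ^ (17 : ℝ) = N ^ (17 : ℕ) := by
      rw [← rpow_natCast]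
      norm_num
    rw [a1, b2] at t2
    rw [b1, rpow_one] at t1
    unfold F12
    linarith

/-- every oval, almost every lattice: exponent 9/17 from the two moment theorems -/
theorem lattice_917 {H : ℝ → ℝ} (h5 : ContDiff ℝ 5 H) (hp : Function.Periodic H (2 * π)) (hr : ∀ t, 0 < H t + deriv (deriv H) t)
    {ν₂ ν₃ : ℝ} (hν2 : 11 / 51 ≤ ν₂) (hν23 : ν₂ ≤ ν₃) (hν3 : 8 / 17 < ν₃) (hν3' : ν₃ ≤ 26 / 51)
    (hm20 : ∀ c₁ B : ℝ, 0 < c₁ → c₁ ≤ 1 → 1 ≤ B → MomF J20 F20 (Pool.Agent.Helper60.LT.Hom c₁ B) (1 / 17) ν₂)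
    (hm12 : ∀ c₁ B : ℝ, 0 < c₁ → c₁ ≤ 1 → 1 ≤ B → MomF JJ F12 (Pool.Agent.Helper60.LT.Hom c₁ B) ν₂ ν₃) :
    ∀ᵐ ab : Fr, fdet ab ≠ 0 ∧ ∀ ε : ℝ, 0 < ε → ∃ C : ℝ, ∀ R : ℝ, 1 ≤ R → ∀ c : ℝ × ℝ,
      |lcnt ab H c R - area H * R ^ 2 / abs (fdet ab)| ≤ C * R ^ (9 / 17 + ε) :=
  lattice_ae h5 hp hr (by norm_num) (by norm_num) (by linarith)
    (fun _ _ hc hc1 hB => mom20_917 (by linarith) (hm20 _ _ hc hc1 hB))
    (fun _ _ hc hc1 hB => mom12_917 hν2 hν23 hν3' (hm12 _ _ hc hc1 hB))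

end Pool.Agent.Helper75.TW
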