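import Pool.Agent.Helper75.TW.Disc
import Pool.Agent.Helper86.LK.M

/-!
# TW-Main: the disc, almost every lattice: exponent 9/17 from the moment theorems of LK and QL
-/

open MeasureTheory Real Set Filter Topology

set_option autoImplicit false

namespace Pool.Agent.Helper75.TW

open Pool.Agent.Helper22.AE
open Pool.Agent.Helper92.LA (JJ lcnt)
open Pool.Agent.Helper22.LP (Fr fdet)

theorem F20q_nonneg (X N : ℝ) (hX : 1 ≤ X) (hN : 1 ≤ N) : 0 ≤ X * (N ^ 20 + N ^ 34 * (X * N) ^ (-(7 / 4) : ℝ)) := by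
  have hX0 : 0 < X := by linarith
  have hN0 : 0 < N := by linarith
  positivity

theorem mom20_q {P : (ℝ × ℝ → ℝ) → Prop}
    (h : MomF J20 (fun X N => X * (N ^ 20 + N ^ 34 * (X * N) ^ (-(7 / 4) : ℝ))) P 0 (1 / 3)) :
    Mom J20 20 (9 / 17) (2 * (9 / 17) - 1) (1 / 4) P := by
  refine mom_of_momF h (K := 2) (by norm_num) (by norm_num) F20q_nonneg (fun X N hX hN hν1 hν2 => ?_)
  have hX0 : 0 < X := by linarith
  have hN0 : 0 < N := by linarith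
  have t1 : X ^ (1 : ℝ) * N ^ (20 : ℝ) ≤ TB 20 (9 / 17) X N :=
    tb_num hX hN0 hν1 hν2 (by norm_num) (by norm_num)
  have t2 : X ^ (-(3 / 4) : ℝ) * N ^ (129 / 4 : ℝ) ≤ TB 20 (9 / 17) X N :=
    tb_num hX hN0 hν1 hν2 (by norm_num) (by norm_num)
  have b1 : N ^ (20 : ℝ) = N ^ (20 : ℕ) := by
    rw [← rpow_natCast]
    norm_num
  have e : X ^ (-(3 / 4) : ℝ) * N ^ (129 / 4 : ℝ) = X * (N ^ (34 : ℕ) * (X * N) ^ (-(7 / 4) : ℝ)) := by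
    rw [mul_rpow hX0.le hN0.le, ← rpow_natCast N 34, show (-(3 / 4) : ℝ) = 1 + -(7 / 4) by norm_num, rpow_add hX0, rpow_one,
      show (129 / 4 : ℝ) = ((34 : ℕ) : ℝ) + -(7 / 4) by norm_num, rpow_add hN0]
    ring
  rw [b1, rpow_one] at t1
  rw [e] at t2
  show X * (N ^ 20 + N ^ 34 * (X * N) ^ (-(7 / 4) : ℝ)) ≤ 2 * TB 20 (9 / 17) X N
  linarith

/-- the disc, almost every lattice, every centre: exponent 9/17 from the moment theorems -/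
theorem disc_main (hS : ∀ c₁ B : ℝ, 0 < c₁ → c₁ ≤ 1 → 1 ≤ B → Pool.Agent.Helper86.LK.MomS c₁ B)
    (hq : MomF J20 (fun X N => X * (N ^ 20 + N ^ 34 * (X * N) ^ (-(7 / 4) : ℝ))) (fun h => h = fun v => √(v.1 ^ 2 + v.2 ^ 2)) 0 (1 / 3)) :
    ∀ᵐ ab : Fr, fdet ab ≠ 0 ∧ ∀ ε : ℝ, 0 < ε → ∃ C : ℝ, ∀ R : ℝ, 1 ≤ R → ∀ c : ℝ × ℝ,
      |lcnt ab (fun _ => 1) c R - π * R ^ 2 / abs (fdet ab)| ≤ C * R ^ (9 / 17 + ε) := by
  have hq' : MomF J20 (fun X N => X * (N ^ 20 + N ^ 34 * (X * N) ^ (-(7 / 4) : ℝ))) IsNm 0 (1 / 3) := by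
    intro ε hε U hU hU0
    obtain ⟨C, hC⟩ := hq ε hε U hU hU0
    exact ⟨C, fun h hh => hC h (funext hh)⟩
  exact disc_ae (by norm_num) (by norm_num) (by norm_num)
    (fun s₀ hs₀ => mom20_q (momF_scale hq' hs₀ F20q_nonneg))
    (fun c₁ B hc hc1 hB => mom12_917 (by norm_num) (by norm_num) le_rfl
      (Pool.Agent.Helper86.LK.momF12 hc hc1 hB (hS c₁ B hc hc1 hB) (by norm_num)))

/-- the points of the lattice in the disc with centre `c` and radius `R` -/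
noncomputable def ldisc (ab : Fr) (c : ℝ × ℝ) (R : ℝ) : ℝ :=
  (Nat.card {k : ℤ × ℤ // ((k.1 : ℝ) * ab.1.1 + (k.2 : ℝ) * ab.2.1 - c.1) ^ 2 +
    ((k.1 : ℝ) * ab.1.2 + (k.2 : ℝ) * ab.2.2 - c.2) ^ 2 ≤ R ^ 2} : ℝ)

private theorem disc_iff75 (x y r : ℝ) (hr : 0 ≤ r) :
    (∀ θ : ℝ, x * cos θ + y * sin θ ≤ r) ↔ x ^ 2 + y ^ 2 ≤ r ^ 2 := by
  constructor
  · intro h
    obtain ⟨z, hz⟩ : ∃ z : ℂ, z = ⟨x, y⟩ := ⟨_, rfl⟩
    have h1 := h z.arg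
    have h2 : ‖z‖ * cos z.arg = x := by rw [Complex.norm_mul_cos_arg, hz]
    have h3 : ‖z‖ * sin z.arg = y := by rw [Complex.norm_mul_sin_arg, hz]
    have h4 : x ^ 2 + y ^ 2 = ‖z‖ ^ 2 := by
      rw [Complex.sq_norm, Complex.normSq_apply, hz]
      ring
    have h5 : x * cos z.arg + y * sin z.arg = ‖z‖ := by
      rw [← h2, ← h3]
      have h6 : cos z.arg ^ 2 + sin z.arg ^ 2 = 1 := by rw [add_comm]; exact sin_sq_add_cos_sq _
      calc ‖z‖ * cos z.arg * cos z.arg + ‖z‖ * sin z.arg * sin z.arg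
          = ‖z‖ * (cos z.arg ^ 2 + sin z.arg ^ 2) := by ring
        _ = ‖z‖ := by rw [h6, mul_one]
    rw [h5] at h1
    rw [h4]
    exact pow_le_pow_left₀ (norm_nonneg _) h1 2
  · intro h θ
    have h2 := sin_sq_add_cos_sq θ
    have h3 : (x * cos θ + y * sin θ) ^ 2 + (x * sin θ - y * cos θ) ^ 2 = x ^ 2 + y ^ 2 := by
      linear_combination (x ^ 2 + y ^ 2) * h2
    exact abs_le_of_sq_le_sq' (by linarith [sq_nonneg (x * sin θ - y * cos θ)]) hr |>.2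

theorem ldisc_eq {R : ℝ} (hR : 0 ≤ R) (ab : Fr) (c : ℝ × ℝ) : ldisc ab c R = lcnt ab (fun _ => 1) c R := by
  unfold ldisc lcnt
  congr 1
  refine Nat.card_congr (Equiv.subtypeEquivRight fun k => ?_)
  simp only [mul_one]
  exact (disc_iff75 _ _ _ hR).symm

/-- the disc, almost every lattice, every centre: exponent 9/17 from the moment theorems -/
theorem ldisc_main (hS : ∀ c₁ B : ℝ, 0 < c₁ → c₁ ≤ 1 → 1 ≤ B → Pool.Agent.Helper86.LK.MomS c₁ B)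
    (hq : MomF J20 (fun X N => X * (N ^ 20 + N ^ 34 * (X * N) ^ (-(7 / 4) : ℝ))) (fun h => h = fun v => √(v.1 ^ 2 + v.2 ^ 2)) 0 (1 / 3)) :
    ∀ᵐ ab : Fr, fdet ab ≠ 0 ∧ ∀ ε : ℝ, 0 < ε → ∃ C : ℝ, ∀ R : ℝ, 1 ≤ R → ∀ c : ℝ × ℝ,
      |ldisc ab c R - π * R ^ 2 / abs (fdet ab)| ≤ C * R ^ (9 / 17 + ε) := by
  filter_upwards [disc_main hS hq] with ab h
  refine ⟨h.1, fun ε hε => ?_⟩
  obtain ⟨C, hC⟩ := h.2 ε hε
  refine ⟨C, fun R hR c => ?_⟩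
  rw [ldisc_eq (by linarith)]
  exact hC R hR c

end Pool.Agent.Helper75.TW
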