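import Pool.Agent.Helper75.TW.EllAff
import Pool.Agent.Helper3.AC.Main

/-!
# TW-AffLast: ovals with positive affine curvature, almost every lattice, every centre: exponent 9/17
-/

open MeasureTheory Real Set Filter Topology

set_option autoImplicit false

namespace Pool.Agent.Helper75.TW

open Pool.Agent.Helper22.AE
open Pool.Agent.Helper92.LA (lcnt)
open Pool.Agent.Helper22.LP (Fr fdet)

/-- ovals with positive affine curvature: exponent 9/17 -/
theorem aff_last {H : ℝ → ℝ} (h6 : ContDiff ℝ 6 H) (hp : Function.Periodic H (2 * π)) (hr : ∀ t, 0 < H t + deriv (deriv H) t)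
    (ha : ∀ t, 0 < 9 * rho H t ^ 2 + 4 * deriv (rho H) t ^ 2 - 3 * rho H t * deriv (deriv (rho H)) t) :
    ∀ᵐ ab : Fr, fdet ab ≠ 0 ∧ ∀ ε : ℝ, 0 < ε → ∃ C : ℝ, ∀ R : ℝ, 1 ≤ R → ∀ c : ℝ × ℝ,
      |lcnt ab H c R - area H * R ^ 2 / abs (fdet ab)| ≤ C * R ^ (9 / 17 + ε) :=
  aff_main h6 hp hr ha fun _ _ hc hB => Pool.Agent.Helper3.AC.mom_cpt20 hc hB

end Pool.Agent.Helper75.TW
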