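import Pool.Agent.Helper75.TW.Gen
import Pool.Agent.Helper75.TW.AffLast
import Pool.Agent.Helper78.AG.Fam
import Pool.Agent.Helper3.AG.Last

/-!
# TW-GenLast: ovals whose affine curvature has no double zero, almost every lattice, every centre: exponent 9/17
-/

open MeasureTheory Real Set Filter Topology

set_option autoImplicit false

namespace Pool.Agent.Helper75.TW

open Pool.Agent.Helper22.AE
open Pool.Agent.Helper92.LA (lcnt)
open Pool.Agent.Helper22.LP (Fr fdet)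

/-- ovals whose affine curvature has no double zero: exponent 9/17 -/
theorem gen_last {H : ℝ → ℝ} (h7 : ContDiff ℝ 7 H) (hp : Function.Periodic H (2 * π)) (hr : ∀ t, 0 < H t + deriv (deriv H) t)
    (ha : ∀ t, afn H t ≠ 0 ∨ deriv (afn H) t ≠ 0) :
    ∀ᵐ ab : Fr, fdet ab ≠ 0 ∧ ∀ ε : ℝ, 0 < ε → ∃ C : ℝ, ∀ R : ℝ, 1 ≤ R → ∀ c : ℝ × ℝ,
      |lcnt ab H c R - area H * R ^ 2 / abs (fdet ab)| ≤ C * R ^ (9 / 17 + ε) :=
  gen_main h7 hp hr ha (fun _ hH h7 ha => Pool.Agent.Helper92.AG.fam_gen hH h7 ha) fun _ _ hc hB => Pool.Agent.Helper92.AG.mom_cptG hc hB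

end Pool.Agent.Helper75.TW
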