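import Pool.Agent.Helper75.TW.R3
import Pool.Agent.Helper92.LA.A2

/-!
# TW-A1 (as `Helper92.LA.A1`): multipliers on a sector, general linear forms `u = x₁ k₁ + y₁ k₂`, `v = x₂ k₁ + y₂ k₂`
-/

open MeasureTheory Real Set Filter Topology

set_option autoImplicit false

namespace Pool.Agent.Helper75.TW

open Pool.Agent.Helper22.AE
open Pool.Agent.Helper92.GC
open Pool.Agent.Helper92.LA (lf Fb HL WL)

private lemma mul_pow92 {S : Finset (ℤ × ℤ)} {w : ℤ × ℤ → ℂ} {C : ℝ} (h : IsMul20 S w C) (j : ℕ) :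
    IsMul20 S (fun k => w k ^ j) (C ^ j) := by
  induction j with
  | zero =>
    have h1 := mul20_const S 1
    rw [norm_one] at h1
    simpa using h1
  | succ j ih =>
    have h1 := mul20_comp ih h
    simpa only [pow_succ] using h1

private lemma mul_psum92 {S : Finset (ℤ × ℤ)} {w : ℤ × ℤ → ℂ} {C : ℝ} (h : IsMul20 S w C) (n : ℕ) :
    IsMul20 S (fun k => ∑ j ∈ Finset.range n, w k ^ j / (j.factorial : ℂ))
      (∑ j ∈ Finset.range n, C ^ j / (j.factorial : ℝ)) := by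
  induction n with
  | zero =>
    have h1 := mul20_const S 0
    rw [norm_zero] at h1
    simpa using h1
  | succ n ih =>
    have h1 := mul20_comp (mul_pow92 h n) (mul20_const S (1 / (n.factorial : ℂ)))
    have h2 : ‖(1 / (n.factorial : ℂ))‖ = 1 / (n.factorial : ℝ) := by
      rw [norm_div, norm_one, Complex.norm_natCast]
    rw [h2] at h1
    have h3 := mul20_add ih h1
    simp only [Finset.sum_range_succ]
    simp only [mul_one_div] at h3
    exact h3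

open Classical in
theorem cut_u (S : Finset (ℤ × ℤ)) (x y z : ℝ) : IsMul20 S (fun k => if z ≤ lf x y k then 1 else 0) 50 :=
  mul20_half S x y z

open Classical in
theorem cut_t {S : Finset (ℤ × ℤ)} {x₁ y₁ x₂ y₂ : ℝ} (hS : ∀ k ∈ S, 0 < lf x₁ y₁ k) (z : ℝ) :
    IsMul20 S (fun k => if z ≤ lf x₂ y₂ k / lf x₁ y₁ k then 1 else 0) 50 := by
  refine mul20_congr (fun k hk => ?_) (mul20_half S (x₂ - z * x₁) (y₂ - z * y₁) 0)
  have h1 : 0 ≤ (x₂ - z * x₁) * (k.1 : ℝ) + (y₂ - z * y₁) * (k.2 : ℝ) ↔ z ≤ lf x₂ y₂ k / lf x₁ y₁ k := by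
    rw [le_div_iff₀ (hS k hk)]
    unfold lf
    constructor
    · intro h
      linarith
    · intro h
      linarith
  by_cases h2 : z ≤ lf x₂ y₂ k / lf x₁ y₁ k
  · rw [if_pos h2, if_pos (h1.2 h2)]
  · rw [if_neg h2, if_neg (fun h3 => h2 (h1.1 h3))]

/-- a bounded Lipschitz function of the slope is a multiplier -/
theorem mul_slope {S : Finset (ℤ × ℤ)} {x₁ y₁ x₂ y₂ : ℝ} (hS : ∀ k ∈ S, 0 < lf x₁ y₁ k ∧ |lf x₂ y₂ k / lf x₁ y₁ k| ≤ 1)
    {m : ℝ → ℂ} {B : ℝ} (hB : ‖m (-1)‖ ≤ B) (hL : ∀ x ∈ Icc (-1 : ℝ) 1, ∀ y ∈ Icc (-1 : ℝ) 1, ‖m x - m y‖ ≤ B * |x - y|) :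
    IsMul20 S (fun k => m (lf x₂ y₂ k / lf x₁ y₁ k)) (101 * B) := by
  refine mul20_weaken (mul20_lip (S := S) (φ := fun k => lf x₂ y₂ k / lf x₁ y₁ k) (A := 50)
    (fun z => cut_t (fun k hk => (hS k hk).1) z) (m := m) (x₁ := -1) (x₂ := 1) (L := B) (B := B) (by norm_num)
    (fun k hk => abs_le.1 (hS k hk).2) hB hL) ?_
  linarith

/-- `N / u` is a multiplier -/
theorem mul_inv_u {S : Finset (ℤ × ℤ)} {x₁ y₁ N κ : ℝ} (hN : 0 < N) (hκ : 1 ≤ κ) (hS : ∀ k ∈ S, N ≤ κ * lf x₁ y₁ k ∧ lf x₁ y₁ k ≤ κ * N) :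
    IsMul20 S (fun k => ((N / lf x₁ y₁ k : ℝ) : ℂ)) (51 * κ ^ 3) := by
  have hκ0 : 0 < κ := by linarith
  have h12 : N / κ ≤ κ * N := by
    rw [div_le_iff₀ hκ0]
    have h1 : 1 ≤ κ * κ := by nlinarith
    have h2 := mul_le_mul_of_nonneg_left h1 hN.le
    linarith
  have h0 : 0 < N / κ := div_pos hN hκ0
  refine mul20_weaken (mul20_lip (S := S) (φ := lf x₁ y₁) (A := 50) (fun z => cut_u S x₁ y₁ z)
    (m := fun x => ((N / x : ℝ) : ℂ)) (x₁ := N / κ) (x₂ := κ * N) (L := κ ^ 2 / N) (B := κ) h12 (fun k hk => ?_) ?_ ?_) ?_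
  · obtain ⟨h1, h2⟩ := hS k hk
    refine ⟨?_, h2⟩
    rw [div_le_iff₀ hκ0, mul_comm]
    exact h1
  · rw [Complex.norm_real, norm_eq_abs, abs_of_pos (by positivity)]
    apply le_of_eq
    field_simp
  · intro x hx y hy
    have hx0 : 0 < x := lt_of_lt_of_le h0 hx.1
    have hy0 : 0 < y := lt_of_lt_of_le h0 hy.1
    rw [← Complex.ofReal_sub, Complex.norm_real, norm_eq_abs]
    have e : N / x - N / y = N / (x * y) * (y - x) := by
      field_simp
    rw [e, abs_mul, abs_of_pos (by positivity), abs_sub_comm y x]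
    refine mul_le_mul_of_nonneg_right ?_ (abs_nonneg _)
    rw [div_le_div_iff₀ (by positivity) hN]
    have h1 : N ≤ κ * x := by
      have := hx.1
      rw [div_le_iff₀ hκ0] at this
      linarith
    have h2 : N ≤ κ * y := by
      have := hy.1
      rw [div_le_iff₀ hκ0] at this
      linarith
    calc N * N ≤ (κ * x) * (κ * y) := mul_le_mul h1 h2 hN.le (by positivity)
      _ = κ ^ 2 * (x * y) := by ring
  · have h1 : κ ^ 2 / N * (κ * N - N / κ) ≤ κ ^ 3 := by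
      have e : κ ^ 2 / N * (κ * N - N / κ) = κ ^ 3 - κ := by
        field_simp
      rw [e]
      linarith
    have h2 : κ ≤ κ ^ 3 := by nlinarith [mul_nonneg hκ0.le hκ0.le]
    linarith

theorem mul_exp {S : Finset (ℤ × ℤ)} {x₁ y₁ x₂ y₂ U : ℝ} (hU : 0 < U) {B : ℝ}
    (hS : ∀ k ∈ S, 0 < lf x₁ y₁ k ∧ lf x₁ y₁ k ≤ U ∧ |lf x₂ y₂ k / lf x₁ y₁ k| ≤ 1) {χ : ℝ → ℝ}
    (hχ : |χ (-1)| ≤ B / U)
    (hL : ∀ x ∈ Icc (-1 : ℝ) 1, ∀ y ∈ Icc (-1 : ℝ) 1, |χ x - χ y| ≤ B / U * |x - y|) :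
    IsMul20 S (fun k => ee (lf x₁ y₁ k * χ (lf x₂ y₂ k / lf x₁ y₁ k))) (exp (32000 * B)) := by
  have hB : 0 ≤ B := by
    have h1 := (abs_nonneg _).trans hχ
    have h2 := mul_nonneg h1 hU.le
    rwa [div_mul_cancel₀ _ hU.ne'] at h2
  -- the first factor
  have hb1 : IsMul20 S (fun k => ((lf x₁ y₁ k / U : ℝ) : ℂ)) 50 := by
    have h1 := mul20_lip (S := S) (φ := lf x₁ y₁) (A := 50) (fun z => cut_u S x₁ y₁ z) (m := fun x => ((x / U : ℝ) : ℂ)) (x₁ := 0) (x₂ := U)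
      (L := 1 / U) (B := 0) hU.le (fun k hk => ⟨(hS k hk).1.le, (hS k hk).2.1⟩) (by simp) (by
        intro x _ y _
        rw [← Complex.ofReal_sub, Complex.norm_real, norm_eq_abs, ← sub_div, abs_div, abs_of_pos hU]
        apply le_of_eq
        ring)
    refine mul20_weaken h1 ?_
    rw [sub_zero, one_div, inv_mul_cancel₀ hU.ne']
    norm_num
  -- the second factor
  have hb2 : IsMul20 S (fun k => ((U * χ (lf x₂ y₂ k / lf x₁ y₁ k) : ℝ) : ℂ)) (101 * B) := by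
    refine mul_slope (m := fun x => ((U * χ x : ℝ) : ℂ)) (fun k hk => ⟨(hS k hk).1, (hS k hk).2.2⟩) ?_ ?_
    · rw [Complex.norm_real, norm_eq_abs, abs_mul, abs_of_pos hU]
      have h2 := mul_le_mul_of_nonneg_left hχ hU.le
      rwa [mul_div_cancel₀ _ hU.ne'] at h2
    · intro x hx y hy
      rw [← Complex.ofReal_sub, Complex.norm_real, norm_eq_abs, ← mul_sub, abs_mul, abs_of_pos hU]
      have h5 := mul_le_mul_of_nonneg_left (hL x hx y hy) hU.le
      have h6 : U * (B / U * |x - y|) = B * |x - y| := by field_simp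
      linarith
  -- the exponent
  have hw : IsMul20 S (fun k => (2 * π * Complex.I) * ((lf x₁ y₁ k / U : ℝ) * (U * χ (lf x₂ y₂ k / lf x₁ y₁ k) : ℝ))) (32000 * B) := by
    have h1 := mul20_comp (mul20_const S (2 * π * Complex.I)) (mul20_comp hb1 hb2)
    refine mul20_weaken h1 ?_
    have h2 : ‖(2 * π * Complex.I : ℂ)‖ = 2 * π := by
      rw [norm_mul, norm_mul, Complex.norm_I, Complex.norm_real, norm_eq_abs, abs_of_pos pi_pos]
      norm_num
    rw [h2]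
    have h3 := pi_lt_d4
    nlinarith
  refine mul20_lim (fun n => mul20_weaken (mul_psum92 hw n) (Real.sum_le_exp_of_nonneg (by positivity) n)) ?_
  intro k hk
  have h1 := (NormedSpace.expSeries_div_hasSum_exp ((2 * π * Complex.I) * (((lf x₁ y₁ k / U : ℝ) : ℂ) *
    ((U * χ (lf x₂ y₂ k / lf x₁ y₁ k) : ℝ) : ℂ)))).tendsto_sum_nat
  rw [← Complex.exp_eq_exp_ℂ] at h1
  have h2 : ee (lf x₁ y₁ k * χ (lf x₂ y₂ k / lf x₁ y₁ k)) = Complex.exp ((2 * π * Complex.I) * (((lf x₁ y₁ k / U : ℝ) : ℂ) *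
      ((U * χ (lf x₂ y₂ k / lf x₁ y₁ k) : ℝ) : ℂ))) := by
    unfold ee
    congr 1
    have h3 : ((U : ℝ) : ℂ) ≠ 0 := by exact_mod_cast hU.ne'
    push_cast
    field_simp
  rw [h2]
  exact h1

open Classical in
/-- restriction to a part -/
theorem mul_filt {S : Finset (ℤ × ℤ)} {p : ℤ × ℤ → Prop} {b : ℤ × ℤ → ℂ} {C D : ℝ} (hb : IsMul20 (S.filter p) b C)
    (hp : IsMul20 S (fun k => if p k then 1 else 0) D) : IsMul20 S (fun k => (if p k then 1 else 0) * b k) (C * D) := by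
  refine ⟨mul_nonneg hb.1 hp.1, fun a => ?_⟩
  have h1 : m20 S (fun k => (if p k then 1 else 0) * b k * a k) = m20 (S.filter p) (fun k => b k * a k) := by
    rw [m20_filter]
    exact m20_congr fun k _ => mul_assoc _ _ _
  rw [h1]
  calc m20 (S.filter p) (fun k => b k * a k) ≤ C ^ 20 * m20 (S.filter p) a := hb.2 a
    _ ≤ C ^ 20 * (D ^ 20 * m20 S a) := by
        refine mul_le_mul_of_nonneg_left ?_ (pow_nonneg hb.1 20)
        rw [m20_filter]
        exact hp.2 a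
    _ = (C * D) ^ 20 * m20 S a := by ring

end Pool.Agent.Helper75.TW
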