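import Pool.Agent.Helper75.TW.A1

/-!
# TW-A2 (as `Helper92.LA.A2`): the weights and a small change of `r` are multipliers on `sqa N`
-/

open MeasureTheory Real Set Filter Topology

set_option autoImplicit false

namespace Pool.Agent.Helper75.TW

open Pool.Agent.Helper22.AE
open Pool.Agent.Helper92.GC
open Pool.Agent.Helper92.LA (lf Fb HL WL Sec sec0 sec1 sec2 sec3 fr_bd InS)
open Pool.Agent.Helper22.LP (Fr fv fk fdet nr tr hom LS nr_eq)

private lemma sqrt_lip92 (x y : ℝ) : |sqrt (1 + x ^ 2) - sqrt (1 + y ^ 2)| ≤ |x - y| := by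
  have hx : 0 < sqrt (1 + x ^ 2) := sqrt_pos.2 (by positivity)
  have hy : 0 < sqrt (1 + y ^ 2) := sqrt_pos.2 (by positivity)
  have hx2 : sqrt (1 + x ^ 2) ^ 2 = 1 + x ^ 2 := sq_sqrt (by positivity)
  have hy2 : sqrt (1 + y ^ 2) ^ 2 = 1 + y ^ 2 := sq_sqrt (by positivity)
  have hx3 : |x| ≤ sqrt (1 + x ^ 2) := by
    apply le_sqrt_of_sq_le
    rw [sq_abs]
    linarith
  have hy3 : |y| ≤ sqrt (1 + y ^ 2) := by
    apply le_sqrt_of_sq_le
    rw [sq_abs]
    linarith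
  have h1 : (sqrt (1 + x ^ 2) - sqrt (1 + y ^ 2)) * (sqrt (1 + x ^ 2) + sqrt (1 + y ^ 2)) = (x - y) * (x + y) := by
    linear_combination hx2 - hy2
  have h2 : |sqrt (1 + x ^ 2) - sqrt (1 + y ^ 2)| * (sqrt (1 + x ^ 2) + sqrt (1 + y ^ 2)) = |x - y| * |x + y| := by
    rw [← abs_mul, ← h1, abs_mul, abs_of_pos (add_pos hx hy)]
  have h3 : |x + y| ≤ sqrt (1 + x ^ 2) + sqrt (1 + y ^ 2) := (abs_add_le _ _).trans (add_le_add hx3 hy3)
  have h4 : |x - y| * |x + y| ≤ |x - y| * (sqrt (1 + x ^ 2) + sqrt (1 + y ^ 2)) := mul_le_mul_of_nonneg_left h3 (abs_nonneg _)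
  rw [← h2] at h4
  exact le_of_mul_le_mul_right h4 (add_pos hx hy)

private lemma inv_sqrt_lip92 (x y : ℝ) : |1 / sqrt (1 + x ^ 2) - 1 / sqrt (1 + y ^ 2)| ≤ |x - y| := by
  have hx1 : 1 ≤ sqrt (1 + x ^ 2) := by
    apply le_sqrt_of_sq_le
    nlinarith [sq_nonneg x]
  have hy1 : 1 ≤ sqrt (1 + y ^ 2) := by
    apply le_sqrt_of_sq_le
    nlinarith [sq_nonneg y]
  have hx : 0 < sqrt (1 + x ^ 2) := by linarith
  have hy : 0 < sqrt (1 + y ^ 2) := by linarith
  have e : 1 / sqrt (1 + x ^ 2) - 1 / sqrt (1 + y ^ 2) =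
      (sqrt (1 + y ^ 2) - sqrt (1 + x ^ 2)) / (sqrt (1 + x ^ 2) * sqrt (1 + y ^ 2)) := by
    field_simp
  rw [e, abs_div, abs_of_pos (mul_pos hx hy), div_le_iff₀ (mul_pos hx hy), abs_sub_comm]
  have h1 := sqrt_lip92 x y
  have h2 : 1 ≤ sqrt (1 + x ^ 2) * sqrt (1 + y ^ 2) := by nlinarith
  have h3 := mul_le_mul_of_nonneg_left h2 (abs_nonneg (x - y))
  linarith

private lemma mul_pow92' {S : Finset (ℤ × ℤ)} {w : ℤ × ℤ → ℂ} {C : ℝ} (h : IsMul20 S w C) (j : ℕ) :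
    IsMul20 S (fun k => w k ^ j) (C ^ j) := by
  induction j with
  | zero =>
    have h1 := mul20_const S 1
    rw [norm_one] at h1
    simpa using h1
  | succ j ih =>
    have h1 := mul20_comp ih h
    simpa only [pow_succ] using h1

/-- the multiplier on a sector -/
theorem sec_mul {f : Fr} {x₁ y₁ x₂ y₂ : ℝ} {E : ℝ → ℝ × ℝ} (hE : Sec f x₁ y₁ x₂ y₂ E) {S : Finset (ℤ × ℤ)} {N κ B : ℝ}
    (hN : 0 < N) (hκ : 1 ≤ κ) (hS : ∀ k ∈ S, N ≤ κ * lf x₁ y₁ k ∧ lf x₁ y₁ k ≤ κ * N ∧ |lf x₂ y₂ k / lf x₁ y₁ k| ≤ 1)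
    {h : ℝ × ℝ → ℝ} (hh : HL B h) {w : ℝ × ℝ → ℂ} (hw : WL B w) (i : ℕ) {s : ℝ} (hs : |s| ≤ 1 / N) :
    IsMul20 S (fun k => (((N / nr (fk f k) : ℝ) : ℂ) ^ i * w (fk f k)) * ee (s * h (fk f k)))
      ((51 * κ ^ 3 * 101) ^ i * (101 * B) * exp (32000 * (2 * B * κ))) := by
  have hκ0 : 0 < κ := by linarith
  have hu : ∀ k ∈ S, 0 < lf x₁ y₁ k := by
    intro k hk
    have h1 := (hS k hk).1
    by_contra hn
    push Not at hn
    have := mul_nonpos_of_nonneg_of_nonpos hκ0.le hn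
    linarith
  have h0 : h (0, 0) = 0 := by
    have h1 := hh.hom 2 (0, 0) (by norm_num)
    simp only [mul_zero] at h1
    linarith
  have habs1 : |(-1 : ℝ)| ≤ 1 := by norm_num
  -- the first factor
  have m1 : IsMul20 S (fun k => ((N / nr (fk f k) : ℝ) : ℂ) ^ i) ((51 * κ ^ 3 * 101) ^ i) := by
    refine mul_pow92' ?_ i
    have h1 := mul_inv_u (S := S) (x₁ := x₁) (y₁ := y₁) hN hκ (fun k hk => ⟨(hS k hk).1, (hS k hk).2.1⟩)
    have h2 := mul_slope (S := S) (x₁ := x₁) (y₁ := y₁) (x₂ := x₂) (y₂ := y₂) (m := fun t => ((1 / sqrt (1 + t ^ 2) : ℝ) : ℂ)) (B := 1)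
      (fun k hk => ⟨hu k hk, (hS k hk).2.2⟩) (by
        rw [Complex.norm_real, norm_eq_abs, abs_of_pos (by positivity), div_le_one (by positivity)]
        apply le_sqrt_of_sq_le
        norm_num) (by
        intro x _ y _
        rw [← Complex.ofReal_sub, Complex.norm_real, norm_eq_abs, one_mul]
        exact inv_sqrt_lip92 x y)
    rw [mul_one] at h2
    refine mul20_congr (fun k hk => ?_) (mul20_comp h1 h2)
    have h3 := hu k hk
    have h4 : nr (fk f k) = lf x₁ y₁ k * sqrt (1 + (lf x₂ y₂ k / lf x₁ y₁ k) ^ 2) := by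
      rw [nr_eq, hE.eq k h3]
      simp only
      rw [mul_pow, mul_pow, ← _root_.mul_add, hE.nrm, sqrt_mul (sq_nonneg _), sqrt_sq h3.le]
    rw [h4, ← Complex.ofReal_mul]
    congr 1
    have h5 : 0 < sqrt (1 + (lf x₂ y₂ k / lf x₁ y₁ k) ^ 2) := sqrt_pos.2 (by positivity)
    rw [div_mul_div_comm, mul_one]
  -- the second factor
  have m2 : IsMul20 S (fun k => w (fk f k)) (101 * B) := by
    refine mul20_congr (fun k hk => ?_) (mul_slope (S := S) (x₁ := x₁) (y₁ := y₁) (x₂ := x₂) (y₂ := y₂) (m := fun t => w (E t)) (B := B)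
      (fun k hk => ⟨hu k hk, (hS k hk).2.2⟩) (hw.bdd _) (by
        intro x hx y hy
        have hB : 0 ≤ B := (norm_nonneg _).trans (hw.bdd (0, 0))
        exact (hw.lip _ _ (hE.mx x (abs_le.2 hx)) (hE.mx y (abs_le.2 hy))).trans (mul_le_mul_of_nonneg_left (hE.lip x y) hB)))
    rw [hE.eq k (hu k hk)]
    exact (hw.hom _ _ (hu k hk)).symm
  -- the third factor
  have m3 : IsMul20 S (fun k => ee (s * h (fk f k))) (exp (32000 * (2 * B * κ))) := by
    have hB : 0 ≤ B := (norm_nonneg _).trans (hw.bdd (0, 0))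
    have hbN : 2 * B * κ / (κ * N) = 2 * B / N := by
      field_simp
    refine mul20_congr (fun k hk => ?_) (mul_exp (S := S) (x₁ := x₁) (y₁ := y₁) (x₂ := x₂) (y₂ := y₂) (U := κ * N) (B := 2 * B * κ)
      (by positivity) (fun k hk => ⟨hu k hk, (hS k hk).2.1, (hS k hk).2.2⟩) (χ := fun t => s * h (E t)) ?_ ?_)
    · rw [hE.eq k (hu k hk)]
      have h5 := hh.hom (lf x₁ y₁ k) (E (lf x₂ y₂ k / lf x₁ y₁ k)) (hu k hk)
      rw [h5]
      congr 1
      ring
    · rw [abs_mul, hbN]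
      have h1 := hh.lip (E (-1)) (0, 0) (hE.b1 _ habs1) (hE.b2 _ habs1) (by norm_num) (by norm_num)
      rw [h0, sub_zero] at h1
      simp only [sub_zero] at h1
      have h2 : |h (E (-1))| ≤ 2 * B := by
        have h3 := hE.b1 _ habs1
        have h4 := hE.b2 _ habs1
        have h5 : B * (|(E (-1)).1| + |(E (-1)).2|) ≤ B * 2 := mul_le_mul_of_nonneg_left (by linarith) hB
        linarith
      calc |s| * |h (E (-1))| ≤ 1 / N * (2 * B) := mul_le_mul hs h2 (abs_nonneg _) (by positivity)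
        _ = 2 * B / N := by ring
    · intro x hx y hy
      have hx' := abs_le.2 hx
      have hy' := abs_le.2 hy
      rw [← mul_sub, abs_mul, hbN]
      have h1 := hh.lip (E x) (E y) (hE.b1 _ hx') (hE.b2 _ hx') (hE.b1 _ hy') (hE.b2 _ hy')
      have h2 : |h (E x) - h (E y)| ≤ B * |x - y| := h1.trans (mul_le_mul_of_nonneg_left (hE.lip x y) hB)
      calc |s| * |h (E x) - h (E y)| ≤ 1 / N * (B * |x - y|) := mul_le_mul hs h2 (abs_nonneg _) (by positivity)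
        _ = B / N * |x - y| := by ring
        _ ≤ 2 * B / N * |x - y| := by
            refine mul_le_mul_of_nonneg_right ?_ (abs_nonneg _)
            exact div_le_div_of_nonneg_right (by linarith) hN.le
  exact mul20_comp (mul20_comp m1 m2) m3

open Classical in
/-- the cut to a sector -/
private theorem cut_sec92 (S : Finset (ℤ × ℤ)) (x₁ y₁ x₂ y₂ : ℝ) :
    IsMul20 S (fun k => if InS x₁ y₁ x₂ y₂ k then 1 else 0) 2500 := by
  have h1 := mul20_comp (mul20_half S (x₁ + x₂) (y₁ + y₂) 0) (mul20_half_lt S (x₁ - x₂) (y₁ - y₂) 0)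
  refine mul20_congr (fun k _ => ?_) (mul20_weaken h1 (by norm_num))
  have e1 : (0 ≤ (x₁ + x₂) * (k.1 : ℝ) + (y₁ + y₂) * (k.2 : ℝ)) ↔ -lf x₁ y₁ k ≤ lf x₂ y₂ k := by
    unfold lf
    constructor <;> intro h <;> linarith
  have e2 : (0 < (x₁ - x₂) * (k.1 : ℝ) + (y₁ - y₂) * (k.2 : ℝ)) ↔ lf x₂ y₂ k < lf x₁ y₁ k := by
    unfold lf
    constructor <;> intro h <;> linarith
  by_cases h3 : -lf x₁ y₁ k ≤ lf x₂ y₂ k
  · by_cases h4 : lf x₂ y₂ k < lf x₁ y₁ k
    · have h5 : InS x₁ y₁ x₂ y₂ k := ⟨h3, h4⟩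
      rw [if_pos (e1.2 h3), if_pos (e2.2 h4), if_pos h5, one_mul]
    · have h5 : ¬InS x₁ y₁ x₂ y₂ k := fun h => h4 h.2
      have h6 := fun h => h4 (e2.1 h)
      rw [if_neg h6, if_neg h5, mul_zero]
  · have h5 : ¬InS x₁ y₁ x₂ y₂ k := fun h => h3 h.1
    have h6 := fun h => h3 (e1.1 h)
    rw [if_neg h6, if_neg h5, zero_mul]

open Classical in
private theorem part92 {f : Fr} {x₁ y₁ x₂ y₂ : ℝ} {E : ℝ → ℝ × ℝ} (hE : Sec f x₁ y₁ x₂ y₂ E) {N : ℕ} {M B : ℝ}
    (hN : 1 ≤ N) (hM : 1 ≤ M)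
    (hS : ∀ k ∈ sqa N, (N : ℝ) ≤ 2 * M ^ 2 * max |lf x₁ y₁ k| |lf x₂ y₂ k| ∧ |lf x₁ y₁ k| ≤ 4 * M * N)
    {h : ℝ × ℝ → ℝ} (hh : HL B h) {w : ℝ × ℝ → ℂ} (hw : WL B w) (i : ℕ) {s : ℝ} (hs : |s| ≤ 1 / N) :
    IsMul20 (sqa N) (fun k => (if InS x₁ y₁ x₂ y₂ k then 1 else 0) *
      ((((N : ℝ) / nr (fk f k) : ℝ) : ℂ) ^ i * w (fk f k) * ee (s * h (fk f k))))
      ((51 * (4 * M ^ 2) ^ 3 * 101) ^ i * (101 * B) * exp (32000 * (2 * B * (4 * M ^ 2))) * 2500) := by
  have hNr : (0 : ℝ) < N := by exact_mod_cast (by omega : 0 < N)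
  have hM2 : 1 ≤ 4 * M ^ 2 := by nlinarith
  refine mul_filt (sec_mul hE hNr hM2 ?_ hh hw i hs) (cut_sec92 _ _ _ _ _)
  intro k hk
  obtain ⟨hk1, hk2, hk3⟩ := Finset.mem_filter.1 hk
  obtain ⟨h1, h2⟩ := hS k hk1
  have hu : 0 < lf x₁ y₁ k := by linarith
  have hv : |lf x₂ y₂ k| ≤ lf x₁ y₁ k := abs_le.2 ⟨by linarith, hk3.le⟩
  rw [abs_of_pos hu] at h1 h2
  rw [max_eq_left hv] at h1
  refine ⟨?_, ?_, ?_⟩
  · have : 0 ≤ M ^ 2 * lf x₁ y₁ k := by positivity
    nlinarith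
  · refine h2.trans ?_
    have h3 : 4 * M ≤ 4 * M ^ 2 := by nlinarith
    exact mul_le_mul_of_nonneg_right h3 hNr.le
  · rw [abs_div, abs_of_pos hu, div_le_one hu]
    exact hv

/-- the multiplier of a weight and of a change of `r` -/
theorem ls_mul {M B : ℝ} (hM : 1 ≤ M) : ∃ C : ℝ, 0 < C ∧ ∀ f : Fr, Fb M f → ∀ h : ℝ × ℝ → ℝ, HL B h → ∀ w : ℝ × ℝ → ℂ, WL B w →
    ∀ i : ℕ, i ≤ 2 → ∀ N : ℕ, 1 ≤ N → ∀ s : ℝ, |s| ≤ 1 / N →
      IsMul20 (sqa N) (fun k => (((N : ℝ) / nr (fk f k) : ℝ) : ℂ) ^ i * w (fk f k) * ee (s * h (fk f k))) C := by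
  classical
  obtain ⟨A, hA⟩ : ∃ A : ℝ, A = 51 * (4 * M ^ 2) ^ 3 * 101 := ⟨_, rfl⟩
  have hA1 : 1 ≤ A := by
    rw [hA]
    have h1 : 1 ≤ (4 * M ^ 2) ^ 3 := one_le_pow₀ (by nlinarith)
    linarith
  refine ⟨4 * (A ^ 2 * (101 * |B|) * exp (32000 * (2 * B * (4 * M ^ 2))) * 2500) + 1, by positivity, ?_⟩
  intro f hf h hh w hw i hi N hN s hs
  have hB : 0 ≤ B := (norm_nonneg _).trans (hw.bdd (0, 0))
  have hNr : (0 : ℝ) < N := by exact_mod_cast (by omega : 0 < N)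
  obtain ⟨⟨a, b⟩, c, d⟩ := f
  have hbd : ∀ k ∈ sqa N, _ := fun k hk => fr_bd hM hf hk
  have hneg : ∀ (x y : ℝ) (k : ℤ × ℤ), lf (-x) (-y) k = -lf x y k := by
    intro x y k
    unfold lf
    ring
  have p0 := part92 (sec0 a b c d) hN hM (fun k hk => ⟨(hbd k hk).1, (hbd k hk).2.1⟩) hh hw i hs
  have p1 := part92 (sec1 a b c d) hN hM (fun k hk => by
    rw [hneg, abs_neg, max_comm]
    exact ⟨(hbd k hk).1, (hbd k hk).2.2⟩) hh hw i hs
  have p2 := part92 (sec2 a b c d) hN hM (fun k hk => by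
    rw [hneg, hneg, abs_neg, abs_neg]
    exact ⟨(hbd k hk).1, (hbd k hk).2.1⟩) hh hw i hs
  have p3 := part92 (sec3 a b c d) hN hM (fun k hk => by
    rw [hneg, abs_neg, max_comm]
    exact ⟨(hbd k hk).1, (hbd k hk).2.2⟩) hh hw i hs
  refine mul20_congr (fun k hk => ?_) (mul20_weaken (mul20_add (mul20_add p0 p1) (mul20_add p2 p3)) ?_)
  · rw [← _root_.add_mul, ← _root_.add_mul, ← _root_.add_mul]
    obtain ⟨h1, -, -⟩ := hbd k hk
    set x := lf a c k with hx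
    set y := lf b d k with hy
    have hne : ¬(x = 0 ∧ y = 0) := by
      rintro ⟨h2, h3⟩
      rw [h2, h3, abs_zero, max_self, mul_zero] at h1
      linarith
    have j0 : InS a c b d k ↔ (-x ≤ y ∧ y < x) := Iff.rfl
    have j1 : InS b d (-a) (-c) k ↔ (-y ≤ -x ∧ -x < y) := by
      unfold InS
      rw [hneg]
    have j2 : InS (-a) (-c) (-b) (-d) k ↔ (- -x ≤ -y ∧ -y < -x) := by
      unfold InS
      rw [hneg, hneg]
    have j3 : InS (-b) (-d) a c k ↔ (- -y ≤ x ∧ x < -y) := by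
      unfold InS
      rw [hneg]
    have hsum : (((if InS a c b d k then (1 : ℂ) else 0) + (if InS b d (-a) (-c) k then 1 else 0)) +
        ((if InS (-a) (-c) (-b) (-d) k then 1 else 0) + (if InS (-b) (-d) a c k then 1 else 0))) = 1 := by
      rcases lt_trichotomy (x + y) 0 with hs | hs | hs <;> rcases lt_trichotomy (x - y) 0 with ht | ht | ht
      · have i0 : ¬InS a c b d k := fun h => by linarith [(j0.1 h).1, (j0.1 h).2]
        have i1 : ¬InS b d (-a) (-c) k := fun h => by linarith [(j1.1 h).1, (j1.1 h).2]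
        have i2 : InS (-a) (-c) (-b) (-d) k := j2.2 ⟨by linarith, by linarith⟩
        have i3 : ¬InS (-b) (-d) a c k := fun h => by linarith [(j3.1 h).1, (j3.1 h).2]
        rw [if_neg i0, if_neg i1, if_pos i2, if_neg i3]
        norm_num
      · have i0 : ¬InS a c b d k := fun h => by linarith [(j0.1 h).1, (j0.1 h).2]
        have i1 : ¬InS b d (-a) (-c) k := fun h => by linarith [(j1.1 h).1, (j1.1 h).2]
        have i2 : ¬InS (-a) (-c) (-b) (-d) k := fun h => by linarith [(j2.1 h).1, (j2.1 h).2]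
        have i3 : InS (-b) (-d) a c k := j3.2 ⟨by linarith, by linarith⟩
        rw [if_neg i0, if_neg i1, if_neg i2, if_pos i3]
        norm_num
      · have i0 : ¬InS a c b d k := fun h => by linarith [(j0.1 h).1, (j0.1 h).2]
        have i1 : ¬InS b d (-a) (-c) k := fun h => by linarith [(j1.1 h).1, (j1.1 h).2]
        have i2 : ¬InS (-a) (-c) (-b) (-d) k := fun h => by linarith [(j2.1 h).1, (j2.1 h).2]
        have i3 : InS (-b) (-d) a c k := j3.2 ⟨by linarith, by linarith⟩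
        rw [if_neg i0, if_neg i1, if_neg i2, if_pos i3]
        norm_num
      · have i0 : ¬InS a c b d k := fun h => by linarith [(j0.1 h).1, (j0.1 h).2]
        have i1 : ¬InS b d (-a) (-c) k := fun h => by linarith [(j1.1 h).1, (j1.1 h).2]
        have i2 : InS (-a) (-c) (-b) (-d) k := j2.2 ⟨by linarith, by linarith⟩
        have i3 : ¬InS (-b) (-d) a c k := fun h => by linarith [(j3.1 h).1, (j3.1 h).2]
        rw [if_neg i0, if_neg i1, if_pos i2, if_neg i3]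
        norm_num
      · exact absurd ⟨by linarith, by linarith⟩ hne
      · have i0 : InS a c b d k := j0.2 ⟨by linarith, by linarith⟩
        have i1 : ¬InS b d (-a) (-c) k := fun h => by linarith [(j1.1 h).1, (j1.1 h).2]
        have i2 : ¬InS (-a) (-c) (-b) (-d) k := fun h => by linarith [(j2.1 h).1, (j2.1 h).2]
        have i3 : ¬InS (-b) (-d) a c k := fun h => by linarith [(j3.1 h).1, (j3.1 h).2]
        rw [if_pos i0, if_neg i1, if_neg i2, if_neg i3]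
        norm_num
      · have i0 : ¬InS a c b d k := fun h => by linarith [(j0.1 h).1, (j0.1 h).2]
        have i1 : InS b d (-a) (-c) k := j1.2 ⟨by linarith, by linarith⟩
        have i2 : ¬InS (-a) (-c) (-b) (-d) k := fun h => by linarith [(j2.1 h).1, (j2.1 h).2]
        have i3 : ¬InS (-b) (-d) a c k := fun h => by linarith [(j3.1 h).1, (j3.1 h).2]
        rw [if_neg i0, if_pos i1, if_neg i2, if_neg i3]
        norm_num
      · have i0 : ¬InS a c b d k := fun h => by linarith [(j0.1 h).1, (j0.1 h).2]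
        have i1 : InS b d (-a) (-c) k := j1.2 ⟨by linarith, by linarith⟩
        have i2 : ¬InS (-a) (-c) (-b) (-d) k := fun h => by linarith [(j2.1 h).1, (j2.1 h).2]
        have i3 : ¬InS (-b) (-d) a c k := fun h => by linarith [(j3.1 h).1, (j3.1 h).2]
        rw [if_neg i0, if_pos i1, if_neg i2, if_neg i3]
        norm_num
      · have i0 : InS a c b d k := j0.2 ⟨by linarith, by linarith⟩
        have i1 : ¬InS b d (-a) (-c) k := fun h => by linarith [(j1.1 h).1, (j1.1 h).2]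
        have i2 : ¬InS (-a) (-c) (-b) (-d) k := fun h => by linarith [(j2.1 h).1, (j2.1 h).2]
        have i3 : ¬InS (-b) (-d) a c k := fun h => by linarith [(j3.1 h).1, (j3.1 h).2]
        rw [if_pos i0, if_neg i1, if_neg i2, if_neg i3]
        norm_num
    rw [hsum, one_mul]
  · rw [← hA, abs_of_nonneg hB]
    have h1 : A ^ i ≤ A ^ 2 := pow_le_pow_right₀ hA1 hi
    have h2 : A ^ i * (101 * B) * exp (32000 * (2 * B * (4 * M ^ 2))) * 2500 ≤
        A ^ 2 * (101 * B) * exp (32000 * (2 * B * (4 * M ^ 2))) * 2500 := by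
      have h3 : 0 ≤ 101 * B := by positivity
      have h4 := exp_pos (32000 * (2 * B * (4 * M ^ 2)))
      exact mul_le_mul_of_nonneg_right (mul_le_mul_of_nonneg_right (mul_le_mul_of_nonneg_right h1 h3) h4.le) (by norm_num)
    linarith

end Pool.Agent.Helper75.TW
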