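import Pool.Agent.Helper75.TW.Last
import Pool.Agent.Helper78.AC.Fam

/-!
# TW-Aff: ovals with nowhere vanishing affine curvature, almost every lattice: exponent 9/17 from the twentieth moment of project AC
-/

open MeasureTheory Real Set Filter Topology

set_option autoImplicit false

namespace Pool.Agent.Helper75.TW

open Pool.Agent.Helper22.AE
open Pool.Agent.Helper22.AC (ga cntc)
open Pool.Agent.Helper92.LA (JJ lcnt HL WL)
open Pool.Agent.Helper22.LP (Fr fdet hom wr)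
open Pool.Agent.Helper3.AC (HA fam_aff)

/-- positive affine curvature, in terms of the radius of curvature -/
def AffPos (H : ℝ → ℝ) : Prop :=
  ∀ t, 0 < 9 * rho H t ^ 2 + 4 * deriv (rho H) t ^ 2 - 3 * rho H t * deriv (deriv (rho H)) t

theorem aff_supp {H : ℝ → ℝ} (hH : IsSupp H) (h6 : ContDiff ℝ 6 H) (ha : AffPos H)
    (hq : ∀ c₁ B : ℝ, 0 < c₁ → 1 ≤ B → MomF J20 (fun X N => X * (N ^ 20 + N ^ 34 * (X * N) ^ (-(7 / 4) : ℝ))) (HA c₁ B) 0 (1 / 3)) :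
    ∀ᵐ ab : Fr, fdet ab ≠ 0 ∧ ∀ ε : ℝ, 0 < ε → ∃ C : ℝ, ∀ R : ℝ, 1 ≤ R → ∀ c : ℝ × ℝ,
      |lcnt ab H c R - area H * R ^ 2 / abs (fdet ab)| ≤ C * R ^ (9 / 17 + ε) := by
  obtain ⟨α₀, c₁, B, ha0, ha1, hc₁, hc₁1, hB, hjc, hfam⟩ := fam_aff hH h6 ha
  exact lattice_of_frame hH (frame_gen hH (by norm_num) (by norm_num) (by norm_num) ha0 ha1 hjc (fun α hα => (hfam α hα).2)
    (fun α hα => (hfam α hα).1) (fun α hα => (hfam α hα).1.hom) (mom20_q (hq c₁ B hc₁ hB))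
    (mom12_917 (by norm_num) (by norm_num) le_rfl (Pool.Agent.Helper86.LK.momF12 hc₁ hc₁1 hB (momS_all hc₁ hc₁1 hB) (by norm_num))))

theorem aff_main {H : ℝ → ℝ} (h6 : ContDiff ℝ 6 H) (hp : Function.Periodic H (2 * π)) (hr : ∀ t, 0 < H t + deriv (deriv H) t)
    (ha : AffPos H)
    (hq : ∀ c₁ B : ℝ, 0 < c₁ → 1 ≤ B → MomF J20 (fun X N => X * (N ^ 20 + N ^ 34 * (X * N) ^ (-(7 / 4) : ℝ))) (HA c₁ B) 0 (1 / 3)) :
    ∀ᵐ ab : Fr, fdet ab ≠ 0 ∧ ∀ ε : ℝ, 0 < ε → ∃ C : ℝ, ∀ R : ℝ, 1 ≤ R → ∀ c : ℝ × ℝ,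
      |lcnt ab H c R - area H * R ^ 2 / abs (fdet ab)| ≤ C * R ^ (9 / 17 + ε) := by
  have h2 : ContDiff ℝ 2 H := h6.of_le (by norm_num)
  obtain ⟨v, hv⟩ := Pool.Agent.Helper22.OV.exists_shift h2 hp hr
  have e : rho (Pool.Agent.Helper22.OV.shf H v) = rho H := by
    funext t
    exact Pool.Agent.Helper22.OV.shf_rho v h2 t
  have ha' : AffPos (Pool.Agent.Helper22.OV.shf H v) := by
    intro t
    rw [e]
    exact ha t
  filter_upwards [aff_supp hv (Pool.Agent.Helper22.OV.shf_smooth v h6) ha' hq] with ab h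
  refine ⟨h.1, fun ε hε => ?_⟩
  obtain ⟨C, hC⟩ := h.2 ε hε
  refine ⟨C, fun R hR c => ?_⟩
  have h1 := hC R hR (c.1 - R * v.1, c.2 - R * v.2)
  rw [Pool.Agent.Helper22.OV.area_shf] at h1
  have h2 : lcnt ab (Pool.Agent.Helper22.OV.shf H v) (c.1 - R * v.1, c.2 - R * v.2) R = lcnt ab H c R := by
    unfold lcnt
    congr 1
    refine Nat.card_congr (Equiv.subtypeEquivRight fun k => ?_)
    refine forall_congr' fun t => ?_
    unfold Pool.Agent.Helper22.OV.shf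
    simp only
    constructor
    · intro h
      linarith
    · intro h
      linarith
  rwa [h2] at h1

end Pool.Agent.Helper75.TW
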