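import Pool.Agent.Helper92.DT.R4

/-!
# Project TW (MP_fb29e9_nt): the twentieth moment. Definitions
-/

open MeasureTheory Real Set Filter Topology

set_option autoImplicit false

namespace Pool.Agent.Helper75.TW

open Pool.Agent.Helper22.AE
open Pool.Agent.Helper92.GC

/-- the twentieth moment of a trigonometric polynomial -/
noncomputable def m20 (S : Finset (ℤ × ℤ)) (a : ℤ × ℤ → ℂ) : ℝ := ∫ c in Tq, ‖tp S a c‖ ^ 20

/-- `b` is a multiplier of norm at most `C` for the `L²⁰` norm of polynomials with frequencies in `S` -/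
def IsMul20 (S : Finset (ℤ × ℤ)) (b : ℤ × ℤ → ℂ) (C : ℝ) : Prop :=
  0 ≤ C ∧ ∀ a : ℤ × ℤ → ℂ, m20 S (fun k => b k * a k) ≤ C ^ 20 * m20 S a

/-- the `n`-fold sumset -/
def SP (S : Finset (ℤ × ℤ)) : ℕ → Finset (ℤ × ℤ)
  | 0 => {0}
  | n + 1 => (SP S n ×ˢ S).image (fun k => k.1 + k.2)

open Classical in
/-- the Fourier coefficient of the `n`-th power -/
noncomputable def cf (S : Finset (ℤ × ℤ)) (a : ℤ × ℤ → ℂ) : ℕ → ℤ × ℤ → ℂ
  | 0 => fun _ => 1
  | n + 1 => fun l => ∑ k ∈ (SP S n ×ˢ S).filter (fun k => k.1 + k.2 = l), cf S a n k.1 * a k.2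

end Pool.Agent.Helper75.TW
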