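import Pool.Agent.Helper92.GC.D1
import Pool.Agent.Helper75.TW.Fin

/-!
# TW-Disc: the disc, almost every lattice, exponent 9/17 from the two moment theorems
-/

open MeasureTheory Real Set Filter Topology Pointwise

set_option autoImplicit false

namespace Pool.Agent.Helper75.TW

open Pool.Agent.Helper22.AE
open Pool.Agent.Helper22.AC (cntc ga)
open Pool.Agent.Helper92.GC (sqa)
open Pool.Agent.Helper92.LA (JJ HL WL fam dl fdet_dl lcnt lcnt_eq lcnt_swap ae_dual ae_swap ae_det)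
open Pool.Agent.Helper22.LP (Fr fdet Hf Hf_isSupp dom_lin area_lin fk fv nr hom nr_eq wr)

/-- the euclidean norm -/
def IsNm (h : ℝ × ℝ → ℝ) : Prop := ∀ v : ℝ × ℝ, h v = √(v.1 ^ 2 + v.2 ^ 2)

/-- multiples of the euclidean norm -/
def IsNms (s₀ : ℝ) (h : ℝ × ℝ → ℝ) : Prop := ∃ s : ℝ, s₀ ≤ s ∧ s ≤ 1 ∧ ∀ v : ℝ × ℝ, h v = s * √(v.1 ^ 2 + v.2 ^ 2)

theorem J20_smul {s : ℝ} (hs : 0 < s) {h h₁ : ℝ × ℝ → ℝ} (hh : ∀ v, h v = s * √(v.1 ^ 2 + v.2 ^ 2)) (hh₁ : IsNm h₁) (f : Fr) (X : ℝ) (N : ℕ) :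
    J20 f h X N = J20 (s • f) h₁ X N := by
  unfold J20
  refine integral_congr_ae (Eventually.of_forall fun r => ?_)
  simp only
  congr 1
  funext k
  congr 2
  rw [hh, hh₁]
  have e1 : (fk (s • f) k).1 = s * (fk f k).1 := by
    unfold fk fv
    simp only [Prod.smul_fst, Prod.smul_snd, smul_eq_mul]
    ring
  have e2 : (fk (s • f) k).2 = s * (fk f k).2 := by
    unfold fk fv
    simp only [Prod.smul_fst, Prod.smul_snd, smul_eq_mul]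
    ring
  rw [e1, e2, show (s * (fk f k).1) ^ 2 + (s * (fk f k).2) ^ 2 = s ^ 2 * ((fk f k).1 ^ 2 + (fk f k).2 ^ 2) by ring,
    Real.sqrt_mul (by positivity), Real.sqrt_sq hs.le]

theorem J20_cont_f {h : ℝ × ℝ → ℝ} (hc : Continuous h) (X : ℝ) (N : ℕ) : Continuous fun f : Fr => J20 f h X N := by
  have h1 : Continuous fun q : ℝ × (ℝ × ℝ) => (fun _ : ℝ => h) q.1 q.2 := hc.comp continuous_snd
  have h2 := J20_cont (h := fun _ => h) h1 X N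
  have h3 : Continuous fun f : Fr => ((f, 0) : Fr × ℝ) := by fun_prop
  have h4 := h2.comp h3
  exact h4

theorem set_scale {G : Fr → ℝ} (hG : Continuous G) (hG0 : ∀ f, 0 ≤ G f) {U U' : Set Fr} (hU' : IsCompact U') {s : ℝ} (hs : 0 < s)
    (hsub : s • U ⊆ U') : ∫ f in U, G (s • f) ≤ (s ^ 4)⁻¹ * ∫ f in U', G f := by
  have hfin : Module.finrank ℝ Fr = 4 := by
    simp [Fr, Module.finrank_prod]
  have hsmul : ∫ f in U, G (s • f) = (s ^ 4)⁻¹ • ∫ f in s • U, G f := by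
    have := MeasureTheory.Measure.setIntegral_comp_smul_of_pos (volume : Measure Fr) G U hs
    rw [hfin] at this
    exact this
  rw [hsmul, smul_eq_mul]
  refine mul_le_mul_of_nonneg_left ?_ (by positivity)
  have h1 : IntegrableOn G U' := hG.continuousOn.integrableOn_compact hU'
  exact setIntegral_mono_set h1 (Eventually.of_forall hG0) hsub.eventuallyLE

/-- the moments for multiples of the norm -/
theorem momF_scale {F : ℝ → ℝ → ℝ} {μ₁ μ₂ : ℝ} (hm : MomF J20 F IsNm μ₁ μ₂) {s₀ : ℝ} (hs₀ : 0 < s₀)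
    (hF : ∀ X N : ℝ, 1 ≤ X → 1 ≤ N → 0 ≤ F X N) : MomF J20 F (IsNms s₀) μ₁ μ₂ := by
  intro ε hε U hU hU0
  obtain ⟨U', hU'⟩ : ∃ U' : Set Fr, U' = (fun q : ℝ × Fr => q.1 • q.2) '' (Icc s₀ 1 ×ˢ U) := ⟨_, rfl⟩
  have hU'c : IsCompact U' := by
    rw [hU']
    exact (isCompact_Icc.prod hU).image (continuous_fst.smul continuous_snd)
  have hU'0 : ∀ f ∈ U', 0 < fdet f := by
    intro f hf
    rw [hU'] at hf
    obtain ⟨⟨s, g⟩, ⟨h1, h2⟩, rfl⟩ := hf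
    have hs : 0 < s := hs₀.trans_le h1.1
    have e : fdet (s • g) = s ^ 2 * fdet g := by
      unfold fdet
      simp only [Prod.smul_fst, Prod.smul_snd, smul_eq_mul]
      ring
    simp only
    rw [e]
    have := hU0 g h2
    positivity
  obtain ⟨C, hC⟩ := hm ε hε U' hU'c hU'0
  refine ⟨(s₀ ^ 4)⁻¹ * |C|, fun h hh X hX n hn1 hn2 => ?_⟩
  obtain ⟨s, hs1, hs2, hhs⟩ := hh
  have hs : 0 < s := hs₀.trans_le hs1
  obtain ⟨h₁, hh₁⟩ : ∃ h₁ : ℝ × ℝ → ℝ, h₁ = fun v => √(v.1 ^ 2 + v.2 ^ 2) := ⟨_, rfl⟩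
  have hnm : IsNm h₁ := fun v => by rw [hh₁]
  have hN1 : (1 : ℝ) ≤ 2 ^ n := one_le_pow₀ (by norm_num)
  have hF0 := hF X (2 ^ n) hX hN1
  have e1 : ∫ f in U, J20 f h X (2 ^ n) = ∫ f in U, J20 (s • f) h₁ X (2 ^ n) :=
    integral_congr_ae (Eventually.of_forall fun f => J20_smul hs hhs hnm f X (2 ^ n))
  have hsub : s • U ⊆ U' := by
    intro g hg
    obtain ⟨f, hf, rfl⟩ := hg
    rw [hU']
    exact ⟨(s, f), ⟨⟨hs1, hs2⟩, hf⟩, rfl⟩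
  have hnc : Continuous h₁ := by
    rw [hh₁]
    fun_prop
  have h3 := set_scale (J20_cont_f hnc X (2 ^ n)) (fun f => J20_nonneg f h₁ X (2 ^ n)) hU'c hs hsub
  have h4 := hC h₁ hnm X hX n hn1 hn2
  have h5 : (s ^ 4)⁻¹ ≤ (s₀ ^ 4)⁻¹ := inv_anti₀ (by positivity) (pow_le_pow_left₀ hs₀.le hs1 4)
  have h6 : C * (X ^ ε * F X (2 ^ n)) ≤ |C| * (X ^ ε * F X (2 ^ n)) :=
    mul_le_mul_of_nonneg_right (le_abs_self C) (by positivity)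
  have h7 : 0 ≤ |C| * (X ^ ε * F X (2 ^ n)) := by positivity
  rw [e1]
  calc ∫ f in U, J20 (s • f) h₁ X (2 ^ n) ≤ (s ^ 4)⁻¹ * ∫ f in U', J20 f h₁ X (2 ^ n) := h3
    _ ≤ (s ^ 4)⁻¹ * (|C| * (X ^ ε * F X (2 ^ n))) := mul_le_mul_of_nonneg_left (h4.trans h6) (by positivity)
    _ ≤ (s₀ ^ 4)⁻¹ * (|C| * (X ^ ε * F X (2 ^ n))) := mul_le_mul_of_nonneg_right h5 h7
    _ = (s₀ ^ 4)⁻¹ * |C| * (X ^ ε * F X (2 ^ n)) := by ring

theorem isSupp_one : IsSupp (fun _ : ℝ => (1 : ℝ)) := by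
  refine ⟨contDiff_const, fun _ => rfl, fun _ => one_pos, fun θ => ?_⟩
  simp

/-- the lattices, from the frames -/
theorem lattice_of_frame {H : ℝ → ℝ} (hH : IsSupp H) {θ : ℝ}
    (h : ∀ᵐ f : Fr, 0 < fdet f → ∀ ε : ℝ, 0 < ε → ∃ C : ℝ, ∀ R : ℝ, 1 ≤ R → ∀ c : ℝ × ℝ,
      |cntc (Hf H f) c R - area (Hf H f) * R ^ 2| ≤ C * R ^ (θ + ε)) :
    ∀ᵐ ab : Fr, fdet ab ≠ 0 ∧ ∀ ε : ℝ, 0 < ε → ∃ C : ℝ, ∀ R : ℝ, 1 ≤ R → ∀ c : ℝ × ℝ,
      |lcnt ab H c R - area H * R ^ 2 / abs (fdet ab)| ≤ C * R ^ (θ + ε) := by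
  have h1 := ae_dual h
  have h2 : ∀ᵐ ab : Fr, 0 < fdet ab → ∀ ε : ℝ, 0 < ε → ∃ C : ℝ, ∀ R : ℝ, 1 ≤ R → ∀ c : ℝ × ℝ,
      |lcnt ab H c R - area H * R ^ 2 / abs (fdet ab)| ≤ C * R ^ (θ + ε) := by
    filter_upwards [h1] with ab h hd ε hε
    obtain ⟨C, hC⟩ := h hd ε hε
    refine ⟨C, fun R hR c => ?_⟩
    have h3 := hC R hR ((dl ab).1.1 * c.1 + (dl ab).1.2 * c.2, (dl ab).2.1 * c.1 + (dl ab).2.2 * c.2)
    have hdl : fdet (dl ab) ≠ 0 := by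
      rw [fdet_dl hd.ne']
      positivity
    rw [← lcnt_eq hH.per hd.ne', area_lin hH.per hdl, fdet_dl hd.ne', abs_div, abs_one] at h3
    have e : 1 / |fdet ab| * area H * R ^ 2 = area H * R ^ 2 / |fdet ab| := by ring
    rwa [e] at h3
  have h3 := ae_swap h2
  filter_upwards [h2, h3, ae_det] with ab h4 h5 h6
  refine ⟨h6, fun ε hε => ?_⟩
  rcases lt_or_gt_of_ne h6 with h7 | h7
  · have e : fdet (ab.2, ab.1) = -fdet ab := by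
      unfold fdet
      simp only
      ring
    obtain ⟨C, hC⟩ := h5 (by rw [e]; linarith) ε hε
    refine ⟨C, fun R hR c => ?_⟩
    have h8 := hC R hR c
    rwa [lcnt_swap, e, abs_neg] at h8
  · exact h4 h7 ε hε

/-- the disc, almost every frame and lattice, general exponents -/
theorem disc_ae {θ ν₂ ν₃ : ℝ} (hθ : 1 / 2 < θ) (hθ1 : θ < 1) (hν : 1 - θ < ν₃)
    (hm20 : ∀ s₀ : ℝ, 0 < s₀ → Mom J20 20 θ (2 * θ - 1) ν₂ (IsNms s₀))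
    (hm12 : ∀ c₁ B : ℝ, 0 < c₁ → c₁ ≤ 1 → 1 ≤ B → Mom JJ 12 θ ν₂ ν₃ (Pool.Agent.Helper60.LT.Hom c₁ B)) :
    ∀ᵐ ab : Fr, fdet ab ≠ 0 ∧ ∀ ε : ℝ, 0 < ε → ∃ C : ℝ, ∀ R : ℝ, 1 ≤ R → ∀ c : ℝ × ℝ,
      |lcnt ab (fun _ => 1) c R - π * R ^ 2 / abs (fdet ab)| ≤ C * R ^ (θ + ε) := by
  obtain ⟨α₀, c₁, B, ha0, ha1, hc₁, hc₁1, hB, hjc, hfam⟩ := fam isSupp_one contDiff_const
  have hcos : 0 < cos α₀ := Real.cos_pos_of_mem_Ioo ⟨by linarith, ha1⟩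
  have hP : ∀ α ∈ Icc (-α₀) α₀, IsNms (cos α₀) (hom (ga (fun _ => 1) α)) := by
    intro α hα
    refine ⟨cos α, ?_, Real.cos_le_one α, fun v => ?_⟩
    · rw [← Real.cos_abs α]
      exact Real.cos_le_cos_of_nonneg_of_le_pi (abs_nonneg α) (by linarith [Real.pi_pos]) (abs_le.2 hα)
    · unfold hom ga
      rw [nr_eq]
      simp only [deriv_const', zero_mul, sub_zero, one_mul]
      ring
  have h := frame_gen isSupp_one hθ hθ1 hν ha0 ha1 hjc (fun α hα => (hfam α hα).2) hP (fun α hα => (hfam α hα).1)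
    (hm20 _ hcos) (hm12 c₁ B hc₁ hc₁1 hB)
  have h2 := lattice_of_frame isSupp_one h
  rw [Pool.Agent.Helper92.GC.area_one] at h2
  exact h2

/-- the disc, almost every lattice, every centre: exponent 9/17 from the two moment theorems -/
theorem disc_917 {ν₂ ν₃ : ℝ} (hν2 : 11 / 51 ≤ ν₂) (hν23 : ν₂ ≤ ν₃) (hν3 : 8 / 17 < ν₃) (hν3' : ν₃ ≤ 26 / 51)
    (hm20 : MomF J20 F20 IsNm (1 / 17) ν₂)
    (hm12 : ∀ c₁ B : ℝ, 0 < c₁ → c₁ ≤ 1 → 1 ≤ B → MomF JJ F12 (Pool.Agent.Helper60.LT.Hom c₁ B) ν₂ ν₃) :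
    ∀ᵐ ab : Fr, fdet ab ≠ 0 ∧ ∀ ε : ℝ, 0 < ε → ∃ C : ℝ, ∀ R : ℝ, 1 ≤ R → ∀ c : ℝ × ℝ,
      |lcnt ab (fun _ => 1) c R - π * R ^ 2 / abs (fdet ab)| ≤ C * R ^ (9 / 17 + ε) :=
  disc_ae (by norm_num) (by norm_num) (by linarith)
    (fun s₀ hs₀ => mom20_917 (by linarith) (momF_scale hm20 hs₀ fun X N hX hN => by
      have hX0 : 0 < X := by linarith
      have hN0 : 0 < N := by linarith
      unfold F20
      positivity))
    (fun _ _ hc hc1 hB => mom12_917 hν2 hν23 hν3' (hm12 _ _ hc hc1 hB))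

end Pool.Agent.Helper75.TW
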