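import Pool.Agent.Helper75.TW.Main

/-!
# TW-Ell: ellipses from the disc
-/

open MeasureTheory Real Set Filter Topology

set_option autoImplicit false

namespace Pool.Agent.Helper75.TW

open Pool.Agent.Helper22.AE
open Pool.Agent.Helper92.LA (JJ lcnt)
open Pool.Agent.Helper22.LP (Fr fdet fv Hf hom nr nr_eq area_lin)

/-- the support function of an ellipse with conjugate half axes `g.1`, `g.2` and centre `p` -/
noncomputable def ellH (g : Fr) (p : ℝ × ℝ) (t : ℝ) : ℝ :=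
  √((g.1.1 * cos t + g.2.1 * sin t) ^ 2 + (g.1.2 * cos t + g.2.2 * sin t) ^ 2) + (p.1 * cos t + p.2 * sin t)

/-- the inverse of the matrix of the ellipse, applied to a vector; the ellipse is `{w | |Bm g (w - p)| ≤ 1}`.
`u ↦ (g.1 · u, g.2 · u)` maps the disc to the ellipse with support function `|cos t g.1 + sin t g.2|` -/
noncomputable def Bm (g : Fr) (w : ℝ × ℝ) : ℝ × ℝ :=
  ((g.2.2 * w.1 - g.1.2 * w.2) / fdet g, (g.1.1 * w.2 - g.2.1 * w.1) / fdet g)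

/-- the linear map of frames -/
noncomputable def Tm (g : Fr) (f : Fr) : Fr := (Bm g f.1, Bm g f.2)

theorem dot_eq {g : Fr} (hg : fdet g ≠ 0) (w : ℝ × ℝ) (t : ℝ) : w.1 * cos t + w.2 * sin t =
    (Bm g w).1 * (g.1.1 * cos t + g.2.1 * sin t) + (Bm g w).2 * (g.1.2 * cos t + g.2.2 * sin t) := by
  unfold Bm
  simp only
  field_simp
  unfold fdet
  ring

theorem ell_iff {g : Fr} (hg : fdet g ≠ 0) (w : ℝ × ℝ) {R : ℝ} (hR : 0 ≤ R) :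
    (∀ t : ℝ, w.1 * cos t + w.2 * sin t ≤ R * √((g.1.1 * cos t + g.2.1 * sin t) ^ 2 + (g.1.2 * cos t + g.2.2 * sin t) ^ 2)) ↔
      (Bm g w).1 ^ 2 + (Bm g w).2 ^ 2 ≤ R ^ 2 := by
  obtain ⟨u, hu⟩ : ∃ u : ℝ × ℝ, u = Bm g w := ⟨_, rfl⟩
  constructor
  · intro h
    rw [← hu]
    by_cases hu0 : u.1 ^ 2 + u.2 ^ 2 = 0
    · rw [hu0]
      positivity
    have hupos : 0 < u.1 ^ 2 + u.2 ^ 2 := lt_of_le_of_ne (by positivity) (Ne.symm hu0)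
    -- `z = B^T u`
    obtain ⟨z, hz⟩ : ∃ z : ℂ, z = ⟨(g.2.2 * u.1 - g.2.1 * u.2) / fdet g, (g.1.1 * u.2 - g.1.2 * u.1) / fdet g⟩ := ⟨_, rfl⟩
    have e1 : g.1.1 * z.re + g.2.1 * z.im = u.1 := by
      rw [hz]
      simp only
      field_simp
      unfold fdet
      ring
    have e2 : g.1.2 * z.re + g.2.2 * z.im = u.2 := by
      rw [hz]
      simp only
      field_simp
      unfold fdet
      ring
    have hz0 : z ≠ 0 := by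
      intro h0
      rw [h0] at e1 e2
      simp only [Complex.zero_re, Complex.zero_im, mul_zero, add_zero] at e1 e2
      apply hu0
      rw [← e1, ← e2]
      norm_num
    have hzn : 0 < ‖z‖ := norm_pos_iff.2 hz0
    have h1 := h z.arg
    have h2 : ‖z‖ * cos z.arg = z.re := Complex.norm_mul_cos_arg z
    have h3 : ‖z‖ * sin z.arg = z.im := Complex.norm_mul_sin_arg z
    have f1 : ‖z‖ * (g.1.1 * cos z.arg + g.2.1 * sin z.arg) = u.1 := by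
      rw [← e1, ← h2, ← h3]
      ring
    have f2 : ‖z‖ * (g.1.2 * cos z.arg + g.2.2 * sin z.arg) = u.2 := by
      rw [← e2, ← h2, ← h3]
      ring
    have h4 : ‖z‖ * (w.1 * cos z.arg + w.2 * sin z.arg) = u.1 ^ 2 + u.2 ^ 2 := by
      rw [dot_eq hg w, ← hu]
      calc ‖z‖ * (u.1 * (g.1.1 * cos z.arg + g.2.1 * sin z.arg) + u.2 * (g.1.2 * cos z.arg + g.2.2 * sin z.arg))
          = u.1 * (‖z‖ * (g.1.1 * cos z.arg + g.2.1 * sin z.arg)) + u.2 * (‖z‖ * (g.1.2 * cos z.arg + g.2.2 * sin z.arg)) := by ring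
        _ = _ := by
          rw [f1, f2]
          ring
    have h5 : ‖z‖ * √((g.1.1 * cos z.arg + g.2.1 * sin z.arg) ^ 2 + (g.1.2 * cos z.arg + g.2.2 * sin z.arg) ^ 2) =
        √(u.1 ^ 2 + u.2 ^ 2) := by
      rw [← f1, ← f2, mul_pow, mul_pow, ← mul_add, Real.sqrt_mul (by positivity), Real.sqrt_sq hzn.le]
    have h6 := mul_le_mul_of_nonneg_left h1 hzn.le
    rw [h4, show ‖z‖ * (R * √((g.1.1 * cos z.arg + g.2.1 * sin z.arg) ^ 2 + (g.1.2 * cos z.arg + g.2.2 * sin z.arg) ^ 2)) =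
      R * (‖z‖ * √((g.1.1 * cos z.arg + g.2.1 * sin z.arg) ^ 2 + (g.1.2 * cos z.arg + g.2.2 * sin z.arg) ^ 2)) by ring, h5] at h6
    have h7 : 0 < √(u.1 ^ 2 + u.2 ^ 2) := Real.sqrt_pos.2 hupos
    have h8 : √(u.1 ^ 2 + u.2 ^ 2) * √(u.1 ^ 2 + u.2 ^ 2) = u.1 ^ 2 + u.2 ^ 2 := Real.mul_self_sqrt hupos.le
    have h9 := le_of_mul_le_mul_right (h8.le.trans h6) h7
    calc u.1 ^ 2 + u.2 ^ 2 = √(u.1 ^ 2 + u.2 ^ 2) ^ 2 := (Real.sq_sqrt hupos.le).symm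
      _ ≤ R ^ 2 := pow_le_pow_left₀ h7.le h9 2
  · intro h t
    rw [dot_eq hg w, ← hu]
    rw [← hu] at h
    obtain ⟨x, hx⟩ : ∃ x, x = g.1.1 * cos t + g.2.1 * sin t := ⟨_, rfl⟩
    obtain ⟨y, hy⟩ : ∃ y, y = g.1.2 * cos t + g.2.2 * sin t := ⟨_, rfl⟩
    rw [← hx, ← hy]
    refine le_of_sq_le_sq ?_ (by positivity)
    rw [mul_pow, Real.sq_sqrt (by positivity)]
    have h1 : (u.1 * x + u.2 * y) ^ 2 + (u.1 * y - u.2 * x) ^ 2 = (u.1 ^ 2 + u.2 ^ 2) * (x ^ 2 + y ^ 2) := by ring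
    have h2 := mul_le_mul_of_nonneg_right h (by positivity : 0 ≤ x ^ 2 + y ^ 2)
    linarith [sq_nonneg (u.1 * y - u.2 * x)]

theorem Bm_lin (g : Fr) (k : ℤ × ℤ) (a b c : ℝ × ℝ) (p : ℝ × ℝ) (R : ℝ) :
    Bm g ((k.1 : ℝ) * a.1 + (k.2 : ℝ) * b.1 - c.1 - R * p.1, (k.1 : ℝ) * a.2 + (k.2 : ℝ) * b.2 - c.2 - R * p.2) =
      ((k.1 : ℝ) * (Bm g a).1 + (k.2 : ℝ) * (Bm g b).1 - (Bm g (c.1 + R * p.1, c.2 + R * p.2)).1,
        (k.1 : ℝ) * (Bm g a).2 + (k.2 : ℝ) * (Bm g b).2 - (Bm g (c.1 + R * p.1, c.2 + R * p.2)).2) := by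
  unfold Bm
  refine Prod.ext ?_ ?_
  · simp only
    ring
  · simp only
    ring

theorem lcnt_ell {g : Fr} (hg : fdet g ≠ 0) (p : ℝ × ℝ) (ab : Fr) (c : ℝ × ℝ) {R : ℝ} (hR : 0 ≤ R) :
    lcnt ab (ellH g p) c R = ldisc (Tm g ab) (Bm g (c.1 + R * p.1, c.2 + R * p.2)) R := by
  unfold lcnt ldisc
  congr 1
  refine Nat.card_congr (Equiv.subtypeEquivRight fun k => ?_)
  have h := ell_iff hg ((k.1 : ℝ) * ab.1.1 + (k.2 : ℝ) * ab.2.1 - c.1 - R * p.1, (k.1 : ℝ) * ab.1.2 + (k.2 : ℝ) * ab.2.2 - c.2 - R * p.2) hR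
  rw [Bm_lin] at h
  have h2 : ((k.1 : ℝ) * (Tm g ab).1.1 + (k.2 : ℝ) * (Tm g ab).2.1 - (Bm g (c.1 + R * p.1, c.2 + R * p.2)).1) ^ 2 +
    ((k.1 : ℝ) * (Tm g ab).1.2 + (k.2 : ℝ) * (Tm g ab).2.2 - (Bm g (c.1 + R * p.1, c.2 + R * p.2)).2) ^ 2 ≤ R ^ 2 ↔ _ := h.symm
  rw [h2]
  refine forall_congr' fun t => ?_
  unfold ellH
  simp only
  constructor
  · intro h3
    linarith
  · intro h3
    linarith

theorem fdet_Tm {g : Fr} (hg : fdet g ≠ 0) (ab : Fr) : fdet (Tm g ab) = fdet ab / fdet g := by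
  obtain ⟨δ, hδ⟩ : ∃ δ, δ = fdet g := ⟨_, rfl⟩
  have hδ' : δ = g.1.1 * g.2.2 - g.1.2 * g.2.1 := hδ
  rw [← hδ] at hg
  have e : fdet (Tm g ab) = ((g.2.2 * ab.1.1 - g.1.2 * ab.1.2) * (g.1.1 * ab.2.2 - g.2.1 * ab.2.1) -
      (g.1.1 * ab.1.2 - g.2.1 * ab.1.1) * (g.2.2 * ab.2.1 - g.1.2 * ab.2.2)) / (δ * δ) := by
    have h0 : ∀ a b c d : ℝ, a / δ * (b / δ) - c / δ * (d / δ) = (a * b - c * d) / (δ * δ) := by
      intro a b c d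
      rw [div_mul_div_comm, div_mul_div_comm, sub_div]
    unfold Tm Bm
    rw [← hδ]
    exact h0 _ _ _ _
  rw [e, ← hδ, div_eq_div_iff (mul_ne_zero hg hg) hg]
  unfold fdet
  rw [hδ']
  ring

/-- the linear map of frames as an equivalence -/
noncomputable def Te {g : Fr} (hg : fdet g ≠ 0) : Fr ≃ₗ[ℝ] Fr where
  toFun := Tm g
  map_add' f f' := by
    unfold Tm Bm
    simp only [Prod.fst_add, Prod.snd_add]
    refine Prod.ext (Prod.ext ?_ ?_) (Prod.ext ?_ ?_) <;> simp only [Prod.fst_add, Prod.snd_add] <;> ring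
  map_smul' r f := by
    unfold Tm Bm
    simp only [Prod.smul_fst, Prod.smul_snd, smul_eq_mul, RingHom.id_apply]
    refine Prod.ext (Prod.ext ?_ ?_) (Prod.ext ?_ ?_) <;> simp only [Prod.smul_fst, Prod.smul_snd, smul_eq_mul] <;> ring
  invFun f := ((g.1.1 * f.1.1 + g.1.2 * f.1.2, g.2.1 * f.1.1 + g.2.2 * f.1.2), (g.1.1 * f.2.1 + g.1.2 * f.2.2, g.2.1 * f.2.1 + g.2.2 * f.2.2))
  left_inv f := by
    obtain ⟨δ, hδ⟩ : ∃ δ, δ = fdet g := ⟨_, rfl⟩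
    have hδ' : δ = g.1.1 * g.2.2 - g.1.2 * g.2.1 := hδ
    rw [← hδ] at hg
    unfold Tm Bm
    rw [← hδ]
    refine Prod.ext (Prod.ext ?_ ?_) (Prod.ext ?_ ?_) <;> simp only <;> field_simp <;> rw [hδ'] <;> ring
  right_inv f := by
    obtain ⟨δ, hδ⟩ : ∃ δ, δ = fdet g := ⟨_, rfl⟩
    have hδ' : δ = g.1.1 * g.2.2 - g.1.2 * g.2.1 := hδ
    rw [← hδ] at hg
    unfold Tm Bm
    rw [← hδ]
    refine Prod.ext (Prod.ext ?_ ?_) (Prod.ext ?_ ?_) <;> simp only <;> field_simp <;> rw [hδ'] <;> ring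

theorem ae_Tm {g : Fr} (hg : fdet g ≠ 0) {P : Fr → Prop} (h : ∀ᵐ f : Fr, P f) : ∀ᵐ f : Fr, P (Tm g f) := by
  have hdet : LinearMap.det ((Te hg : Fr ≃ₗ[ℝ] Fr) : Fr →ₗ[ℝ] Fr) ≠ 0 := (LinearEquiv.isUnit_det' (Te hg)).ne_zero
  rw [ae_iff] at h ⊢
  have h2 := MeasureTheory.Measure.addHaar_preimage_linearMap (volume : Measure Fr) hdet {f | ¬P f}
  have h3 : ((Te hg : Fr ≃ₗ[ℝ] Fr) : Fr →ₗ[ℝ] Fr) ⁻¹' {f | ¬P f} = {f | ¬P (Tm g f)} := rfl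
  rw [h3, h, mul_zero] at h2
  exact h2

theorem ellH_eq (g : Fr) (p : ℝ × ℝ) (t : ℝ) : ellH g p t = Hf (fun _ => 1) g t + (p.1 * cos t + p.2 * sin t) := by
  unfold ellH Hf hom
  rw [nr_eq, mul_one]
  unfold fv
  simp only
  congr 2
  ring

theorem area_trans (G : ℝ → ℝ) (p : ℝ × ℝ) : area (fun t => G t + (p.1 * cos t + p.2 * sin t)) = area G := by
  unfold area
  congr 1
  have h : dom (fun t => G t + (p.1 * cos t + p.2 * sin t)) = (fun w : ℝ × ℝ => w + (-p)) ⁻¹' dom G := by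
    ext w
    show (∀ t : ℝ, w.1 * cos t + w.2 * sin t ≤ G t + (p.1 * cos t + p.2 * sin t)) ↔
      (∀ t : ℝ, (w + (-p)).1 * cos t + (w + (-p)).2 * sin t ≤ G t)
    simp only [Prod.fst_add, Prod.snd_add, Prod.fst_neg, Prod.snd_neg]
    refine forall_congr' fun t => ?_
    constructor
    · intro h
      linarith
    · intro h
      linarith
  rw [h, measure_preimage_add_right]

theorem area_ell {g : Fr} (hg : fdet g ≠ 0) (p : ℝ × ℝ) : area (ellH g p) = |fdet g| * π := by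
  rw [show ellH g p = fun t => Hf (fun _ => 1) g t + (p.1 * cos t + p.2 * sin t) from funext (ellH_eq g p), area_trans,
    area_lin (fun _ => rfl) hg, Pool.Agent.Helper92.GC.area_one]

/-- from the disc to all ellipses -/
theorem ell_main {θ : ℝ} (hd : ∀ᵐ ab : Fr, fdet ab ≠ 0 ∧ ∀ ε : ℝ, 0 < ε → ∃ C : ℝ, ∀ R : ℝ, 1 ≤ R → ∀ c : ℝ × ℝ,
      |ldisc ab c R - π * R ^ 2 / abs (fdet ab)| ≤ C * R ^ (θ + ε)) {g : Fr} (hg : fdet g ≠ 0) (p : ℝ × ℝ) :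
    ∀ᵐ ab : Fr, fdet ab ≠ 0 ∧ ∀ ε : ℝ, 0 < ε → ∃ C : ℝ, ∀ R : ℝ, 1 ≤ R → ∀ c : ℝ × ℝ,
      |lcnt ab (ellH g p) c R - area (ellH g p) * R ^ 2 / abs (fdet ab)| ≤ C * R ^ (θ + ε) := by
  filter_upwards [ae_Tm hg hd] with ab h
  obtain ⟨h1, h2⟩ := h
  have h3 : fdet ab ≠ 0 := by
    intro h0
    apply h1
    rw [fdet_Tm hg, h0, zero_div]
  refine ⟨h3, fun ε hε => ?_⟩
  obtain ⟨C, hC⟩ := h2 ε hε
  refine ⟨C, fun R hR c => ?_⟩
  rw [lcnt_ell hg p ab c (by linarith), area_ell hg]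
  have h4 := hC R hR (Bm g (c.1 + R * p.1, c.2 + R * p.2))
  rw [fdet_Tm hg, abs_div] at h4
  have e : |fdet g| * π * R ^ 2 / |fdet ab| = π * R ^ 2 / (|fdet ab| / |fdet g|) := by
    have h5 : 0 < |fdet g| := abs_pos.2 hg
    have h6 : 0 < |fdet ab| := abs_pos.2 h3
    field_simp
  rw [e]
  exact h4

/-- ellipses, almost every lattice, every centre: exponent 9/17 from the moment theorems -/
theorem oval_ell (hS : ∀ c₁ B : ℝ, 0 < c₁ → c₁ ≤ 1 → 1 ≤ B → Pool.Agent.Helper86.LK.MomS c₁ B)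
    (hq : MomF J20 (fun X N => X * (N ^ 20 + N ^ 34 * (X * N) ^ (-(7 / 4) : ℝ))) (fun h => h = fun v => √(v.1 ^ 2 + v.2 ^ 2)) 0 (1 / 3))
    {H : ℝ → ℝ} {a b p : ℝ × ℝ} (hab : a.1 * b.2 - a.2 * b.1 ≠ 0)
    (hH : ∀ t, H t = √((a.1 * cos t + a.2 * sin t) ^ 2 + (b.1 * cos t + b.2 * sin t) ^ 2) + (p.1 * cos t + p.2 * sin t)) :
    ∀ᵐ ab : Fr, fdet ab ≠ 0 ∧ ∀ ε : ℝ, 0 < ε → ∃ C : ℝ, ∀ R : ℝ, 1 ≤ R → ∀ c : ℝ × ℝ,
      |lcnt ab H c R - area H * R ^ 2 / abs (fdet ab)| ≤ C * R ^ (9 / 17 + ε) := by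
  obtain ⟨g, hg⟩ : ∃ g : Fr, g = ((a.1, b.1), (a.2, b.2)) := ⟨_, rfl⟩
  have hg0 : fdet g ≠ 0 := by
    rw [hg]
    unfold fdet
    simp only
    intro h
    apply hab
    linarith
  have e : H = ellH g p := by
    funext t
    rw [hH t, hg]
    rfl
  rw [e]
  exact ell_main (ldisc_main hS hq) hg0 p

end Pool.Agent.Helper75.TW
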