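import Pool.Agent.Helper75.TW.Aff

/-!
# TW-EllAff: ellipses have positive affine curvature
-/

open MeasureTheory Real Set Filter Topology

set_option autoImplicit false

namespace Pool.Agent.Helper75.TW

open Pool.Agent.Helper22.AE

private theorem core75 {A B A1 B1 h d : ℝ} (hh : 0 < h) (hd : 0 < d ^ 2) (e1 : h ^ 2 = A ^ 2 + B ^ 2) (e2 : A * B1 - A1 * B = d) :
    0 < 9 * (d ^ 2 / h ^ 3) ^ 2 + 4 * (-3 * d ^ 2 * ((A * A1 + B * B1) / h ^ 5)) ^ 2 -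
      3 * (d ^ 2 / h ^ 3) * (-3 * d ^ 2 * ((A1 ^ 2 + B1 ^ 2 - h ^ 2) / h ^ 5 - 5 * (A * A1 + B * B1) ^ 2 / h ^ 7)) := by
  have e3 : (A1 ^ 2 + B1 ^ 2) * h ^ 2 = (A * A1 + B * B1) ^ 2 + d ^ 2 := by
    rw [e1, ← e2]
    ring
  have e4 : 9 * (d ^ 2 / h ^ 3) ^ 2 + 4 * (-3 * d ^ 2 * ((A * A1 + B * B1) / h ^ 5)) ^ 2 -
      3 * (d ^ 2 / h ^ 3) * (-3 * d ^ 2 * ((A1 ^ 2 + B1 ^ 2 - h ^ 2) / h ^ 5 - 5 * (A * A1 + B * B1) ^ 2 / h ^ 7)) =
      9 * d ^ 4 * ((A1 ^ 2 + B1 ^ 2) * h ^ 2 - (A * A1 + B * B1) ^ 2) / h ^ 10 := by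
    field_simp
    ring
  rw [e4, e3]
  have e5 : 9 * d ^ 4 * ((A * A1 + B * B1) ^ 2 + d ^ 2 - (A * A1 + B * B1) ^ 2) / h ^ 10 = 9 * (d ^ 2) ^ 3 / h ^ 10 := by ring
  rw [e5]
  positivity

/-- ellipses are smooth, and have positive radius of curvature and positive affine curvature -/
theorem ell_aff {H : ℝ → ℝ} {u v p : ℝ × ℝ} (huv : u.1 * v.2 - u.2 * v.1 ≠ 0)
    (hH : ∀ t, H t = √((u.1 * cos t + u.2 * sin t) ^ 2 + (v.1 * cos t + v.2 * sin t) ^ 2) + (p.1 * cos t + p.2 * sin t)) :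
    ContDiff ℝ 6 H ∧ (∀ t, 0 < rho H t) ∧ AffPos H := by
  obtain ⟨A, hA⟩ : ∃ A : ℝ → ℝ, A = fun t => u.1 * cos t + u.2 * sin t := ⟨_, rfl⟩
  obtain ⟨B, hB⟩ : ∃ B : ℝ → ℝ, B = fun t => v.1 * cos t + v.2 * sin t := ⟨_, rfl⟩
  obtain ⟨A1, hA1⟩ : ∃ A1 : ℝ → ℝ, A1 = fun t => u.1 * (-sin t) + u.2 * cos t := ⟨_, rfl⟩
  obtain ⟨B1, hB1⟩ : ∃ B1 : ℝ → ℝ, B1 = fun t => v.1 * (-sin t) + v.2 * cos t := ⟨_, rfl⟩
  obtain ⟨d, hd⟩ : ∃ d : ℝ, d = u.1 * v.2 - u.2 * v.1 := ⟨_, rfl⟩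
  have hd2 : 0 < d ^ 2 := by
    rw [← hd] at huv
    positivity
  have dA : ∀ t, HasDerivAt A (A1 t) t := by
    intro t
    rw [hA, hA1]
    exact ((hasDerivAt_cos t).const_mul u.1).add ((hasDerivAt_sin t).const_mul u.2)
  have dB : ∀ t, HasDerivAt B (B1 t) t := by
    intro t
    rw [hB, hB1]
    exact ((hasDerivAt_cos t).const_mul v.1).add ((hasDerivAt_sin t).const_mul v.2)
  have dA1 : ∀ t, HasDerivAt A1 (-A t) t := by
    intro t
    rw [hA, hA1]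
    refine HasDerivAt.congr_deriv (((hasDerivAt_sin t).neg.const_mul u.1).add ((hasDerivAt_cos t).const_mul u.2)) ?_
    ring
  have dB1 : ∀ t, HasDerivAt B1 (-B t) t := by
    intro t
    rw [hB, hB1]
    refine HasDerivAt.congr_deriv (((hasDerivAt_sin t).neg.const_mul v.1).add ((hasDerivAt_cos t).const_mul v.2)) ?_
    ring
  have e2 : ∀ t, A t * B1 t - A1 t * B t = d := by
    intro t
    have h1 := sin_sq_add_cos_sq t
    rw [hA, hB, hA1, hB1, hd]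
    simp only
    linear_combination (u.1 * v.2 - u.2 * v.1) * h1
  have hq0 : ∀ t, 0 < A t ^ 2 + B t ^ 2 := by
    intro t
    have h1 : (A t ^ 2 + B t ^ 2) * (A1 t ^ 2 + B1 t ^ 2) = (A t * A1 t + B t * B1 t) ^ 2 + d ^ 2 := by
      rw [← e2 t]
      ring
    by_contra hcon
    have h2 : A t ^ 2 + B t ^ 2 = 0 := le_antisymm (not_lt.1 hcon) (by positivity)
    rw [h2, zero_mul] at h1
    nlinarith [sq_nonneg (A t * A1 t + B t * B1 t)]
  obtain ⟨h, hh⟩ : ∃ h : ℝ → ℝ, h = fun t => √(A t ^ 2 + B t ^ 2) := ⟨_, rfl⟩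
  have h0 : ∀ t, 0 < h t := by
    intro t
    rw [hh]
    exact Real.sqrt_pos.2 (hq0 t)
  have e1 : ∀ t, h t ^ 2 = A t ^ 2 + B t ^ 2 := by
    intro t
    rw [hh]
    exact Real.sq_sqrt (hq0 t).le
  have dh : ∀ t, HasDerivAt h ((A t * A1 t + B t * B1 t) / h t) t := by
    intro t
    have h1 : HasDerivAt (fun s => A s ^ 2 + B s ^ 2) (2 * (A t * A1 t + B t * B1 t)) t := by
      refine HasDerivAt.congr_deriv (((dA t).pow 2).add ((dB t).pow 2)) ?_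
      push_cast
      ring
    have h2 := h1.sqrt (hq0 t).ne'
    have h3 : √(A t ^ 2 + B t ^ 2) = h t := by rw [hh]
    rw [h3] at h2
    have h4 : HasDerivAt h (2 * (A t * A1 t + B t * B1 t) / (2 * h t)) t := by
      rw [hh] at h2 ⊢
      exact h2
    refine h4.congr_deriv ?_
    have := (h0 t).ne'
    field_simp
  -- the second derivative
  have dm : ∀ t, HasDerivAt (fun s => A s * A1 s + B s * B1 s) (A1 t ^ 2 + B1 t ^ 2 - h t ^ 2) t := by
    intro t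
    refine HasDerivAt.congr_deriv (((dA t).mul (dA1 t)).add ((dB t).mul (dB1 t))) ?_
    rw [e1]
    ring
  have e3 : ∀ t, (A1 t ^ 2 + B1 t ^ 2) * h t ^ 2 = (A t * A1 t + B t * B1 t) ^ 2 + d ^ 2 := by
    intro t
    rw [e1, ← e2 t]
    ring
  have dh1 : ∀ t, HasDerivAt (fun s => (A s * A1 s + B s * B1 s) / h s) (d ^ 2 / h t ^ 3 - h t) t := by
    intro t
    refine HasDerivAt.congr_deriv ((dm t).div (dh t) (h0 t).ne') ?_
    have h1 := (h0 t).ne'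
    have h2 := e3 t
    rw [div_eq_iff (pow_ne_zero 2 h1), mul_comm (d ^ 2 / h t ^ 3 - h t)]
    have h3 : (A t * A1 t + B t * B1 t) * ((A t * A1 t + B t * B1 t) / h t) = (A t * A1 t + B t * B1 t) ^ 2 / h t := by ring
    rw [h3]
    have h4 : d ^ 2 = (A1 t ^ 2 + B1 t ^ 2) * h t ^ 2 - (A t * A1 t + B t * B1 t) ^ 2 := by linarith
    rw [h4]
    field_simp
    ring
  have hH' : H = fun t => h t + (p.1 * cos t + p.2 * sin t) := by
    funext t
    rw [hH t, hh, hA, hB]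
  have dH : ∀ t, HasDerivAt H ((A t * A1 t + B t * B1 t) / h t + (p.1 * (-sin t) + p.2 * cos t)) t := by
    intro t
    rw [hH']
    exact (dh t).add (((hasDerivAt_cos t).const_mul p.1).add ((hasDerivAt_sin t).const_mul p.2))
  have eH : deriv H = fun t => (A t * A1 t + B t * B1 t) / h t + (p.1 * (-sin t) + p.2 * cos t) := by
    funext t
    exact (dH t).deriv
  have eH2 : ∀ t, deriv (deriv H) t = d ^ 2 / h t ^ 3 - h t - (p.1 * cos t + p.2 * sin t) := by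
    intro t
    rw [eH]
    apply HasDerivAt.deriv
    refine HasDerivAt.congr_deriv ((dh1 t).add (((hasDerivAt_sin t).neg.const_mul p.1).add ((hasDerivAt_cos t).const_mul p.2))) ?_
    ring
  have er : rho H = fun t => d ^ 2 / h t ^ 3 := by
    funext t
    unfold rho
    rw [eH2 t, hH']
    ring
  have er1 : deriv (rho H) = fun t => -3 * d ^ 2 * ((A t * A1 t + B t * B1 t) / h t ^ 5) := by
    funext t
    rw [er]
    apply HasDerivAt.deriv
    refine HasDerivAt.congr_deriv ((hasDerivAt_const t (d ^ 2)).div ((dh t).pow 3) (pow_ne_zero 3 (h0 t).ne')) ?_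
    have h1 := (h0 t).ne'
    push_cast
    field_simp
    ring
  have er2 : ∀ t, deriv (deriv (rho H)) t =
      -3 * d ^ 2 * ((A1 t ^ 2 + B1 t ^ 2 - h t ^ 2) / h t ^ 5 - 5 * (A t * A1 t + B t * B1 t) ^ 2 / h t ^ 7) := by
    intro t
    rw [er1]
    apply HasDerivAt.deriv
    refine HasDerivAt.congr_deriv (((dm t).div ((dh t).pow 5) (pow_ne_zero 5 (h0 t).ne')).const_mul (-3 * d ^ 2)) ?_
    have h1 := (h0 t).ne'
    push_cast
    simp only [Pi.pow_apply]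
    field_simp
  refine ⟨?_, fun t => ?_, fun t => ?_⟩
  · rw [hH', hh]
    have c1 : ContDiff ℝ 6 A := by
      rw [hA]
      fun_prop
    have c2 : ContDiff ℝ 6 B := by
      rw [hB]
      fun_prop
    exact (((c1.pow 2).add (c2.pow 2)).sqrt fun t => (hq0 t).ne').add (by fun_prop)
  · rw [er]
    have := h0 t
    positivity
  · rw [er2 t, er1, er]
    exact core75 (h0 t) hd2 (e1 t) (e2 t)

end Pool.Agent.Helper75.TW
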