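import Pool.Agent.Helper75.TW.Aff
import Pool.Agent.Helper92.AG.Defs
import Pool.Agent.Helper92.LA.C2

/-!
# TW-Gen: ovals whose affine curvature has no double zero, almost every lattice: exponent 9/17 from the twentieth moment of project AG
-/

open MeasureTheory Real Set Filter Topology

set_option autoImplicit false

namespace Pool.Agent.Helper75.TW

open Pool.Agent.Helper22.AE
open Pool.Agent.Helper22.AC (ga cntc)
open Pool.Agent.Helper92.LA (JJ lcnt HL WL)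
open Pool.Agent.Helper22.LP (Fr fdet hom wr)
open Pool.Agent.Helper92.AG (HG)

/-- the numerator of the affine curvature -/
noncomputable def afn (H : ℝ → ℝ) (t : ℝ) : ℝ := 9 * rho H t ^ 2 + 4 * deriv (rho H) t ^ 2 - 3 * rho H t * deriv (deriv (rho H)) t

/-- the affine curvature has no double zero -/
def AffOk (H : ℝ → ℝ) : Prop := ∀ t, afn H t ≠ 0 ∨ deriv (afn H) t ≠ 0

/-- the family of the phases (`fam_gen`) -/
def FamGen : Prop :=
  ∀ H : ℝ → ℝ, IsSupp H → ContDiff ℝ 7 H → AffOk H →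
    ∃ α₀ c₁ B : ℝ, 0 < α₀ ∧ α₀ < π / 2 ∧ 0 < c₁ ∧ c₁ ≤ 1 ∧ 1 ≤ B ∧
      (Continuous fun q : ℝ × (ℝ × ℝ) => hom (ga H q.1) q.2) ∧
      ∀ α ∈ Icc (-α₀) α₀, HG c₁ B (hom (ga H α)) ∧ HL B (hom (ga H α)) ∧ WL B (wr H α) ∧ WL B (fun _ => 1)

theorem gen_supp {H : ℝ → ℝ} (hH : IsSupp H) (h7 : ContDiff ℝ 7 H) (ha : AffOk H) (hf : FamGen)
    (hq : ∀ c₁ B : ℝ, 0 < c₁ → 1 ≤ B → MomF J20 (fun X N => X * (N ^ 20 + N ^ 34 * (X * N) ^ (-(7 / 4) : ℝ))) (HG c₁ B) 0 (1 / 3)) :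
    ∀ᵐ ab : Fr, fdet ab ≠ 0 ∧ ∀ ε : ℝ, 0 < ε → ∃ C : ℝ, ∀ R : ℝ, 1 ≤ R → ∀ c : ℝ × ℝ,
      |lcnt ab H c R - area H * R ^ 2 / abs (fdet ab)| ≤ C * R ^ (9 / 17 + ε) := by
  obtain ⟨α₀, c₁, B, ha0, ha1, hc₁, hc₁1, hB, hjc, hfam⟩ := hf H hH h7 ha
  exact lattice_of_frame hH (frame_gen hH (by norm_num) (by norm_num) (by norm_num) ha0 ha1 hjc (fun α hα => (hfam α hα).2)
    (fun α hα => (hfam α hα).1) (fun α hα => (hfam α hα).1.hom) (mom20_q (hq c₁ B hc₁ hB))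
    (mom12_917 (by norm_num) (by norm_num) le_rfl (Pool.Agent.Helper86.LK.momF12 hc₁ hc₁1 hB (momS_all hc₁ hc₁1 hB) (by norm_num))))

theorem gen_main {H : ℝ → ℝ} (h7 : ContDiff ℝ 7 H) (hp : Function.Periodic H (2 * π)) (hr : ∀ t, 0 < H t + deriv (deriv H) t)
    (ha : AffOk H) (hf : FamGen)
    (hq : ∀ c₁ B : ℝ, 0 < c₁ → 1 ≤ B → MomF J20 (fun X N => X * (N ^ 20 + N ^ 34 * (X * N) ^ (-(7 / 4) : ℝ))) (HG c₁ B) 0 (1 / 3)) :
    ∀ᵐ ab : Fr, fdet ab ≠ 0 ∧ ∀ ε : ℝ, 0 < ε → ∃ C : ℝ, ∀ R : ℝ, 1 ≤ R → ∀ c : ℝ × ℝ,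
      |lcnt ab H c R - area H * R ^ 2 / abs (fdet ab)| ≤ C * R ^ (9 / 17 + ε) := by
  have h2 : ContDiff ℝ 2 H := h7.of_le (by norm_num)
  obtain ⟨v, hv⟩ := Pool.Agent.Helper22.OV.exists_shift h2 hp hr
  have e : rho (Pool.Agent.Helper22.OV.shf H v) = rho H := by
    funext t
    exact Pool.Agent.Helper22.OV.shf_rho v h2 t
  have e2 : afn (Pool.Agent.Helper22.OV.shf H v) = afn H := by
    unfold afn
    rw [e]
  have ha' : AffOk (Pool.Agent.Helper22.OV.shf H v) := by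
    intro t
    rw [e2]
    exact ha t
  filter_upwards [gen_supp hv (Pool.Agent.Helper22.OV.shf_smooth v h7) ha' hf hq] with ab h
  refine ⟨h.1, fun ε hε => ?_⟩
  obtain ⟨C, hC⟩ := h.2 ε hε
  refine ⟨C, fun R hR c => ?_⟩
  have h1 := hC R hR (c.1 - R * v.1, c.2 - R * v.2)
  rw [Pool.Agent.Helper22.OV.area_shf] at h1
  have h2 : lcnt ab (Pool.Agent.Helper22.OV.shf H v) (c.1 - R * v.1, c.2 - R * v.2) R = lcnt ab H c R := by
    unfold lcnt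
    congr 1
    refine Nat.card_congr (Equiv.subtypeEquivRight fun k => ?_)
    refine forall_congr' fun t => ?_
    unfold Pool.Agent.Helper22.OV.shf
    simp only
    constructor
    · intro h
      linarith
    · intro h
      linarith
  rwa [h2] at h1

end Pool.Agent.Helper75.TW
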