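import Pool.Agent.Helper75.TW.Defs

/-!
# TW-R0: elementary facts about `m20` (as `Helper92.DT.R0`)
-/

open MeasureTheory Real Set Filter Topology

set_option autoImplicit false

namespace Pool.Agent.Helper75.TW

open Pool.Agent.Helper22.AE
open Pool.Agent.Helper92.GC

theorem m20_nonneg (S : Finset (ℤ × ℤ)) (a : ℤ × ℤ → ℂ) : 0 ≤ m20 S a :=
  integral_nonneg fun _ => by positivity

theorem m20_congr {S : Finset (ℤ × ℤ)} {a b : ℤ × ℤ → ℂ} (h : ∀ k ∈ S, a k = b k) : m20 S a = m20 S b := by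
  have h1 : tp S a = tp S b := by
    funext c
    exact Finset.sum_congr rfl fun k hk => by rw [h k hk]
  unfold m20
  rw [h1]

open Classical in
theorem m20_filter (S : Finset (ℤ × ℤ)) (p : ℤ × ℤ → Prop) (a : ℤ × ℤ → ℂ) :
    m20 (S.filter p) a = m20 S (fun k => (if p k then 1 else 0) * a k) := by
  have h1 : tp (S.filter p) a = tp S (fun k => (if p k then 1 else 0) * a k) := by
    funext c
    unfold tp
    rw [Finset.sum_filter]
    refine Finset.sum_congr rfl fun k _ => ?_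
    simp only
    by_cases hp : p k
    · rw [if_pos hp, if_pos hp, one_mul]
    · rw [if_neg hp, if_neg hp, zero_mul, zero_mul]
  unfold m20
  rw [h1]

theorem m20_smul (S : Finset (ℤ × ℤ)) (z : ℂ) (a : ℤ × ℤ → ℂ) : m20 S (fun k => z * a k) = ‖z‖ ^ 20 * m20 S a := by
  have h1 : ∀ c, ‖tp S (fun k => z * a k) c‖ ^ 20 = ‖z‖ ^ 20 * ‖tp S a c‖ ^ 20 := by
    intro c
    have h2 : tp S (fun k => z * a k) c = z * tp S a c := by
      unfold tp
      rw [Finset.mul_sum]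
      exact Finset.sum_congr rfl fun k _ => by ring
    rw [h2, norm_mul, mul_pow]
  unfold m20
  simp only [h1]
  rw [integral_const_mul]

theorem tp_pow (S : Finset (ℤ × ℤ)) (a : ℤ × ℤ → ℂ) (n : ℕ) (c : ℝ × ℝ) :
    tp S a c ^ n = tp (SP S n) (cf S a n) c := by
  classical
  induction n with
  | zero =>
    unfold tp SP cf
    have h3 : dt 0 c = 0 := by simp [dt]
    rw [Finset.sum_singleton, h3, ee_zero, pow_zero, mul_one]
  | succ n ih =>
    have h1 : tp S a c ^ (n + 1) = ∑ k ∈ SP S n ×ˢ S, cf S a n k.1 * a k.2 * ee (dt (k.1 + k.2) c) := by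
      rw [pow_succ, ih, Finset.sum_product]
      unfold tp
      rw [Finset.sum_mul_sum]
      refine Finset.sum_congr rfl fun k _ => ?_
      refine Finset.sum_congr rfl fun l _ => ?_
      rw [dt_add, ee_add]
      ring
    rw [h1, ← Finset.sum_fiberwise_of_maps_to (s := SP S n ×ˢ S) (t := SP S (n + 1))
      (g := fun k => k.1 + k.2) (fun k hk => Finset.mem_image_of_mem _ hk)]
    unfold tp
    refine Finset.sum_congr rfl fun l _ => ?_
    show _ = (∑ k ∈ (SP S n ×ˢ S).filter (fun k => k.1 + k.2 = l), cf S a n k.1 * a k.2) * _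
    rw [Finset.sum_mul]
    refine Finset.sum_congr ?_ fun k hk => ?_
    · congr
    · rw [(Finset.mem_filter.1 hk).2]

private theorem fin92 : IsFiniteMeasure (volume.restrict Tq) := by
  have h1 : IsCompact Tq := isCompact_Icc.prod isCompact_Icc
  exact ⟨by rw [Measure.restrict_apply_univ]; exact h1.measure_lt_top⟩

private theorem intb92 {E : Type} [NormedAddCommGroup E] {f : ℝ × ℝ → E} (hf : Continuous f) :
    Integrable f (volume.restrict Tq) := by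
  have h1 : IsCompact Tq := isCompact_Icc.prod isCompact_Icc
  exact hf.continuousOn.integrableOn_compact h1

private theorem dt_cont92 (k : ℤ × ℤ) : Continuous (dt k) := by
  unfold dt
  fun_prop

private theorem parseval92 (T : Finset (ℤ × ℤ)) (b : ℤ × ℤ → ℂ) :
    ∫ c in Tq, ‖tp T b c‖ ^ 2 = ∑ l ∈ T, ‖b l‖ ^ 2 := by
  have h1 : ∀ c, ((‖tp T b c‖ ^ 2 : ℝ) : ℂ) = ∑ k ∈ T, ∑ l ∈ T, b k * (starRingEnd ℂ) (b l) *
      ee (dt (k - l) c) := by
    intro c
    rw [← Complex.normSq_eq_norm_sq, ← Complex.mul_conj]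
    unfold tp
    rw [map_sum, Finset.sum_mul_sum]
    refine Finset.sum_congr rfl fun k _ => Finset.sum_congr rfl fun l _ => ?_
    have h2 : ee (dt (k - l) c) = ee (dt k c) * (starRingEnd ℂ) (ee (dt l c)) := by
      rw [← ee_neg, ← ee_add]
      congr 1
      unfold dt
      rw [Prod.fst_sub, Prod.snd_sub]
      push_cast
      ring
    rw [h2, map_mul]
    ring
  have h2 : ((∫ c in Tq, ‖tp T b c‖ ^ 2 : ℝ) : ℂ) = ((∑ l ∈ T, ‖b l‖ ^ 2 : ℝ) : ℂ) := by
    rw [← integral_complex_ofReal]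
    simp only [h1]
    have hI : ∀ k l : ℤ × ℤ, Integrable (fun c : ℝ × ℝ => b k * (starRingEnd ℂ) (b l) *
        ee (dt (k - l) c)) (volume.restrict Tq) := fun k l =>
      intb92 (continuous_const.mul (ee_cont.comp (dt_cont92 _)))
    rw [integral_finsetSum _ fun k _ => integrable_finsetSum _ fun l _ => hI k l]
    push_cast
    refine Finset.sum_congr rfl fun k hk => ?_
    rw [integral_finsetSum _ fun l _ => hI k l]
    rw [Finset.sum_eq_single k]
    · rw [integral_const_mul, ee_int, if_pos (sub_self k), mul_one, Complex.mul_conj,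
        Complex.normSq_eq_norm_sq]
      push_cast
      rfl
    · intro l _ hl
      rw [integral_const_mul, ee_int, if_neg (fun h => hl (sub_eq_zero.1 h).symm), mul_zero]
    · intro h
      exact absurd hk h
  exact_mod_cast h2

theorem m20_eq (S : Finset (ℤ × ℤ)) (a : ℤ × ℤ → ℂ) : m20 S a = ∑ l ∈ SP S 10, ‖cf S a 10 l‖ ^ 2 := by
  rw [← parseval92]
  unfold m20
  refine integral_congr_ae (Eventually.of_forall fun c => ?_)
  simp only
  rw [← tp_pow, norm_pow]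
  ring

theorem cf_shift (S : Finset (ℤ × ℤ)) (a : ℤ × ℤ → ℂ) (c₀ : ℝ × ℝ) (n : ℕ) :
    ∀ l ∈ SP S n, cf S (fun k => ee (dt k c₀) * a k) n l = ee (dt l c₀) * cf S a n l := by
  induction n with
  | zero =>
    intro l hl
    have h1 : l = 0 := by simpa [SP] using hl
    have h3 : dt 0 c₀ = 0 := by simp [dt]
    rw [h1, h3, ee_zero]
    simp [cf]
  | succ n ih =>
    intro l _
    show ∑ k ∈ _, _ = _ * ∑ k ∈ _, _
    rw [Finset.mul_sum]
    refine Finset.sum_congr rfl fun k hk => ?_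
    have hk' := (Finset.mem_product.1 (Finset.mem_filter.1 hk).1).1
    rw [ih k.1 hk', ← (Finset.mem_filter.1 hk).2, dt_add, ee_add]
    ring

theorem m20_shift (S : Finset (ℤ × ℤ)) (a : ℤ × ℤ → ℂ) (c₀ : ℝ × ℝ) : m20 S (fun k => ee (dt k c₀) * a k) = m20 S a := by
  rw [m20_eq, m20_eq]
  refine Finset.sum_congr rfl fun l hl => ?_
  rw [cf_shift S a c₀ 10 l hl, norm_mul, ee_norm, one_mul]

theorem nik20 (S : Finset (ℤ × ℤ)) (a : ℤ × ℤ → ℂ) (c : ℝ × ℝ) : ‖tp S a c‖ ^ 20 ≤ ((SP S 10).card : ℝ) * m20 S a := by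
  have h1 : ‖tp S a c‖ ^ 20 = ‖tp (SP S 10) (cf S a 10) c‖ ^ 2 := by
    rw [← tp_pow, norm_pow]
    ring
  rw [h1, m20_eq]
  calc ‖tp (SP S 10) (cf S a 10) c‖ ^ 2 ≤ (∑ l ∈ SP S 10, ‖cf S a 10 l‖) ^ 2 :=
        pow_le_pow_left₀ (norm_nonneg _) (tp_norm_le _ _ _) 2
    _ ≤ ((SP S 10).card : ℝ) * ∑ l ∈ SP S 10, ‖cf S a 10 l‖ ^ 2 := sq_sum_le_card_mul_sum_sq

private theorem m20_pow92 (S : Finset (ℤ × ℤ)) (a : ℤ × ℤ → ℂ) :
    MemLp (tp S a) 20 (volume.restrict Tq) ∧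
      m20 S a ^ (1 / 20 : ℝ) = (eLpNorm (tp S a) 20 (volume.restrict Tq)).toReal := by
  have := fin92
  have h1 : MemLp (tp S a) 20 (volume.restrict Tq) :=
    MemLp.of_bound (tp_cont S a).aestronglyMeasurable (∑ k ∈ S, ‖a k‖)
      (Eventually.of_forall fun c => tp_norm_le S a c)
  refine ⟨h1, ?_⟩
  rw [h1.eLpNorm_eq_integral_rpow_norm (by norm_num) (by norm_num)]
  have h2 : (20 : ENNReal).toReal = 20 := by norm_num
  rw [h2, ENNReal.toReal_ofReal (by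
    apply Real.rpow_nonneg
    exact integral_nonneg fun _ => by positivity)]
  unfold m20
  rw [one_div]
  congr 1
  refine integral_congr_ae (Eventually.of_forall fun c => ?_)
  simp only
  rw [← Real.rpow_natCast]
  norm_num

theorem m20_add (S : Finset (ℤ × ℤ)) (a b : ℤ × ℤ → ℂ) :
    m20 S (fun k => a k + b k) ^ (1 / 20 : ℝ) ≤ m20 S a ^ (1 / 20 : ℝ) + m20 S b ^ (1 / 20 : ℝ) := by
  obtain ⟨ha, ea⟩ := m20_pow92 S a
  obtain ⟨hb, eb⟩ := m20_pow92 S b
  obtain ⟨-, eab⟩ := m20_pow92 S (fun k => a k + b k)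
  rw [ea, eb, eab]
  have h1 : tp S (fun k => a k + b k) = tp S a + tp S b := by
    funext c
    rw [Pi.add_apply]
    unfold tp
    rw [← Finset.sum_add_distrib]
    exact Finset.sum_congr rfl fun k _ => by ring
  rw [h1, ← ENNReal.toReal_add ha.eLpNorm_ne_top hb.eLpNorm_ne_top]
  exact ENNReal.toReal_mono (ENNReal.add_ne_top.2 ⟨ha.eLpNorm_ne_top, hb.eLpNorm_ne_top⟩)
    (eLpNorm_add_le ha.aestronglyMeasurable hb.aestronglyMeasurable (by norm_num))

/-- the sumset of a set in a box -/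
theorem sp_box {S : Finset (ℤ × ℤ)} {X Y : ℝ} (h : ∀ p ∈ S, |(p.1 : ℝ)| ≤ X ∧ |(p.2 : ℝ)| ≤ Y) (n : ℕ) :
    ∀ l ∈ SP S n, |(l.1 : ℝ)| ≤ n * X ∧ |(l.2 : ℝ)| ≤ n * Y := by
  induction n with
  | zero =>
    intro l hl
    have h1 : l = 0 := by simpa [SP] using hl
    simp [h1]
  | succ n ih =>
    intro l hl
    unfold SP at hl
    rw [Finset.mem_image] at hl
    obtain ⟨k, hk, rfl⟩ := hl
    rw [Finset.mem_product] at hk
    obtain ⟨hk1, hk2⟩ := hk
    have a1 := ih _ hk1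
    have a2 := h _ hk2
    simp only [abs_le] at a1 a2 ⊢
    simp only [Prod.fst_add, Prod.snd_add]
    push_cast
    refine ⟨⟨?_, ?_⟩, ?_, ?_⟩ <;> linarith [a1.1.1, a1.1.2, a1.2.1, a1.2.2, a2.1.1, a2.1.2, a2.2.1, a2.2.2]

theorem sp10_card {S : Finset (ℤ × ℤ)} {X Y : ℝ} (hX : 1 ≤ X) (hY : 1 ≤ Y)
    (h : ∀ p ∈ S, |(p.1 : ℝ)| ≤ X ∧ |(p.2 : ℝ)| ≤ Y) : ((SP S 10).card : ℝ) ≤ 441 * (X * Y) := by
  have h3 : ∀ l ∈ SP S 10, |(l.1 : ℝ)| ≤ 10 * X ∧ |(l.2 : ℝ)| ≤ 10 * Y := by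
    intro l hl
    have := sp_box h 10 l hl
    push_cast at this
    exact this
  have hsub : SP S 10 ⊆ Finset.Icc (-⌊10 * X⌋) ⌊10 * X⌋ ×ˢ Finset.Icc (-⌊10 * Y⌋) ⌊10 * Y⌋ := by
    intro l hl
    have h4 := h3 l hl
    rw [abs_le, abs_le] at h4
    rw [Finset.mem_product, Finset.mem_Icc, Finset.mem_Icc]
    refine ⟨⟨?_, ?_⟩, ?_, ?_⟩
    · rw [neg_le, Int.le_floor]
      push_cast
      linarith [h4.1.1]
    · rw [Int.le_floor]
      linarith [h4.1.2]
    · rw [neg_le, Int.le_floor]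
      push_cast
      linarith [h4.2.1]
    · rw [Int.le_floor]
      linarith [h4.2.2]
  have hcard : ∀ Z : ℝ, 1 ≤ Z → ((Finset.Icc (-⌊10 * Z⌋) ⌊10 * Z⌋).card : ℝ) ≤ 21 * Z := by
    intro Z hZ
    rw [Int.card_Icc]
    have h0 : 0 ≤ ⌊10 * Z⌋ := Int.floor_nonneg.mpr (by linarith)
    have h1 : ((⌊10 * Z⌋ + 1 - -⌊10 * Z⌋).toNat : ℤ) = ⌊10 * Z⌋ + 1 - -⌊10 * Z⌋ := Int.toNat_of_nonneg (by linarith)
    have h3 := Int.floor_le (10 * Z)
    have h4 : (((⌊10 * Z⌋ + 1 - -⌊10 * Z⌋).toNat : ℕ) : ℝ) = 2 * (⌊10 * Z⌋ : ℝ) + 1 := by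
      have h5 : (((⌊10 * Z⌋ + 1 - -⌊10 * Z⌋).toNat : ℕ) : ℝ) = (((⌊10 * Z⌋ + 1 - -⌊10 * Z⌋).toNat : ℤ) : ℝ) := by
        push_cast
        rfl
      rw [h5, h1]
      push_cast
      ring
    rw [h4]
    linarith
  have h1 := Finset.card_le_card hsub
  rw [Finset.card_product] at h1
  have h2 : ((SP S 10).card : ℝ) ≤ ((Finset.Icc (-⌊10 * X⌋) ⌊10 * X⌋).card : ℝ) * ((Finset.Icc (-⌊10 * Y⌋) ⌊10 * Y⌋).card : ℝ) := by
    exact_mod_cast h1
  have h3 := mul_le_mul (hcard X hX) (hcard Y hY) (Nat.cast_nonneg _) (by linarith)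
  linarith

end Pool.Agent.Helper75.TW
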